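import Pool.Agent.Helper5.B54v2.Run2
import Pool.Agent.Helper5.B54.Cell
import Pool.Agent.Helper65.B54.Ends

/-!
# Cells, second format
-/

namespace Pool.Agent.Helper5.B54

open Finset MvPolynomial Pool.Agent.Helper65.B54

variable {prev : List Facet} {F : Facet}

theorem aeval_nn (p : MvPolynomial (Fin 6) ℕ) {s : Fin 6 → ℝ} (hs : ∀ k, 0 ≤ s k) :
    0 ≤ aeval s p := by
  rw [aeval_def, eval₂_eq']
  exact sum_nonneg fun m _ => mul_nonneg (by simp) (prod_nonneg fun k _ => pow_nonneg (hs k) _)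

theorem Facet.f_nonneg (G : Facet) {p : Fin 3 → ℝ} (h : ∀ i, 0 ≤ p i) : 0 ≤ G.f p := by
  unfold Facet.f
  have h0 := h 0
  have h1 := h 1
  have h2 := h 2
  positivity

theorem s6_nonneg {α γ : ℝ} {z : Fin 3 → ℝ} (hz : z ∈ R0 α γ) (k : Fin 6) : 0 ≤ s6 α γ z k := by
  obtain ⟨h0, h1, h2, h3⟩ := hz
  have a0 := h0 0
  have a1 := h0 1
  have a2 := h0 2
  fin_cases k
  · change 0 ≤ z 0
    exact a0
  · change 0 ≤ α - z 0
    linarith
  · change 0 ≤ z 1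
    exact a1
  · change 0 ≤ γ - z 1
    linarith
  · change 0 ≤ z 2
    exact a2
  · change 0 ≤ 1 - α - γ - z 2
    linarith

theorem getD_tau {α γ : ℝ} (h : ∀ G ∈ prev, 0 ≤ G.tau α γ) (j : ℕ) :
    0 ≤ (prev.getD j zeroF).tau α γ := by
  by_cases hj : j < prev.length
  · rw [List.getD_eq_getElem _ _ hj]
    exact h _ (List.getElem_mem hj)
  · rw [List.getD_eq_default _ _ (by omega)]
    simp [Facet.tau, zeroF]

/-- the right sides of the cuts -/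
theorem cutH_nonneg {α γ : ℝ} {z : Fin 3 → ℝ} (c : Cut) (hs : ∀ k, 0 ≤ s6 α γ z k)
    (hτ : ∀ G ∈ prev, 0 ≤ G.tau α γ) : 0 ≤ aeval (s6 α γ z) (cutH prev F c).poly := by
  rw [poly_val, Fin.sum_univ_six]
  have h0 := hs 0
  have h1 := hs 1
  have h2 := hs 2
  have h3 := hs 3
  have h4 := hs 4
  have h5 := hs 5
  cases c with
  | tot =>
    simp [cutH, V6.fn]
    linarith
  | nc =>
    simp [cutH, V6.fn]
    linarith
  | box k =>
    unfold cutH unitI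
    simp only
    split <;> simp_all [V6.fn]
  | fac j =>
    have h := getD_tau hτ j
    unfold cutH
    simp only
    generalize prev.getD j zeroF = G at h
    unfold Facet.tau at h
    unfold Facet.H V6.fn
    change 0 ≤ (((G.m0 + G.ma : ℤ) : ℝ)) * s6 α γ z 0 + (((G.m0 + G.ma : ℤ) : ℝ)) * s6 α γ z 1 +
      (((G.m0 + G.mg : ℤ) : ℝ)) * s6 α γ z 2 + (((G.m0 + G.mg : ℤ) : ℝ)) * s6 α γ z 3 +
      ((G.m0 : ℤ) : ℝ) * s6 α γ z 4 + ((G.m0 : ℤ) : ℝ) * s6 α γ z 5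
    have hs0 : s6 α γ z 0 = z 0 := rfl
    have hs1 : s6 α γ z 1 = α - z 0 := rfl
    have hs2 : s6 α γ z 2 = z 1 := rfl
    have hs3 : s6 α γ z 3 = γ - z 1 := rfl
    have hs4 : s6 α γ z 4 = z 2 := rfl
    have hs5 : s6 α γ z 5 = 1 - α - γ - z 2 := rfl
    rw [hs0, hs1, hs2, hs3, hs4, hs5]
    push_cast
    linarith
  | own =>
    unfold cutH Facet.HO V6.fn
    change 0 ≤ (((F.wA : ℤ) : ℝ)) * s6 α γ z 0 + ((0 : ℤ) : ℝ) * s6 α γ z 1 +
      (((F.wC : ℤ) : ℝ)) * s6 α γ z 2 + ((0 : ℤ) : ℝ) * s6 α γ z 3 +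
      (((F.wD : ℤ) : ℝ)) * s6 α γ z 4 + ((0 : ℤ) : ℝ) * s6 α γ z 5
    push_cast
    have := mul_nonneg (Nat.cast_nonneg (α := ℝ) F.wA) h0
    have := mul_nonneg (Nat.cast_nonneg (α := ℝ) F.wC) h2
    have := mul_nonneg (Nat.cast_nonneg (α := ℝ) F.wD) h4
    linarith

theorem polyP_val (d : Dual) (s : Fin 6 → ℝ) : aeval s (polyP prev F d) =
    625 * (∑ c : Fin d.ys.length, aeval s (quart (decY (d.ys.get c).2.1 (d.ys.get c).2.2)) *
      aeval s (cutH prev F (d.ys.get c).1).poly + aeval s (polyU prev F d)) := by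
  unfold polyP
  rw [map_mul, map_add, aeval_C, aeval_polyH, aeval_cst]
  simp

theorem polyP_nonneg {α γ : ℝ} {z : Fin 3 → ℝ} (d : Dual) (hs : ∀ k, 0 ≤ s6 α γ z k)
    (hτ : ∀ G ∈ prev, 0 ≤ G.tau α γ) : 0 ≤ aeval (s6 α γ z) (polyP prev F d) := by
  rw [polyP_val]
  refine mul_nonneg (by norm_num) (add_nonneg (sum_nonneg fun c _ => mul_nonneg ?_ ?_) ?_)
  · exact aeval_nn _ hs
  · exact cutH_nonneg _ hs hτ
  · exact aeval_nn _ hs

/-- the bound for the multipliers -/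
def MM2 : ℝ := 2 ^ 160

theorem MM_le : MM ≤ MM2 := by
  unfold MM MM2
  norm_num

theorem nu_bound {D2 : ℕ} (hD : 0 < D2) (hD2 : D2 ≤ 131072) {m : ℤ}
    (h3 : m.natAbs ≤ 1152921504606846976) :
    |(m : ℝ)| ≤ MM2 * (1 / (216 * (D2 : ℝ) ^ 5)) := by
  have hDR : (0 : ℝ) < D2 := by exact_mod_cast hD
  have h4 : |(m : ℝ)| ≤ 1152921504606846976 := by
    have : |m| ≤ 1152921504606846976 := by
      rw [← Int.natCast_natAbs]; exact_mod_cast h3
    exact_mod_cast this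
  refine h4.trans ?_
  unfold MM2
  have h5 : (D2 : ℝ) ≤ 131072 := by exact_mod_cast hD2
  have h6 : (D2 : ℝ) ^ 5 ≤ 131072 ^ 5 := pow_le_pow_left₀ hDR.le h5 5
  rw [mul_one_div, le_div_iff₀ (by positivity)]
  calc (1152921504606846976 : ℝ) * (216 * (D2 : ℝ) ^ 5) ≤
      1152921504606846976 * (216 * 131072 ^ 5) := by gcongr
    _ ≤ 2 ^ 160 := by norm_num

theorem dual_kill6' {D2 : ℕ} {d : Dual} (hD : 0 < D2) (hD2 : D2 ≤ 131072)
    (hok : dualOk prev F d = true) {α γ : ℝ} {z : Fin 3 → ℝ}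
    (hs : ∀ k, 0 ≤ s6 α γ z k) (hτ : ∀ G ∈ prev, 0 ≤ G.tau α γ)
    (h1 : 1 ≤ (D2 : ℝ) ^ 5 * (216 * (muPar d.mu).val (pv α γ z) -
      aeval (pv α γ z) (par (polyP prev F d)))) :
    Kill MM2 par6 [fun k : Fin 6 => par6 k == 0, fun k => par6 k == 1,
      fun k => k == 0 || k == 2 || k == 4] (s6 α γ z) (Rs prev α γ ∩ {p | F.f p ≤ F.f z}) := by
  have hDR : (0 : ℝ) < D2 := by exact_mod_cast hD
  have hD5 : (0 : ℝ) < (D2 : ℝ) ^ 5 := pow_pos hDR 5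
  rw [aeval_par (hom_polyP d), cells_pv, muPar_val, cells_pv] at h1
  have hnn := polyP_nonneg (F := F) d hs hτ
  have h2 : 1 / (D2 : ℝ) ^ 5 ≤ 216 * ∑ k, (d.mu.fn k : ℝ) * s6 α γ z k -
      aeval (s6 α γ z) (polyP prev F d) := by
    rw [div_le_iff₀ hD5]
    linarith
  have hpos : 0 < 1 / (D2 : ℝ) ^ 5 := by positivity
  refine kill_of_forms par6 _ (s6 α γ z) _ MM2
    (fun c k => (cutW prev F (d.ys.get c).1).fn k)
    (fun c => aeval (s6 α γ z) (cutH prev F (d.ys.get c).1).poly) d.mu.fn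
    (fun c => quart (decY (d.ys.get c).2.1 (d.ys.get c).2.2)) (polyU prev F d)
    (fun c m => quart_deg _ m) ?_ ?_ ?_ (1 / (216 * (D2 : ℝ) ^ 5)) (by positivity) ?_ ?_ ?_
  · intro m hm
    exact mem_IxN.mp (support_of_hom (hom_polyU d) (mem_support_iff.mpr hm))
  · intro c q _ hq hR
    exact cut_valid _ q hq hR
  · intro m h5 hS
    refine hcoef_of h5 ⟨?_, ?_, ?_⟩
    · have h := hS (fun k : Fin 6 => par6 k == 0) (by simp)
      rw [sum_filter, Fin.sum_univ_six] at h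
      simpa [par6] using h
    · have h := hS (fun k : Fin 6 => par6 k == 1) (by simp)
      rw [sum_filter, Fin.sum_univ_six] at h
      simpa [par6] using h
    · have h := hS (fun k : Fin 6 => k == 0 || k == 2 || k == 4) (by simp)
      rw [sum_filter, Fin.sum_univ_six] at h
      simpa using h
  · have e : 1 / (216 * (D2 : ℝ) ^ 5) = 1 / (D2 : ℝ) ^ 5 / 216 := by
      rw [div_div, mul_comm]
    rw [e, div_le_iff₀ (by norm_num)]
    linarith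
  · intro k
    exact nu_bound hD hD2 (smallV_spec (dualOk_spec hok).2.1 k)
  · rw [← polyP_val]
    linarith

/-- a region without points -/
theorem kill_empty {M : ℝ} (hM : 1 ≤ M) {α γ : ℝ} {R : Set (Fin 3 → ℝ)} (hR : ∀ z, z ∉ R) :
    Kill M id [fun k : Fin 3 => k == 0, fun k => k == 1] (s3 α γ) R := by
  refine ⟨1, fun _ _ => 1, fun _ => 0, fun _ => 1, fun _ _ => 1, fun _ => 0, ?_, ?_, ?_, ?_, ?_, ?_,
    ?_, ?_⟩
  · intro _ _; norm_num
  · intro _ q _ _ hq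
    exact (hR _ hq).elim
  · intro _
    rw [abs_one]
    exact hM
  · intro _ _; norm_num
  · intro _; norm_num
  · intro κ _
    simp
  · simp only [one_mul]
    rw [sum_s3]
  · simp only [one_mul, zero_mul, sum_const_zero, add_zero, mul_zero]
    rw [sum_s3]
    norm_num

theorem dual_kill3' {D2 : ℕ} {d : Dual} (hD : 0 < D2) (hD2 : D2 ≤ 131072)
    (hok : dualOk prev zeroF d = true) {α γ : ℝ}
    (hs : ∀ k, 0 ≤ s6 α γ 0 k) (hτ : ∀ G ∈ prev, 0 ≤ G.tau α γ)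
    (h1 : 1 ≤ (D2 : ℝ) ^ 5 * (216 * (muPar d.mu).val (pv α γ 0) -
      aeval (pv α γ 0) (par (polyP prev zeroF d)))) :
    Kill MM2 id [fun k : Fin 3 => k == 0, fun k => k == 1] (s3 α γ) (Rs prev α γ) := by
  have hDR : (0 : ℝ) < D2 := by exact_mod_cast hD
  have hD5 : (0 : ℝ) < (D2 : ℝ) ^ 5 := pow_pos hDR 5
  rw [aeval_par (hom_polyP d), cells_pv, muPar_val, cells_pv] at h1
  have hnn := polyP_nonneg (F := zeroF) d hs hτ
  have hmu : ∑ k, (d.mu.fn k : ℝ) * s6 α γ 0 k =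
      ∑ k : Fin 3, ((![d.mu.fn 1, d.mu.fn 3, d.mu.fn 5] k : ℤ) : ℝ) * s3 α γ k := by
    rw [Fin.sum_univ_six, Fin.sum_univ_three, s6_zero]
    simp
  rw [hmu] at h1
  have h2 : 1 / (D2 : ℝ) ^ 5 ≤ 216 * (∑ k : Fin 3,
      ((![d.mu.fn 1, d.mu.fn 3, d.mu.fn 5] k : ℤ) : ℝ) * s3 α γ k) -
      aeval (s6 α γ 0) (polyP prev zeroF d) := by
    rw [div_le_iff₀ hD5]
    linarith
  have hpos : 0 < 1 / (D2 : ℝ) ^ 5 := by positivity
  refine kill_of_forms id _ (s3 α γ) _ MM2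
    (fun c k => ![(cutW prev zeroF (d.ys.get c).1).fn 1, (cutW prev zeroF (d.ys.get c).1).fn 3,
      (cutW prev zeroF (d.ys.get c).1).fn 5] k)
    (fun c => aeval (s6 α γ 0) (cutH prev zeroF (d.ys.get c).1).poly)
    ![d.mu.fn 1, d.mu.fn 3, d.mu.fn 5]
    (fun c => phi (quart (decY (d.ys.get c).2.1 (d.ys.get c).2.2))) (phi (polyU prev zeroF d))
    ?_ ?_ ?_ ?_ (1 / (216 * (D2 : ℝ) ^ 5)) (by positivity) ?_ ?_ ?_
  · intro c m hm
    rw [coeff_phi] at hm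
    rw [← sum_emb]
    exact quart_deg _ _ hm
  · intro m hm
    rw [coeff_phi] at hm
    rw [← sum_emb]
    exact mem_IxN.mp (support_of_hom (hom_polyU d) (mem_support_iff.mpr hm))
  · intro c q hq0 hq hR
    have h3 := cut_valid (prev := prev) (F := zeroF) (α := α) (γ := γ) (z := 0) (d.ys.get c).1
      ![0, q 0, 0, q 1, 0, q 2] (by
        intro k
        rw [s6_zero]
        fin_cases k
        · simp
        · simpa using hq 0
        · simp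
        · simpa using hq 1
        · simp
        · simpa using hq 2) (by
        have e : agg par6 ![0, q 0, 0, q 1, 0, q 2] = agg id q := by
          rw [agg6]
          funext i
          unfold agg
          rw [Fin.sum_univ_three]
          fin_cases i <;> simp
        rw [e]
        refine ⟨hR, ?_⟩
        show zeroF.f _ ≤ zeroF.f _
        simp [Facet.f, zeroF])
    refine le_trans (le_of_eq ?_) h3
    rw [Fin.sum_univ_six, Fin.sum_univ_three]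
    simp
  · intro m h5 hS
    have h6 : ∑ k, emb m k = 5 := by rw [sum_emb]; exact h5
    obtain ⟨e0, e1, e2, e3, e4, e5⟩ := emb_apply m
    have hall : Allowed (emb m) := by
      refine ⟨?_, ?_, ?_⟩
      · have h := hS (fun k : Fin 3 => k == 0) (by simp)
        rw [sum_filter, Fin.sum_univ_three] at h
        rw [e0, e1]
        simpa using h
      · have h := hS (fun k : Fin 3 => k == 1) (by simp)
        rw [sum_filter, Fin.sum_univ_three] at h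
        rw [e2, e3]
        simpa using h
      · rw [e0, e2, e4]; norm_num
    have h7 := hcoef_of (prev := prev) (F := zeroF) (d := d) h6 hall
    have f1 : coeff m ((∑ k : Fin 3, (X k : MvPolynomial (Fin 3) ℤ)) ^ 4 *
        ∑ k, C (![d.mu.fn 1, d.mu.fn 3, d.mu.fn 5] k) * X k) =
        coeff (emb m) ((∑ k : Fin 6, (X k : MvPolynomial (Fin 6) ℤ)) ^ 4 *
        ∑ k, C (d.mu.fn k) * X k) := by
      rw [← coeff_phi, phi_mul, phi_lin]
      have : phi ((∑ k : Fin 6, (X k : MvPolynomial (Fin 6) ℤ)) ^ 4) =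
          (∑ k : Fin 3, (X k : MvPolynomial (Fin 3) ℤ)) ^ 4 := by
        rw [← phi_sumX]; exact map_pow _ _ _
      rw [this]
    have f2 : ∀ c : Fin d.ys.length, coeff m (phi (quart (decY (d.ys.get c).2.1 (d.ys.get c).2.2)) *
        ∑ k, C (![(cutW prev zeroF (d.ys.get c).1).fn 1, (cutW prev zeroF (d.ys.get c).1).fn 3,
        (cutW prev zeroF (d.ys.get c).1).fn 5] k) * X k) =
        coeff (emb m) (quart (decY (d.ys.get c).2.1 (d.ys.get c).2.2) *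
        ∑ k, C ((cutW prev zeroF (d.ys.get c).1).fn k) * X k) := by
      intro c
      rw [← coeff_phi, phi_mul, phi_lin]
    rw [f1, coeff_phi]
    simp only [f2]
    exact h7
  · have e : 1 / (216 * (D2 : ℝ) ^ 5) = 1 / (D2 : ℝ) ^ 5 / 216 := by
      rw [div_div, mul_comm]
    rw [e, div_le_iff₀ (by norm_num)]
    linarith
  · intro k
    have h3 : ∀ j : Fin 6, |(d.mu.fn j : ℝ)| ≤ MM2 * (1 / (216 * (D2 : ℝ) ^ 5)) := fun j =>
      nu_bound hD hD2 (smallV_spec (dualOk_spec hok).2.1 j)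
    fin_cases k
    · exact h3 1
    · exact h3 3
    · exact h3 5
  · rw [polyP_val] at h2
    simp only [aeval_phi, ← s6_zero]
    linarith

/-! ### boxes -/

/-- all points of this box are killed in the step with the facet `F` -/
def Good (prev : List Facet) (F : Facet) (D l0 h0 l1 h1 l2 h2 l3 h3 l4 h4 : ℕ) : Prop :=
  ∀ (α γ : ℝ) (z : Fin 3 → ℝ), 0 ≤ γ → γ ≤ α → α + γ ≤ 1 → α ≤ 3 / 5 → z ∈ Rs prev α γ →
    F.tau α γ < F.f z → Box.Mem (2 * D) ⟨l0, h0, l1, h1, l2, h2, l3, h3, l4, h4⟩ (pv α γ z) →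
    Kill MM2 par6 [fun k : Fin 6 => par6 k == 0, fun k => par6 k == 1,
      fun k => k == 0 || k == 2 || k == 4] (s6 α γ z) (Rs prev α γ ∩ {p | F.f p ≤ F.f z})

section
variable {D l0 h0 l1 h1 l2 h2 l3 h3 l4 h4 : ℕ}

theorem tau_nonneg {α γ : ℝ} {z : Fin 3 → ℝ} (hz : z ∈ Rs prev α γ) :
    ∀ G ∈ prev, 0 ≤ G.tau α γ := fun G hG =>
  (G.f_nonneg hz.1.1).trans (hz.2 G hG)

theorem Good.chk {xs code : List ℕ}
    (h : chk2 true D prev F xs code l0 h0 l1 h1 l2 h2 l3 h3 l4 h4 = true) :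
    Good prev F D l0 h0 l1 h1 l2 h2 l3 h3 l4 h4 := by
  intro α γ z hγ hγα h1 h35 hz hzt hb
  obtain ⟨hD1, hD2, x, hx, hok, hq⟩ := chk2_run (st := true) (b := ⟨l0, h0, l1, _, l2, h2, l3, h3,
    l4, h4⟩) h (v := pv α γ z) rfl (cons_nonneg hγα h1 h35 hz (by linarith))
    (fun _ => by rw [ncon_val]; linarith) hb
  exact dual_kill6' (by omega) (by omega) hok (s6_nonneg hz.1) (tau_nonneg hz) hq

theorem Good.s0 (p : ℕ) (hl : Good prev F D l0 p l1 h1 l2 h2 l3 h3 l4 h4)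
    (hr : Good prev F D p h0 l1 h1 l2 h2 l3 h3 l4 h4) :
    Good prev F D l0 h0 l1 h1 l2 h2 l3 h3 l4 h4 := by
  intro α γ z a1 a2 a3 a4 a5 a6 hb
  rcases le_total (((2 * D : ℕ) : ℝ) * pv α γ z 0) (2 * (p : ℝ)) with hp | hp
  · exact hl α γ z a1 a2 a3 a4 a5 a6
      ⟨hb.l0, hp, hb.l1, hb.h1, hb.l2, hb.h2, hb.l3, hb.h3, hb.l4, hb.h4⟩
  · exact hr α γ z a1 a2 a3 a4 a5 a6
      ⟨hp, hb.h0, hb.l1, hb.h1, hb.l2, hb.h2, hb.l3, hb.h3, hb.l4, hb.h4⟩

theorem Good.s1 (p : ℕ) (hl : Good prev F D l0 h0 l1 p l2 h2 l3 h3 l4 h4)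
    (hr : Good prev F D l0 h0 p h1 l2 h2 l3 h3 l4 h4) :
    Good prev F D l0 h0 l1 h1 l2 h2 l3 h3 l4 h4 := by
  intro α γ z a1 a2 a3 a4 a5 a6 hb
  rcases le_total (((2 * D : ℕ) : ℝ) * pv α γ z 1) (2 * (p : ℝ)) with hp | hp
  · exact hl α γ z a1 a2 a3 a4 a5 a6
      ⟨hb.l0, hb.h0, hb.l1, hp, hb.l2, hb.h2, hb.l3, hb.h3, hb.l4, hb.h4⟩
  · exact hr α γ z a1 a2 a3 a4 a5 a6
      ⟨hb.l0, hb.h0, hp, hb.h1, hb.l2, hb.h2, hb.l3, hb.h3, hb.l4, hb.h4⟩

theorem Good.s2 (p : ℕ) (hl : Good prev F D l0 h0 l1 h1 l2 p l3 h3 l4 h4)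
    (hr : Good prev F D l0 h0 l1 h1 p h2 l3 h3 l4 h4) :
    Good prev F D l0 h0 l1 h1 l2 h2 l3 h3 l4 h4 := by
  intro α γ z a1 a2 a3 a4 a5 a6 hb
  rcases le_total (((2 * D : ℕ) : ℝ) * pv α γ z 2) (2 * (p : ℝ)) with hp | hp
  · exact hl α γ z a1 a2 a3 a4 a5 a6
      ⟨hb.l0, hb.h0, hb.l1, hb.h1, hb.l2, hp, hb.l3, hb.h3, hb.l4, hb.h4⟩
  · exact hr α γ z a1 a2 a3 a4 a5 a6
      ⟨hb.l0, hb.h0, hb.l1, hb.h1, hp, hb.h2, hb.l3, hb.h3, hb.l4, hb.h4⟩

theorem Good.s3 (p : ℕ) (hl : Good prev F D l0 h0 l1 h1 l2 h2 l3 p l4 h4)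
    (hr : Good prev F D l0 h0 l1 h1 l2 h2 p h3 l4 h4) :
    Good prev F D l0 h0 l1 h1 l2 h2 l3 h3 l4 h4 := by
  intro α γ z a1 a2 a3 a4 a5 a6 hb
  rcases le_total (((2 * D : ℕ) : ℝ) * pv α γ z 3) (2 * (p : ℝ)) with hp | hp
  · exact hl α γ z a1 a2 a3 a4 a5 a6
      ⟨hb.l0, hb.h0, hb.l1, hb.h1, hb.l2, hb.h2, hb.l3, hp, hb.l4, hb.h4⟩
  · exact hr α γ z a1 a2 a3 a4 a5 a6
      ⟨hb.l0, hb.h0, hb.l1, hb.h1, hb.l2, hb.h2, hp, hb.h3, hb.l4, hb.h4⟩

theorem Good.s4 (p : ℕ) (hl : Good prev F D l0 h0 l1 h1 l2 h2 l3 h3 l4 p)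
    (hr : Good prev F D l0 h0 l1 h1 l2 h2 l3 h3 p h4) :
    Good prev F D l0 h0 l1 h1 l2 h2 l3 h3 l4 h4 := by
  intro α γ z a1 a2 a3 a4 a5 a6 hb
  rcases le_total (((2 * D : ℕ) : ℝ) * pv α γ z 4) (2 * (p : ℝ)) with hp | hp
  · exact hl α γ z a1 a2 a3 a4 a5 a6
      ⟨hb.l0, hb.h0, hb.l1, hb.h1, hb.l2, hb.h2, hb.l3, hb.h3, hb.l4, hp⟩
  · exact hr α γ z a1 a2 a3 a4 a5 a6
      ⟨hb.l0, hb.h0, hb.l1, hb.h1, hb.l2, hb.h2, hb.l3, hb.h3, hp, hb.h4⟩

end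

/-! ### cells -/

/-- all points of the region in this box of `(α, γ)` are dead after the facets `prev` -/
def CellR2 (prev : List Facet) (D a0 a1 g0 g1 : ℕ) : Prop :=
  ∀ α γ : ℝ, (a0 : ℝ) ≤ D * α → D * α ≤ a1 → (g0 : ℝ) ≤ D * γ → D * γ ≤ g1 → 0 ≤ γ → γ ≤ α →
    α + γ ≤ 1 → α ≤ 3 / 5 → Dead MM2 α γ (Rs prev α γ)

/-- the same for the whole region -/
def Cell2 (D a0 a1 g0 g1 : ℕ) : Prop := CellR2 [] D a0 a1 g0 g1

theorem Cell2.of {D a0 a1 g0 g1 : ℕ} (h : Cell D a0 a1 g0 g1) : Cell2 D a0 a1 g0 g1 := by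
  intro α γ h1 h2 h3 h4 h5 h6 h7 h8
  rw [Rs_nil]
  exact (h α γ h1 h2 h3 h4 h5 h6 h7 h8).mono MM_le

theorem Cell2.dead {D a0 a1 g0 g1 : ℕ} (h : Cell2 D a0 a1 g0 g1) {α γ : ℝ} (h1 : (a0 : ℝ) ≤ D * α)
    (h2 : D * α ≤ a1) (h3 : (g0 : ℝ) ≤ D * γ) (h4 : D * γ ≤ g1) (h5 : 0 ≤ γ) (h6 : γ ≤ α)
    (h7 : α + γ ≤ 1) (h8 : α ≤ 3 / 5) : Dead MM2 α γ (R0 α γ) := by
  rw [← Rs_nil]
  exact h α γ h1 h2 h3 h4 h5 h6 h7 h8

theorem CellR2.step {prev : List Facet} {F : Facet} {D a0 a1 g0 g1 u : ℕ}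
    (h : Good prev F D 0 a1 a0 a1 0 g1 g0 g1 0 u) (hD : 0 < D) (hu : D ≤ u + a0 + g0)
    (hn : CellR2 (prev ++ [F]) D a0 a1 g0 g1) : CellR2 prev D a0 a1 g0 g1 := by
  intro α γ ha0 ha1 hg0 hg1 hγ hγα h1 h35
  have hDR : (0 : ℝ) < D := by exact_mod_cast hD
  refine Dead.step (Rs prev α γ) F.f (F.tau α γ) ?_
    (by rw [Rs_append]; exact hn α γ ha0 ha1 hg0 hg1 hγ hγα h1 h35)
  intro z hz hzt
  refine h α γ z hγ hγα h1 h35 hz hzt ?_
  obtain ⟨⟨hz0, hz1, hz2, hz3⟩, hz4⟩ := hz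
  have e2 : ((2 * D : ℕ) : ℝ) = 2 * D := by push_cast; ring
  have p0 : pv α γ z 0 = z 0 := rfl
  have p1 : pv α γ z 1 = α := rfl
  have p2 : pv α γ z 2 = z 1 := rfl
  have p3 : pv α γ z 3 = γ := rfl
  have p4 : pv α γ z 4 = z 2 := rfl
  have hn0 := hz0 0
  have hn1 := hz0 1
  have hn2 := hz0 2
  have m0 : D * z 0 ≤ D * α := mul_le_mul_of_nonneg_left (by linarith) hDR.le
  have m1 : D * z 1 ≤ D * γ := mul_le_mul_of_nonneg_left (by linarith) hDR.le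
  have m2 : D * z 2 ≤ D * (1 - α - γ) := mul_le_mul_of_nonneg_left hz3 hDR.le
  have n0 := mul_nonneg hDR.le hn0
  have n1 := mul_nonneg hDR.le hn1
  have n2 := mul_nonneg hDR.le hn2
  have hsub : (D : ℝ) ≤ u + a0 + g0 := by exact_mod_cast hu
  constructor
  · rw [e2, p0]; push_cast; linarith
  · rw [e2, p0]; linarith
  · rw [e2, p1]; linarith
  · rw [e2, p1]; linarith
  · rw [e2, p2]; push_cast; linarith
  · rw [e2, p2]; linarith
  · rw [e2, p3]; linarith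
  · rw [e2, p3]; linarith
  · rw [e2, p4]; push_cast; linarith
  · rw [e2, p4]; linarith

theorem CellR2.fin {prev : List Facet} {D a0 a1 g0 g1 : ℕ} {xs code : List ℕ}
    (h : chk2 false D prev zeroF xs code 0 0 a0 a1 0 0 g0 g1 0 0 = true) :
    CellR2 prev D a0 a1 g0 g1 := by
  intro α γ ha0 ha1 hg0 hg1 hγ hγα h1 h35
  refine Dead.kill _ ?_
  by_cases hτ : ∀ G ∈ prev, 0 ≤ G.tau α γ
  · have hz : (0 : Fin 3 → ℝ) ∈ Rs prev α γ := by
      refine ⟨⟨fun i => le_refl _, ?_, ?_, ?_⟩, ?_⟩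
      · simp; linarith
      · simp; linarith
      · simp; linarith
      · intro G hG
        have e : G.f (0 : Fin 3 → ℝ) = 0 := by simp [Facet.f]
        rw [e]
        exact hτ G hG
    have hF : 0 ≤ zeroF.f (0 : Fin 3 → ℝ) - zeroF.tau α γ := by
      simp [Facet.f, Facet.tau, zeroF]
    have hb : Box.Mem (2 * D) ⟨0, 0, a0, a1, 0, 0, g0, g1, 0, 0⟩ (pv α γ 0) := by
      have e2 : ((2 * D : ℕ) : ℝ) = 2 * D := by push_cast; ring
      have p0 : pv α γ 0 0 = 0 := rfl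
      have p1 : pv α γ 0 1 = α := rfl
      have p2 : pv α γ 0 2 = 0 := rfl
      have p3 : pv α γ 0 3 = γ := rfl
      have p4 : pv α γ 0 4 = 0 := rfl
      constructor
      · rw [e2, p0]; simp
      · rw [e2, p0]; simp
      · rw [e2, p1]; linarith
      · rw [e2, p1]; linarith
      · rw [e2, p2]; simp
      · rw [e2, p2]; simp
      · rw [e2, p3]; linarith
      · rw [e2, p3]; linarith
      · rw [e2, p4]; simp
      · rw [e2, p4]; simp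
    obtain ⟨hD1, hD2, x, hx, hok, hq⟩ := chk2_run (st := false)
      (b := ⟨0, 0, a0, a1, 0, 0, g0, g1, 0, 0⟩) h (v := pv α γ 0) rfl
      (cons_nonneg hγα h1 h35 hz hF) (fun hh => by simp at hh) hb
    exact dual_kill3' (by omega) (by omega) hok (s6_nonneg hz.1) hτ hq
  · push Not at hτ
    obtain ⟨G, hG, hlt⟩ := hτ
    refine kill_empty (by unfold MM2; norm_num) fun z hz => ?_
    have := tau_nonneg hz G hG
    linarith

theorem CellR2.splitA {prev : List Facet} {D a0 a1 g0 g1 : ℕ} (p : ℕ)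
    (hl : CellR2 prev D a0 p g0 g1) (hr : CellR2 prev D p a1 g0 g1) : CellR2 prev D a0 a1 g0 g1 := by
  intro α γ h1 h2 h3 h4 h5 h6 h7 h8
  rcases le_total (D * α) p with h | h
  · exact hl α γ h1 h h3 h4 h5 h6 h7 h8
  · exact hr α γ h h2 h3 h4 h5 h6 h7 h8

theorem CellR2.splitG {prev : List Facet} {D a0 a1 g0 g1 : ℕ} (p : ℕ)
    (hl : CellR2 prev D a0 a1 g0 p) (hr : CellR2 prev D a0 a1 p g1) : CellR2 prev D a0 a1 g0 g1 := by
  intro α γ h1 h2 h3 h4 h5 h6 h7 h8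
  rcases le_total (D * γ) p with h | h
  · exact hl α γ h1 h2 h3 h h5 h6 h7 h8
  · exact hr α γ h1 h2 h h4 h5 h6 h7 h8

/-- no point with `γ ≤ α` -/
theorem CellR2.emptyDiag {prev : List Facet} {D a0 a1 g0 g1 : ℕ} (h : a1 < g0) :
    CellR2 prev D a0 a1 g0 g1 := by
  intro α γ h1 h2 h3 h4 h5 h6 h7 h8
  exfalso
  have h9 : (a1 : ℝ) < g0 := by exact_mod_cast h
  have h10 : (D : ℝ) * γ ≤ D * α := mul_le_mul_of_nonneg_left h6 (Nat.cast_nonneg _)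
  linarith

/-- no point with `α + γ ≤ 1` -/
theorem CellR2.emptySum {prev : List Facet} {D a0 a1 g0 g1 : ℕ} (h : D < a0 + g0) :
    CellR2 prev D a0 a1 g0 g1 := by
  intro α γ h1 h2 h3 h4 h5 h6 h7 h8
  exfalso
  have h9 : (D : ℝ) < a0 + g0 := by exact_mod_cast h
  have h10 : (D : ℝ) * (α + γ) ≤ D * 1 := mul_le_mul_of_nonneg_left h7 (Nat.cast_nonneg _)
  linarith

/-- change of the denominator, smaller cells -/
theorem CellR2.mono {prev : List Facet} {D a0 a1 g0 g1 D' a0' a1' g0' g1' : ℕ}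
    (h : CellR2 prev D a0 a1 g0 g1) (hD' : 0 < D') (e1 : D' * a0 ≤ D * a0') (e2 : D * a1' ≤ D' * a1)
    (e3 : D' * g0 ≤ D * g0') (e4 : D * g1' ≤ D' * g1) : CellR2 prev D' a0' a1' g0' g1' := by
  intro α γ h1 h2 h3 h4 h5 h6 h7 h8
  have hD : (0 : ℝ) < D' := by exact_mod_cast hD'
  have hDn : (0 : ℝ) ≤ D := Nat.cast_nonneg _
  have f1 : (D' : ℝ) * a0 ≤ D * a0' := by exact_mod_cast e1
  have f2 : (D : ℝ) * a1' ≤ D' * a1 := by exact_mod_cast e2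
  have f3 : (D' : ℝ) * g0 ≤ D * g0' := by exact_mod_cast e3
  have f4 : (D : ℝ) * g1' ≤ D' * g1 := by exact_mod_cast e4
  refine h α γ ?_ ?_ ?_ ?_ h5 h6 h7 h8
  · refine le_of_mul_le_mul_left ?_ hD
    have := mul_le_mul_of_nonneg_left h1 hDn
    nlinarith
  · refine le_of_mul_le_mul_left ?_ hD
    have := mul_le_mul_of_nonneg_left h2 hDn
    nlinarith
  · refine le_of_mul_le_mul_left ?_ hD
    have := mul_le_mul_of_nonneg_left h3 hDn
    nlinarith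
  · refine le_of_mul_le_mul_left ?_ hD
    have := mul_le_mul_of_nonneg_left h4 hDn
    nlinarith

end Pool.Agent.Helper5.B54
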