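import Pool.Agent.Helper5.B54v2.Sem2

/-!
# Constraints and empty leaves, second format
-/

namespace Pool.Agent.Helper5.B54

open Finset MvPolynomial Pool.Agent.Helper65.B54

/-- meaning of a prepared constraint -/
structure C2Ok (D2 : ℕ) (c : C2) (a : V6) : Prop where
  h0 : (c.A0 : ℤ) = a.a0 + c.b
  h1 : (c.A1 : ℤ) = a.a1 + c.b
  h2 : (c.A2 : ℤ) = a.a2 + c.b
  h3 : (c.A3 : ℤ) = a.a3 + c.b
  h4 : (c.A4 : ℤ) = a.a4 + c.b
  h5 : (c.A5 : ℤ) = a.a5 + c.b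
  u0 : c.A0 ≤ 2 * c.b
  u1 : c.A1 ≤ 2 * c.b
  u2 : c.A2 ≤ 2 * c.b
  u3 : c.A3 ≤ 2 * c.b
  u4 : c.A4 ≤ 2 * c.b
  u5 : c.A5 ≤ 2 * c.b
  hB : c.B = c.A0 * X0 + c.A2 * X2 + c.A4 * X4 + c.A5 * D2

theorem c2ok_zero (D2 : ℕ) : C2Ok D2 ⟨0, 0, 0, 0, 0, 0, 0, 0⟩ zeroV := by
  constructor <;> simp [zeroV]

theorem c2ok_con (D2 : ℕ) (G : Facet) : C2Ok D2 (G.c2 D2) G.con := by
  have hb : G.bs = G.wA + G.wC + (G.wD + G.m0.natAbs) + (G.ma.natAbs + G.mg.natAbs) := rfl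
  constructor
  · show ((G.bs - G.wA : ℕ) : ℤ) = -(G.wA : ℤ) + (G.bs : ℤ); omega
  · show (((G.bs : ℤ) + G.ma).toNat : ℤ) = G.ma + (G.bs : ℤ); omega
  · show ((G.bs - G.wC : ℕ) : ℤ) = -(G.wC : ℤ) + (G.bs : ℤ); omega
  · show (((G.bs : ℤ) + G.mg).toNat : ℤ) = G.mg + (G.bs : ℤ); omega
  · show ((G.bs - G.wD : ℕ) : ℤ) = -(G.wD : ℤ) + (G.bs : ℤ); omega
  · show (((G.bs : ℤ) + G.m0).toNat : ℤ) = G.m0 + (G.bs : ℤ); omega
  · show G.bs - G.wA ≤ 2 * G.bs; omega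
  · show ((G.bs : ℤ) + G.ma).toNat ≤ 2 * G.bs; omega
  · show G.bs - G.wC ≤ 2 * G.bs; omega
  · show ((G.bs : ℤ) + G.mg).toNat ≤ 2 * G.bs; omega
  · show G.bs - G.wD ≤ 2 * G.bs; omega
  · show ((G.bs : ℤ) + G.m0).toNat ≤ 2 * G.bs; omega
  · rfl

theorem c2ok_ncon (D2 : ℕ) (G : Facet) : C2Ok D2 (G.n2 D2) G.ncon := by
  have hb : G.bs = G.wA + G.wC + (G.wD + G.m0.natAbs) + (G.ma.natAbs + G.mg.natAbs) := rfl
  constructor
  · show ((G.bs + G.wA : ℕ) : ℤ) = (G.wA : ℤ) + (G.bs : ℤ); omega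
  · show (((G.bs : ℤ) - G.ma).toNat : ℤ) = -G.ma + (G.bs : ℤ); omega
  · show ((G.bs + G.wC : ℕ) : ℤ) = (G.wC : ℤ) + (G.bs : ℤ); omega
  · show (((G.bs : ℤ) - G.mg).toNat : ℤ) = -G.mg + (G.bs : ℤ); omega
  · show ((G.bs + G.wD : ℕ) : ℤ) = (G.wD : ℤ) + (G.bs : ℤ); omega
  · show (((G.bs : ℤ) - G.m0).toNat : ℤ) = -G.m0 + (G.bs : ℤ); omega
  · show G.bs + G.wA ≤ 2 * G.bs; omega
  · show ((G.bs : ℤ) - G.ma).toNat ≤ 2 * G.bs; omega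
  · show G.bs + G.wC ≤ 2 * G.bs; omega
  · show ((G.bs : ℤ) - G.mg).toNat ≤ 2 * G.bs; omega
  · show G.bs + G.wD ≤ 2 * G.bs; omega
  · show ((G.bs : ℤ) - G.m0).toNat ≤ 2 * G.bs; omega
  · rfl

theorem getC2_rel {D2 : ℕ} : ∀ {l : List C2} {m : List V6}, List.Forall₂ (C2Ok D2) l m →
    ∀ i, C2Ok D2 (getC2 l i) (m.getD i zeroV)
  | [], [], _, i => by
    rw [List.getD_nil]
    exact c2ok_zero D2
  | c :: l, a :: m, h, 0 => by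
    cases h with
    | cons h1 h2 => exact h1
  | c :: l, a :: m, h, i + 1 => by
    cases h with
    | cons h1 h2 =>
      have e : getC2 (c :: l) (i + 1) = getC2 l i := rfl
      rw [e, List.getD_cons_succ]
      exact getC2_rel h2 i

theorem forall2_map (D2 : ℕ) : ∀ l : List Facet,
    List.Forall₂ (C2Ok D2) (l.map (Facet.c2 D2)) (l.map Facet.con)
  | [] => List.Forall₂.nil
  | G :: l => List.Forall₂.cons (c2ok_con D2 G) (forall2_map D2 l)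

theorem c2ok_lit {D2 A0 A1 A2 A3 A4 A5 b : ℕ} {a0 a1 a2 a3 a4 a5 : ℤ} (h0 : (A0 : ℤ) = a0 + b)
    (h1 : (A1 : ℤ) = a1 + b) (h2 : (A2 : ℤ) = a2 + b) (h3 : (A3 : ℤ) = a3 + b)
    (h4 : (A4 : ℤ) = a4 + b) (h5 : (A5 : ℤ) = a5 + b) (u0 : A0 ≤ 2 * b) (u1 : A1 ≤ 2 * b)
    (u2 : A2 ≤ 2 * b) (u3 : A3 ≤ 2 * b) (u4 : A4 ≤ 2 * b) (u5 : A5 ≤ 2 * b) :
    C2Ok D2 (mkC2 D2 A0 A1 A2 A3 A4 A5 b) ⟨a0, a1, a2, a3, a4, a5⟩ :=
  ⟨h0, h1, h2, h3, h4, h5, u0, u1, u2, u3, u4, u5, rfl⟩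

theorem cons2_rel (D2 : ℕ) (prev : List Facet) (F : Facet) :
    List.Forall₂ (C2Ok D2) (cons2 D2 prev F) (cons prev F) := by
  unfold cons2 cons baseCons
  refine .cons (c2ok_ncon D2 F) (.cons ?_ (.cons ?_ (.cons ?_ (.cons ?_ (.cons ?_ (.cons ?_
    (forall2_map D2 prev)))))))
  all_goals
    refine c2ok_lit ?_ ?_ ?_ ?_ ?_ ?_ ?_ ?_ ?_ ?_ ?_ ?_ <;> norm_num

/-! ### combinations -/

/-- the multiplier -/
def lv (x : ℕ) : ℕ := Nat.land (Nat.shiftRight x 6) 4398046511103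

/-- the combination of a code -/
def cmb (cs : List V6) : ℕ → ℕ → V6
  | 0, _ => zeroV
  | n + 1, x => addMul (cmb cs n (Nat.shiftRight x 48)) (lv x) (cs.getD (Nat.land x 63) zeroV)

theorem cmb_succ (cs : List V6) (n x : ℕ) : cmb cs (n + 1) x =
    addMul (cmb cs n (Nat.shiftRight x 48)) (lv x) (cs.getD (Nat.land x 63) zeroV) := rfl

theorem lamS_succ (f : C2 → ℕ) (cs : List C2) (n x : ℕ) :
    lamS f cs (n + 1) x = lv x * f (getC2 cs (Nat.land x 63)) + lamS f cs n (Nat.shiftRight x 48) :=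
  rfl

theorem lamS_eq {f : C2 → ℕ} {π : V6 → ℤ} (h0 : π zeroV = 0)
    (hπ : ∀ a k b, π (addMul a k b) = π a + k * π b) {cs : List C2} {ds : List V6}
    (h : ∀ i, (f (getC2 cs i) : ℤ) = π (ds.getD i zeroV) + (getC2 cs i).b) :
    ∀ n x, ((lamS f cs n x : ℕ) : ℤ) = π (cmb ds n x) + ((lamS C2.b cs n x : ℕ) : ℤ)
  | 0, _ => by
    show ((0 : ℕ) : ℤ) = π zeroV + ((0 : ℕ) : ℤ)
    rw [h0]; rfl
  | n + 1, x => by
    rw [lamS_succ, lamS_succ]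
    push_cast
    rw [lamS_eq h0 hπ h n, h, cmb_succ, hπ]
    ring

theorem addMul_a0 (a : V6) (k : ℤ) (b : V6) : (addMul a k b).a0 = a.a0 + k * b.a0 := rfl
theorem addMul_a1 (a : V6) (k : ℤ) (b : V6) : (addMul a k b).a1 = a.a1 + k * b.a1 := rfl
theorem addMul_a2 (a : V6) (k : ℤ) (b : V6) : (addMul a k b).a2 = a.a2 + k * b.a2 := rfl
theorem addMul_a3 (a : V6) (k : ℤ) (b : V6) : (addMul a k b).a3 = a.a3 + k * b.a3 := rfl
theorem addMul_a4 (a : V6) (k : ℤ) (b : V6) : (addMul a k b).a4 = a.a4 + k * b.a4 := rfl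
theorem addMul_a5 (a : V6) (k : ℤ) (b : V6) : (addMul a k b).a5 = a.a5 + k * b.a5 := rfl

/-- all six coefficients of the combination -/
theorem lam6 {D2 : ℕ} {cs : List C2} {ds : List V6} (h : List.Forall₂ (C2Ok D2) cs ds) (n x : ℕ) :
    ((lamS C2.A0 cs n x : ℕ) : ℤ) = (cmb ds n x).a0 + ((lamS C2.b cs n x : ℕ) : ℤ) ∧
    ((lamS C2.A1 cs n x : ℕ) : ℤ) = (cmb ds n x).a1 + ((lamS C2.b cs n x : ℕ) : ℤ) ∧
    ((lamS C2.A2 cs n x : ℕ) : ℤ) = (cmb ds n x).a2 + ((lamS C2.b cs n x : ℕ) : ℤ) ∧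
    ((lamS C2.A3 cs n x : ℕ) : ℤ) = (cmb ds n x).a3 + ((lamS C2.b cs n x : ℕ) : ℤ) ∧
    ((lamS C2.A4 cs n x : ℕ) : ℤ) = (cmb ds n x).a4 + ((lamS C2.b cs n x : ℕ) : ℤ) ∧
    ((lamS C2.A5 cs n x : ℕ) : ℤ) = (cmb ds n x).a5 + ((lamS C2.b cs n x : ℕ) : ℤ) := by
  have hr := getC2_rel h
  exact ⟨lamS_eq (π := V6.a0) rfl addMul_a0 (fun i => (hr i).h0) n x,
    lamS_eq (π := V6.a1) rfl addMul_a1 (fun i => (hr i).h1) n x,
    lamS_eq (π := V6.a2) rfl addMul_a2 (fun i => (hr i).h2) n x,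
    lamS_eq (π := V6.a3) rfl addMul_a3 (fun i => (hr i).h3) n x,
    lamS_eq (π := V6.a4) rfl addMul_a4 (fun i => (hr i).h4) n x,
    lamS_eq (π := V6.a5) rfl addMul_a5 (fun i => (hr i).h5) n x⟩

theorem cmb_val {ds : List V6} {v : Fin 6 → ℝ} (h : ∀ c ∈ ds, 0 ≤ c.val v) :
    ∀ n x, 0 ≤ (cmb ds n x).val v
  | 0, _ => by
    show 0 ≤ zeroV.val v
    rw [zeroV_val]
  | n + 1, x => by
    rw [cmb_succ, addMul_val]
    have h1 := getD_val h (Nat.land x 63)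
    have h2 := cmb_val h n (Nat.shiftRight x 48)
    have h3 : (0 : ℝ) ≤ ((lv x : ℤ) : ℝ) := by push_cast; positivity
    have := mul_nonneg h3 h1
    linarith

theorem cmb_pos {ds : List V6} {v : Fin 6 → ℝ} (h : ∀ c ∈ ds, 0 ≤ c.val v)
    (h0 : 0 < (ds.getD 0 zeroV).val v) {n x : ℕ} (hn : 1 ≤ n) (hx : Nat.land x 63 = 0)
    (hl : 1 ≤ lv x) : 0 < (cmb ds n x).val v := by
  obtain ⟨n, rfl⟩ : ∃ k, n = k + 1 := ⟨n - 1, by omega⟩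
  rw [cmb_succ, addMul_val, hx]
  have h2 := cmb_val h n (Nat.shiftRight x 48)
  have h3 : (0 : ℝ) < ((lv x : ℤ) : ℝ) := by
    push_cast
    exact_mod_cast hl
  have := mul_pos h3 h0
  linarith

theorem term_le {A B l h : ℕ} {s : ℤ} {t : ℝ} (hs : (A : ℤ) = s + B) (h1 : (l : ℝ) ≤ t)
    (h2 : t ≤ h) : (s : ℝ) * t ≤ (((A - B) * h : ℕ) : ℝ) - (((B - A) * l : ℕ) : ℝ) := by
  have e : (s : ℝ) = ((A - B : ℕ) : ℝ) - ((B - A : ℕ) : ℝ) := by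
    have : s = ((A - B : ℕ) : ℤ) - ((B - A : ℕ) : ℤ) := by omega
    rw [this]; push_cast; ring
  rw [e]
  push_cast
  have p1 : (0 : ℝ) ≤ ((A - B : ℕ) : ℝ) := Nat.cast_nonneg _
  have p2 : (0 : ℝ) ≤ ((B - A : ℕ) : ℝ) := Nat.cast_nonneg _
  have := mul_le_mul_of_nonneg_left h2 p1
  have := mul_le_mul_of_nonneg_left h1 p2
  linarith

/-- the upper bound behind an empty leaf -/
theorem emptyT_le {s D : ℕ} {cs : List C2} {ds : List V6}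
    (hr : List.Forall₂ (C2Ok (2 * D)) cs ds) {n x : ℕ} {b : Box}
    (h : emptyT s D cs n x b.l0 b.h0 b.l1 b.h1 b.l2 b.h2 b.l3 b.h3 b.l4 b.h4 = true)
    {v : Fin 6 → ℝ} (h5 : v 5 = 1) (hb : b.Mem (2 * D) v) :
    (D : ℝ) * (cmb ds n x).val v ≤ -(s : ℝ) := by
  obtain ⟨e0, e1, e2, e3, e4, e5⟩ := lam6 hr n x
  set a := cmb ds n x with ha
  unfold emptyT at h
  rw [Nat.ble_eq] at h
  set B := lamS C2.b cs n x
  set A0 := lamS C2.A0 cs n x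
  set A1 := lamS C2.A1 cs n x
  set A2 := lamS C2.A2 cs n x
  set A3 := lamS C2.A3 cs n x
  set A4 := lamS C2.A4 cs n x
  set A5 := lamS C2.A5 cs n x
  have h' : s + (A0 - B) * b.h0 + (A1 - B) * b.h1 + (A2 - B) * b.h2 + (A3 - B) * b.h3 +
      (A4 - B) * b.h4 + (A5 - B) * D ≤ (B - A0) * b.l0 + (B - A1) * b.l1 + (B - A2) * b.l2 +
      (B - A3) * b.l3 + (B - A4) * b.l4 + (B - A5) * D := h
  have hR : (s : ℝ) + (((A0 - B) * b.h0 : ℕ) : ℝ) + (((A1 - B) * b.h1 : ℕ) : ℝ) +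
      (((A2 - B) * b.h2 : ℕ) : ℝ) + (((A3 - B) * b.h3 : ℕ) : ℝ) +
      (((A4 - B) * b.h4 : ℕ) : ℝ) + (((A5 - B) * D : ℕ) : ℝ) ≤ (((B - A0) * b.l0 : ℕ) : ℝ) +
      (((B - A1) * b.l1 : ℕ) : ℝ) + (((B - A2) * b.l2 : ℕ) : ℝ) +
      (((B - A3) * b.l3 : ℕ) : ℝ) + (((B - A4) * b.l4 : ℕ) : ℝ) + (((B - A5) * D : ℕ) : ℝ) := by
    exact_mod_cast h'
  have hD : ((2 * D : ℕ) : ℝ) = 2 * (D : ℝ) := by push_cast; ring
  have t0 := term_le e0 (t := D * v 0) (l := b.l0) (h := b.h0)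
    (by have := hb.l0; rw [hD] at this; linarith) (by have := hb.h0; rw [hD] at this; linarith)
  have t1 := term_le e1 (t := D * v 1) (l := b.l1) (h := b.h1)
    (by have := hb.l1; rw [hD] at this; linarith) (by have := hb.h1; rw [hD] at this; linarith)
  have t2 := term_le e2 (t := D * v 2) (l := b.l2) (h := b.h2)
    (by have := hb.l2; rw [hD] at this; linarith) (by have := hb.h2; rw [hD] at this; linarith)
  have t3 := term_le e3 (t := D * v 3) (l := b.l3) (h := b.h3)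
    (by have := hb.l3; rw [hD] at this; linarith) (by have := hb.h3; rw [hD] at this; linarith)
  have t4 := term_le e4 (t := D * v 4) (l := b.l4) (h := b.h4)
    (by have := hb.l4; rw [hD] at this; linarith) (by have := hb.h4; rw [hD] at this; linarith)
  have t5 := term_le e5 (t := (D : ℝ)) (l := D) (h := D) (le_refl _) (le_refl _)
  unfold V6.val
  rw [h5]
  have e : (D : ℝ) * ((a.a0 : ℝ) * v 0 + a.a1 * v 1 + a.a2 * v 2 + a.a3 * v 3 + a.a4 * v 4 +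
      a.a5 * 1) = a.a0 * (D * v 0) + a.a1 * (D * v 1) + a.a2 * (D * v 2) + a.a3 * (D * v 3) +
      a.a4 * (D * v 4) + a.a5 * D := by ring
  rw [e]
  linarith

end Pool.Agent.Helper5.B54
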