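import Pool.Agent.Helper5.B54v2.Cover0
import Pool.Agent.Helper5.B54.C.KCells
import Pool.Agent.Helper5.B54v2.T.CA00
import Pool.Agent.Helper5.B54v2.T.CA01
import Pool.Agent.Helper5.B54v2.T.CA02
import Pool.Agent.Helper5.B54v2.T.CA03
import Pool.Agent.Helper5.B54v2.T.CA04
import Pool.Agent.Helper5.B54v2.T.CA05
import Pool.Agent.Helper5.B54v2.T.CA06
import Pool.Agent.Helper5.B54v2.T.CA07
import Pool.Agent.Helper5.B54v2.T.CA08
import Pool.Agent.Helper5.B54v2.T.CB00
import Pool.Agent.Helper5.B54v2.T.CC00
import Pool.Agent.Helper5.B54v2.T.CD00

/-!
# The cells cover the region
-/

namespace Pool.Agent.Helper5.B54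

open Pool.Agent.Helper65.B54

theorem slab5520 : Cell2 16000 5520 5600 0 8000 :=
  (CellR2.splitG 3040
   c16000_5520_5600_0_3040
   (c16000_5520_5600_3040_5920.sub (by decide) (by decide) (by decide) (by decide)))

theorem slab5600 : Cell2 16000 5600 5760 0 8000 :=
  (CellR2.splitG 5440
   (CellR2.splitG 3040
    (c16000_5520_5920_0_3680.sub (by decide) (by decide) (by decide) (by decide))
    (CellR2.splitG 4480
     c16000_5600_5760_3040_4480
     (c16000_5520_5760_3680_5440.sub (by decide) (by decide) (by decide) (by decide))))
   (c16000_5520_5760_5440_7200.sub (by decide) (by decide) (by decide) (by decide)))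

theorem slab5760 : Cell2 16000 5760 5920 0 8000 :=
  (CellR2.splitG 5440
   (CellR2.splitG 3040
    (c16000_5520_5920_0_3680.sub (by decide) (by decide) (by decide) (by decide))
    (CellR2.splitG 4480
     c16000_5760_5920_3040_4480
     (c16000_5760_5920_3680_5440.sub (by decide) (by decide) (by decide) (by decide))))
   (CellR2.splitG 5600
    c16000_5760_5920_5440_5600
    (CellR2.splitG 5760
     c16000_5760_5920_5600_5760
     (c16000_5760_5920_5760_5920.sub (by decide) (by decide) (by decide) (by decide)))))

theorem slab5920 : Cell2 16000 5920 6080 0 8000 :=
  (CellR2.splitG 4640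
   (CellR2.splitG 3040
    c16000_5920_6080_0_3040
    c16000_5920_6080_3040_4640)
   (CellR2.splitG 5280
    (CellR2.splitG 5120
     c16000_5920_6080_4640_5120
     c16000_5920_6080_5120_5280)
    (CellR2.splitG 5600
     (CellR2.splitG 5440
      c16000_5920_6080_5280_5440
      c16000_5920_6080_5440_5600)
     (CellR2.splitG 5760
      c16000_5920_6080_5600_5760
      (CellR2.splitG 5920
       c16000_5920_6080_5760_5920
       (c16000_5920_6080_5920_6080.sub (by decide) (by decide) (by decide) (by decide)))))))

theorem slab6080 : Cell2 16000 6080 6240 0 8000 :=
  (CellR2.splitG 4640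
   (CellR2.splitG 3200
    (c16000_5920_6400_0_3680.sub (by decide) (by decide) (by decide) (by decide))
    (CellR2.splitG 4000
     c16000_6080_6240_3200_4000
     (c16000_6080_6240_3680_4640.sub (by decide) (by decide) (by decide) (by decide))))
   (CellR2.splitG 5440
    (CellR2.splitG 4960
     c16000_6080_6240_4640_4960
     (CellR2.splitG 5120
      c16000_6080_6240_4960_5120
      (CellR2.splitG 5280
       c16000_6080_6240_5120_5280
       c16000_6080_6240_5280_5440)))
    (CellR2.splitG 5760
     (CellR2.splitG 5600
      c16000_6080_6240_5440_5600
      c16000_6080_6240_5600_5760)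
     (CellR2.splitG 5920
      c16000_6080_6240_5760_5920
      (CellR2.splitG 6080
       c16000_6080_6240_5920_6080
       (c16000_6080_6240_6080_6240.sub (by decide) (by decide) (by decide) (by decide)))))))

theorem slab6240 : Cell2 16000 6240 6400 0 8000 :=
  (CellR2.splitG 4640
   (CellR2.splitG 3200
    (c16000_5920_6400_0_3680.sub (by decide) (by decide) (by decide) (by decide))
    (CellR2.splitG 4000
     c16000_6240_6400_3200_4000
     (c16000_6240_6400_3680_4640.sub (by decide) (by decide) (by decide) (by decide))))
   (CellR2.splitG 5440
    (CellR2.splitG 4960
     (CellR2.splitG 4800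
      c16000_6240_6400_4640_4800
      c16000_6240_6400_4800_4960)
     (CellR2.splitG 5120
      c16000_6240_6400_4960_5120
      (CellR2.splitG 5280
       c16000_6240_6400_5120_5280
       c16000_6240_6400_5280_5440)))
    (CellR2.splitG 5920
     (CellR2.splitG 5600
      c16000_6240_6400_5440_5600
      (CellR2.splitG 5760
       c16000_6240_6400_5600_5760
       c16000_6240_6400_5760_5920))
     (CellR2.splitG 6080
      c16000_6240_6400_5920_6080
      (CellR2.splitG 6240
       c16000_6240_6400_6080_6240
       (CellR2.splitA 6320
        (c16000_6240_6320_6240_6320.sub (by decide) (by decide) (by decide) (by decide))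
        (CellR2.splitG 6320
         c16000_6320_6400_6240_6320
         (c16000_6320_6400_6320_6400.sub (by decide) (by decide) (by decide) (by decide)))))))))

theorem slab6400 : Cell2 16000 6400 6560 0 8000 :=
  (CellR2.splitG 4000
   (c16000_6400_7200_0_4000.sub (by decide) (by decide) (by decide) (by decide))
   (CellR2.splitG 5280
    (CellR2.splitG 4640
     c16000_6400_6560_4000_4640
     (CellR2.splitG 4960
      (CellR2.splitG 4800
       c16000_6400_6560_4640_4800
       c16000_6400_6560_4800_4960)
      (CellR2.splitG 5120
       c16000_6400_6560_4960_5120
       c16000_6400_6560_5120_5280)))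
    (CellR2.splitG 5920
     (CellR2.splitG 5600
      (CellR2.splitG 5440
       c16000_6400_6560_5280_5440
       c16000_6400_6560_5440_5600)
      (CellR2.splitG 5760
       c16000_6400_6560_5600_5760
       c16000_6400_6560_5760_5920))
     (CellR2.splitG 6240
      (CellR2.splitG 6080
       c16000_6400_6560_5920_6080
       c16000_6400_6560_6080_6240)
      (CellR2.splitG 6400
       (CellR2.splitA 6480
        (CellR2.splitG 6320
         c16000_6400_6480_6240_6320
         c16000_6400_6480_6320_6400)
        (CellR2.splitG 6320
         c16000_6480_6560_6240_6320
         c16000_6480_6560_6320_6400))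
       (c16000_6400_6560_6400_6560.sub (by decide) (by decide) (by decide) (by decide)))))))

theorem slab6560 : Cell2 16000 6560 6720 0 8000 :=
  (CellR2.splitG 4000
   (c16000_6400_7200_0_4000.sub (by decide) (by decide) (by decide) (by decide))
   (CellR2.splitG 5280
    (CellR2.splitG 4640
     c16000_6560_6720_4000_4640
     (CellR2.splitG 4960
      (CellR2.splitG 4800
       c16000_6560_6720_4640_4800
       c16000_6560_6720_4800_4960)
      (CellR2.splitG 5120
       c16000_6560_6720_4960_5120
       c16000_6560_6720_5120_5280)))
    (CellR2.splitG 6000
     (CellR2.splitG 5600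
      (CellR2.splitG 5440
       c16000_6560_6720_5280_5440
       c16000_6560_6720_5440_5600)
      (CellR2.splitG 5760
       c16000_6560_6720_5600_5760
       (CellR2.splitG 5920
        c16000_6560_6720_5760_5920
        (CellR2.splitA 6640
         c16000_6560_6640_5920_6000
         c16000_6640_6720_5920_6000))))
     (CellR2.splitG 6320
      (CellR2.splitA 6640
       (CellR2.splitG 6160
        (CellR2.splitG 6080
         c16000_6560_6640_6000_6080
         c16000_6560_6640_6080_6160)
        (CellR2.splitG 6240
         c16000_6560_6640_6160_6240
         c16000_6560_6640_6240_6320))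
       (CellR2.splitG 6160
        (CellR2.splitG 6080
         c16000_6640_6720_6000_6080
         c16000_6640_6720_6080_6160)
        (CellR2.splitG 6240
         c16000_6640_6720_6160_6240
         c16000_6640_6720_6240_6320)))
      (CellR2.splitG 6480
       (CellR2.splitA 6640
        (CellR2.splitG 6400
         c16000_6560_6640_6320_6400
         c16000_6560_6640_6400_6480)
        (CellR2.splitG 6400
         c16000_6640_6720_6320_6400
         c16000_6640_6720_6400_6480))
       (CellR2.splitG 6560
        (CellR2.splitA 6640
         c16000_6560_6640_6480_6560
         c16000_6640_6720_6480_6560)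
        (c16000_6560_6720_6560_6720.sub (by decide) (by decide) (by decide) (by decide))))))))

theorem slab6720 : Cell2 16000 6720 6880 0 8000 :=
  (CellR2.splitG 4000
   (c16000_6400_7200_0_4000.sub (by decide) (by decide) (by decide) (by decide))
   (CellR2.splitG 5440
    (CellR2.splitG 4640
     c16000_6720_6880_4000_4640
     (CellR2.splitG 4960
      (CellR2.splitG 4800
       c16000_6720_6880_4640_4800
       c16000_6720_6880_4800_4960)
      (CellR2.splitG 5120
       c16000_6720_6880_4960_5120
       (CellR2.splitG 5280
        c16000_6720_6880_5120_5280
        c16000_6720_6880_5280_5440))))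
    (CellR2.splitG 6160
     (CellR2.splitG 5760
      (CellR2.splitG 5600
       c16000_6720_6880_5440_5600
       c16000_6720_6880_5600_5760)
      (CellR2.splitG 5920
       c16000_6720_6880_5760_5920
       (CellR2.splitA 6800
        (CellR2.splitG 6000
         c16000_6720_6800_5920_6000
         (CellR2.splitG 6080
          c16000_6720_6800_6000_6080
          c16000_6720_6800_6080_6160))
        (CellR2.splitG 6000
         c16000_6800_6880_5920_6000
         (CellR2.splitG 6080
          c16000_6800_6880_6000_6080
          c16000_6800_6880_6080_6160)))))
     (CellR2.splitA 6800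
      (CellR2.splitG 6480
       (CellR2.splitG 6320
        (CellR2.splitG 6240
         c16000_6720_6800_6160_6240
         c16000_6720_6800_6240_6320)
        (CellR2.splitG 6400
         c16000_6720_6800_6320_6400
         c16000_6720_6800_6400_6480))
       (CellR2.splitG 6640
        (CellR2.splitG 6560
         c16000_6720_6800_6480_6560
         c16000_6720_6800_6560_6640)
        (CellR2.splitG 6720
         c16000_6720_6800_6640_6720
         (c16000_6720_6800_6720_6800.sub (by decide) (by decide) (by decide) (by decide)))))
      (CellR2.splitG 6480
       (CellR2.splitG 6320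
        (CellR2.splitG 6240
         c16000_6800_6880_6160_6240
         c16000_6800_6880_6240_6320)
        (CellR2.splitG 6400
         c16000_6800_6880_6320_6400
         c16000_6800_6880_6400_6480))
       (CellR2.splitG 6640
        (CellR2.splitG 6560
         c16000_6800_6880_6480_6560
         c16000_6800_6880_6560_6640)
        (CellR2.splitG 6720
         c16000_6800_6880_6640_6720
         (CellR2.splitG 6800
          c16000_6800_6880_6720_6800
          (c16000_6800_6880_6800_6880.sub (by decide) (by decide) (by decide) (by decide))))))))))

theorem slab6880 : Cell2 16000 6880 7040 0 8000 :=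
  (CellR2.splitG 4000
   (c16000_6400_7200_0_4000.sub (by decide) (by decide) (by decide) (by decide))
   (CellR2.splitG 5440
    (CellR2.splitG 4640
     c16000_6880_7040_4000_4640
     (CellR2.splitG 4960
      (CellR2.splitG 4800
       c16000_6880_7040_4640_4800
       c16000_6880_7040_4800_4960)
      (CellR2.splitG 5120
       c16000_6880_7040_4960_5120
       (CellR2.splitG 5280
        c16000_6880_7040_5120_5280
        c16000_6880_7040_5280_5440))))
    (CellR2.splitG 6240
     (CellR2.splitG 5760
      (CellR2.splitG 5600
       c16000_6880_7040_5440_5600
       c16000_6880_7040_5600_5760)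
      (CellR2.splitG 6000
       (CellR2.splitG 5920
        c16000_6880_7040_5760_5920
        (CellR2.splitA 6960
         c16000_6880_6960_5920_6000
         c16000_6960_7040_5920_6000))
       (CellR2.splitA 6960
        (CellR2.splitG 6080
         c16000_6880_6960_6000_6080
         (CellR2.splitG 6160
          c16000_6880_6960_6080_6160
          c16000_6880_6960_6160_6240))
        (CellR2.splitG 6080
         c16000_6960_7040_6000_6080
         (CellR2.splitG 6160
          c16000_6960_7040_6080_6160
          c16000_6960_7040_6160_6240)))))
     (CellR2.splitG 6640
      (CellR2.splitA 6960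
       (CellR2.splitG 6400
        (CellR2.splitG 6320
         c16000_6880_6960_6240_6320
         c16000_6880_6960_6320_6400)
        (CellR2.splitG 6480
         c16000_6880_6960_6400_6480
         (CellR2.splitG 6560
          c16000_6880_6960_6480_6560
          c16000_6880_6960_6560_6640)))
       (CellR2.splitG 6400
        (CellR2.splitG 6320
         c16000_6960_7040_6240_6320
         c16000_6960_7040_6320_6400)
        (CellR2.splitG 6480
         c16000_6960_7040_6400_6480
         (CellR2.splitG 6560
          c16000_6960_7040_6480_6560
          (CellR2.splitA 7000
           (CellR2.splitG 6600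
            c16000_6960_7000_6560_6600
            c16000_6960_7000_6600_6640)
           (CellR2.splitG 6600
            c16000_7000_7040_6560_6600
            c16000_7000_7040_6600_6640))))))
      (CellR2.splitG 6800
       (CellR2.splitA 6960
        (CellR2.splitG 6720
         c16000_6880_6960_6640_6720
         c16000_6880_6960_6720_6800)
        (CellR2.splitG 6720
         (CellR2.splitA 7000
          (CellR2.splitG 6680
           c16000_6960_7000_6640_6680
           c16000_6960_7000_6680_6720)
          (CellR2.splitG 6680
           c16000_7000_7040_6640_6680
           c16000_7000_7040_6680_6720))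
         c16000_6960_7040_6720_6800))
       (CellR2.splitG 6880
        (CellR2.splitA 6960
         c16000_6880_6960_6800_6880
         c16000_6960_7040_6800_6880)
        (c16000_6880_7040_6880_7040.sub (by decide) (by decide) (by decide) (by decide))))))))

theorem slab7040 : Cell2 16000 7040 7200 0 8000 :=
  (CellR2.splitG 4000
   (c16000_6400_7200_0_4000.sub (by decide) (by decide) (by decide) (by decide))
   (CellR2.splitG 5600
    (CellR2.splitG 4800
     (CellR2.splitG 4640
      c16000_7040_7200_4000_4640
      c16000_7040_7200_4640_4800)
     (CellR2.splitG 5120
      (CellR2.splitG 4960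
       c16000_7040_7200_4800_4960
       c16000_7040_7200_4960_5120)
      (CellR2.splitG 5280
       c16000_7040_7200_5120_5280
       (CellR2.splitG 5440
        c16000_7040_7200_5280_5440
        c16000_7040_7200_5440_5600))))
    (CellR2.splitG 6400
     (CellR2.splitG 6000
      (CellR2.splitG 5760
       c16000_7040_7200_5600_5760
       (CellR2.splitG 5920
        c16000_7040_7200_5760_5920
        (CellR2.splitA 7120
         c16000_7040_7120_5920_6000
         c16000_7120_7200_5920_6000)))
      (CellR2.splitA 7120
       (CellR2.splitG 6200
        (CellR2.splitG 6080
         c16000_7040_7120_6000_6080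
         (CellR2.splitG 6160
          c16000_7040_7120_6080_6160
          (CellR2.splitA 7080
           c16000_7040_7080_6160_6200
           c16000_7080_7120_6160_6200)))
        (CellR2.splitG 6320
         (CellR2.splitG 6240
          (CellR2.splitA 7080
           c16000_7040_7080_6200_6240
           c16000_7080_7120_6200_6240)
          c16000_7040_7120_6240_6320)
         c16000_7040_7120_6320_6400))
       (CellR2.splitG 6160
        (CellR2.splitG 6080
         c16000_7120_7200_6000_6080
         c16000_7120_7200_6080_6160)
        (CellR2.splitG 6280
         (CellR2.splitG 6240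
          c16000_7120_7200_6160_6240
          (CellR2.splitA 7160
           c16000_7120_7160_6240_6280
           c16000_7160_7200_6240_6280))
         (CellR2.splitA 7160
          (CellR2.splitG 6320
           c16000_7120_7160_6280_6320
           (CellR2.splitG 6360
            c16000_7120_7160_6320_6360
            c16000_7120_7160_6360_6400))
          (CellR2.splitG 6320
           c16000_7160_7200_6280_6320
           (CellR2.splitG 6360
            c16000_7160_7200_6320_6360
            c16000_7160_7200_6360_6400)))))))
     (CellR2.splitG 6800
      (CellR2.splitA 7120
       (CellR2.splitG 6560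
        (CellR2.splitG 6480
         c16000_7040_7120_6400_6480
         c16000_7040_7120_6480_6560)
        (CellR2.splitG 6640
         c16000_7040_7120_6560_6640
         (CellR2.splitG 6720
          c16000_7040_7120_6640_6720
          c16000_7040_7120_6720_6800)))
       (CellR2.splitG 6600
        (CellR2.splitA 7160
         (CellR2.splitG 6480
          (CellR2.splitG 6440
           c16000_7120_7160_6400_6440
           c16000_7120_7160_6440_6480)
          (CellR2.splitG 6520
           c16000_7120_7160_6480_6520
           (CellR2.splitG 6560
            c16000_7120_7160_6520_6560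
            c16000_7120_7160_6560_6600)))
         (CellR2.splitG 6480
          (CellR2.splitG 6440
           c16000_7160_7200_6400_6440
           c16000_7160_7200_6440_6480)
          (CellR2.splitG 6520
           c16000_7160_7200_6480_6520
           (CellR2.splitG 6560
            c16000_7160_7200_6520_6560
            c16000_7160_7200_6560_6600))))
        (CellR2.splitG 6720
         (CellR2.splitG 6640
          (CellR2.splitA 7160
           c16000_7120_7160_6600_6640
           c16000_7160_7200_6600_6640)
          c16000_7120_7200_6640_6720)
         (CellR2.splitA 7160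
          (CellR2.splitG 6760
           c16000_7120_7160_6720_6760
           c16000_7120_7160_6760_6800)
          (CellR2.splitG 6760
           c16000_7160_7200_6720_6760
           c16000_7160_7200_6760_6800)))))
      (CellR2.splitG 6960
       (CellR2.splitA 7120
        (CellR2.splitG 6880
         c16000_7040_7120_6800_6880
         c16000_7040_7120_6880_6960)
        (CellR2.splitG 6880
         c16000_7120_7200_6800_6880
         c16000_7120_7200_6880_6960))
       (CellR2.splitG 7040
        (CellR2.splitA 7120
         c16000_7040_7120_6960_7040
         c16000_7120_7200_6960_7040)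
        (c16000_7040_7200_7040_7200.sub (by decide) (by decide) (by decide) (by decide))))))))

theorem slab7200 : Cell2 16000 7200 7360 0 8000 :=
  (CellR2.splitG 4000
   (c16000_7200_8000_0_4000.sub (by decide) (by decide) (by decide) (by decide))
   (CellR2.splitG 5600
    (CellR2.splitG 4800
     (CellR2.splitG 4640
      c16000_7200_7360_4000_4640
      c16000_7200_7360_4640_4800)
     (CellR2.splitG 5120
      (CellR2.splitG 4960
       c16000_7200_7360_4800_4960
       c16000_7200_7360_4960_5120)
      (CellR2.splitG 5280
       c16000_7200_7360_5120_5280
       (CellR2.splitG 5440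
        c16000_7200_7360_5280_5440
        c16000_7200_7360_5440_5600))))
    (CellR2.splitG 6480
     (CellR2.splitG 6000
      (CellR2.splitG 5760
       c16000_7200_7360_5600_5760
       (CellR2.splitG 5920
        c16000_7200_7360_5760_5920
        (CellR2.splitA 7280
         c16000_7200_7280_5920_6000
         c16000_7280_7360_5920_6000)))
      (CellR2.splitA 7280
       (CellR2.splitG 6240
        (CellR2.splitG 6080
         c16000_7200_7280_6000_6080
         (CellR2.splitG 6160
          c16000_7200_7280_6080_6160
          c16000_7200_7280_6160_6240))
        (CellR2.splitG 6320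
         (CellR2.splitA 7240
          (CellR2.splitG 6280
           c16000_7200_7240_6240_6280
           c16000_7200_7240_6280_6320)
          (CellR2.splitG 6280
           c16000_7240_7280_6240_6280
           c16000_7240_7280_6280_6320))
         (CellR2.splitG 6400
          c16000_7200_7280_6320_6400
          (CellR2.splitA 7240
           (CellR2.splitG 6440
            c16000_7200_7240_6400_6440
            c16000_7200_7240_6440_6480)
           (CellR2.splitG 6440
            c16000_7240_7280_6400_6440
            c16000_7240_7280_6440_6480)))))
       (CellR2.splitG 6240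
        (CellR2.splitG 6080
         c16000_7280_7360_6000_6080
         (CellR2.splitG 6160
          c16000_7280_7360_6080_6160
          c16000_7280_7360_6160_6240))
        (CellR2.splitG 6320
         c16000_7280_7360_6240_6320
         (CellR2.splitG 6400
          c16000_7280_7360_6320_6400
          c16000_7280_7360_6400_6480)))))
     (CellR2.splitG 6880
      (CellR2.splitA 7280
       (CellR2.splitG 6640
        (CellR2.splitG 6560
         c16000_7200_7280_6480_6560
         c16000_7200_7280_6560_6640)
        (CellR2.splitG 6760
         (CellR2.splitG 6720
          c16000_7200_7280_6640_6720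
          (CellR2.splitA 7240
           c16000_7200_7240_6720_6760
           c16000_7240_7280_6720_6760))
         (CellR2.splitG 6800
          (CellR2.splitA 7240
           c16000_7200_7240_6760_6800
           c16000_7240_7280_6760_6800)
          c16000_7200_7280_6800_6880)))
       (CellR2.splitG 6640
        (CellR2.splitG 6560
         c16000_7280_7360_6480_6560
         (CellR2.splitA 7320
          (CellR2.splitG 6600
           c16000_7280_7320_6560_6600
           c16000_7280_7320_6600_6640)
          (CellR2.splitG 6600
           c16000_7320_7360_6560_6600
           c16000_7320_7360_6600_6640)))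
        (CellR2.splitG 6760
         (CellR2.splitG 6720
          c16000_7280_7360_6640_6720
          (CellR2.splitA 7320
           c16000_7280_7320_6720_6760
           c16000_7320_7360_6720_6760))
         (CellR2.splitA 7320
          (CellR2.splitG 6800
           c16000_7280_7320_6760_6800
           (CellR2.splitG 6840
            c16000_7280_7320_6800_6840
            c16000_7280_7320_6840_6880))
          (CellR2.splitG 6800
           c16000_7320_7360_6760_6800
           (CellR2.splitG 6840
            c16000_7320_7360_6800_6840
            c16000_7320_7360_6840_6880))))))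
      (CellR2.splitG 7120
       (CellR2.splitA 7280
        (CellR2.splitG 6960
         c16000_7200_7280_6880_6960
         (CellR2.splitG 7040
          c16000_7200_7280_6960_7040
          c16000_7200_7280_7040_7120))
        (CellR2.splitG 6960
         c16000_7280_7360_6880_6960
         (CellR2.splitG 7040
          c16000_7280_7360_6960_7040
          c16000_7280_7360_7040_7120)))
       (CellR2.splitG 7200
        (CellR2.splitA 7280
         c16000_7200_7280_7120_7200
         c16000_7280_7360_7120_7200)
        (c16000_7200_7360_7200_7360.sub (by decide) (by decide) (by decide) (by decide))))))))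

theorem slab7360 : Cell2 16000 7360 7520 0 8000 :=
  (CellR2.splitG 4000
   (c16000_7200_8000_0_4000.sub (by decide) (by decide) (by decide) (by decide))
   (CellR2.splitG 5760
    (CellR2.splitG 4960
     (CellR2.splitG 4640
      c16000_7360_7520_4000_4640
      c16000_7360_7520_4640_4960)
     (CellR2.splitG 5280
      (CellR2.splitG 5120
       c16000_7360_7520_4960_5120
       c16000_7360_7520_5120_5280)
      (CellR2.splitG 5440
       c16000_7360_7520_5280_5440
       (CellR2.splitG 5600
        c16000_7360_7520_5440_5600
        c16000_7360_7520_5600_5760))))
    (CellR2.splitG 6640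
     (CellR2.splitG 6160
      (CellR2.splitG 5920
       c16000_7360_7520_5760_5920
       (CellR2.splitA 7440
        (CellR2.splitG 6000
         c16000_7360_7440_5920_6000
         (CellR2.splitG 6080
          c16000_7360_7440_6000_6080
          c16000_7360_7440_6080_6160))
        (CellR2.splitG 6000
         c16000_7440_7520_5920_6000
         (CellR2.splitG 6080
          c16000_7440_7520_6000_6080
          c16000_7440_7520_6080_6160))))
      (CellR2.splitA 7440
       (CellR2.splitG 6400
        (CellR2.splitG 6240
         (CellR2.splitA 7400
          (CellR2.splitG 6200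
           c16000_7360_7400_6160_6200
           c16000_7360_7400_6200_6240)
          (CellR2.splitG 6200
           c16000_7400_7440_6160_6200
           c16000_7400_7440_6200_6240))
         (CellR2.splitG 6320
          c16000_7360_7440_6240_6320
          (CellR2.splitA 7400
           (CellR2.splitG 6360
            c16000_7360_7400_6320_6360
            c16000_7360_7400_6360_6400)
           (CellR2.splitG 6360
            c16000_7400_7440_6320_6360
            c16000_7400_7440_6360_6400))))
        (CellR2.splitG 6480
         (CellR2.splitA 7400
          (CellR2.splitG 6440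
           c16000_7360_7400_6400_6440
           c16000_7360_7400_6440_6480)
          (CellR2.splitG 6440
           c16000_7400_7440_6400_6440
           c16000_7400_7440_6440_6480))
         (CellR2.splitG 6560
          c16000_7360_7440_6480_6560
          (CellR2.splitA 7400
           (CellR2.splitG 6600
            c16000_7360_7400_6560_6600
            c16000_7360_7400_6600_6640)
           (CellR2.splitG 6600
            c16000_7400_7440_6560_6600
            c16000_7400_7440_6600_6640)))))
       (CellR2.splitG 6400
        (CellR2.splitG 6240
         c16000_7440_7520_6160_6240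
         (CellR2.splitG 6320
          c16000_7440_7520_6240_6320
          c16000_7440_7520_6320_6400))
        (CellR2.splitG 6480
         (CellR2.splitA 7480
          (CellR2.splitG 6440
           c16000_7440_7480_6400_6440
           c16000_7440_7480_6440_6480)
          (CellR2.splitG 6440
           c16000_7480_7520_6400_6440
           c16000_7480_7520_6440_6480))
         (CellR2.splitG 6560
          c16000_7440_7520_6480_6560
          c16000_7440_7520_6560_6640)))))
     (CellR2.splitG 7040
      (CellR2.splitA 7440
       (CellR2.splitG 6800
        (CellR2.splitG 6720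
         (CellR2.splitA 7400
          (CellR2.splitG 6680
           c16000_7360_7400_6640_6680
           c16000_7360_7400_6680_6720)
          (CellR2.splitG 6680
           c16000_7400_7440_6640_6680
           c16000_7400_7440_6680_6720))
         c16000_7360_7440_6720_6800)
        (CellR2.splitG 6880
         c16000_7360_7440_6800_6880
         (CellR2.splitG 6960
          c16000_7360_7440_6880_6960
          c16000_7360_7440_6960_7040)))
       (CellR2.splitG 6800
        (CellR2.splitG 6720
         c16000_7440_7520_6640_6720
         (CellR2.splitA 7480
          (CellR2.splitG 6760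
           c16000_7440_7480_6720_6760
           c16000_7440_7480_6760_6800)
          (CellR2.splitG 6760
           c16000_7480_7520_6720_6760
           c16000_7480_7520_6760_6800)))
        (CellR2.splitG 6880
         c16000_7440_7520_6800_6880
         (CellR2.splitG 6960
          c16000_7440_7520_6880_6960
          c16000_7440_7520_6960_7040))))
      (CellR2.splitG 7200
       (CellR2.splitA 7440
        (CellR2.splitG 7120
         c16000_7360_7440_7040_7120
         c16000_7360_7440_7120_7200)
        (CellR2.splitG 7120
         c16000_7440_7520_7040_7120
         c16000_7440_7520_7120_7200))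
       (CellR2.splitG 7360
        c16000_7360_7520_7200_7360
        (c16000_7360_7520_7360_7520.sub (by decide) (by decide) (by decide) (by decide))))))))

theorem slab7520 : Cell2 16000 7520 7680 0 8000 :=
  (CellR2.splitG 4000
   (c16000_7200_8000_0_4000.sub (by decide) (by decide) (by decide) (by decide))
   (CellR2.splitG 5760
    (CellR2.splitG 4960
     (CellR2.splitG 4640
      c16000_7520_7680_4000_4640
      c16000_7520_7680_4640_4960)
     (CellR2.splitG 5280
      (CellR2.splitG 5120
       c16000_7520_7680_4960_5120
       c16000_7520_7680_5120_5280)
      (CellR2.splitG 5440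
       c16000_7520_7680_5280_5440
       (CellR2.splitG 5600
        c16000_7520_7680_5440_5600
        c16000_7520_7680_5600_5760))))
    (CellR2.splitG 6720
     (CellR2.splitG 6240
      (CellR2.splitG 5920
       c16000_7520_7680_5760_5920
       (CellR2.splitG 6080
        c16000_7520_7680_5920_6080
        (CellR2.splitA 7600
         (CellR2.splitG 6160
          c16000_7520_7600_6080_6160
          c16000_7520_7600_6160_6240)
         (CellR2.splitG 6160
          c16000_7600_7680_6080_6160
          c16000_7600_7680_6160_6240))))
      (CellR2.splitA 7600
       (CellR2.splitG 6480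
        (CellR2.splitG 6320
         c16000_7520_7600_6240_6320
         (CellR2.splitG 6400
          c16000_7520_7600_6320_6400
          c16000_7520_7600_6400_6480))
        (CellR2.splitG 6560
         c16000_7520_7600_6480_6560
         (CellR2.splitG 6640
          c16000_7520_7600_6560_6640
          c16000_7520_7600_6640_6720)))
       (CellR2.splitG 6480
        (CellR2.splitG 6320
         c16000_7600_7680_6240_6320
         (CellR2.splitG 6400
          c16000_7600_7680_6320_6400
          c16000_7600_7680_6400_6480))
        (CellR2.splitG 6560
         c16000_7600_7680_6480_6560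
         (CellR2.splitG 6640
          c16000_7600_7680_6560_6640
          c16000_7600_7680_6640_6720)))))
     (CellR2.splitG 7200
      (CellR2.splitG 6880
       (CellR2.splitA 7600
        (CellR2.splitG 6800
         c16000_7520_7600_6720_6800
         c16000_7520_7600_6800_6880)
        (CellR2.splitG 6800
         c16000_7600_7680_6720_6800
         c16000_7600_7680_6800_6880))
       (CellR2.splitG 7040
        c16000_7520_7680_6880_7040
        c16000_7520_7680_7040_7200))
      (CellR2.splitG 7360
       c16000_7520_7680_7200_7360
       (CellR2.splitG 7520
        c16000_7520_7680_7360_7520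
        c16000_7520_7680_7520_8000))))))

theorem slab7680 : Cell2 16000 7680 7840 0 8000 :=
  (CellR2.splitG 4000
   (c16000_7200_8000_0_4000.sub (by decide) (by decide) (by decide) (by decide))
   (CellR2.splitG 5920
    (CellR2.splitG 4960
     (CellR2.splitG 4640
      c16000_7680_7840_4000_4640
      c16000_7680_7840_4640_4960)
     (CellR2.splitG 5440
      (CellR2.splitG 5120
       c16000_7680_7840_4960_5120
       (CellR2.splitG 5280
        c16000_7680_7840_5120_5280
        c16000_7680_7840_5280_5440))
      (CellR2.splitG 5600
       c16000_7680_7840_5440_5600
       (CellR2.splitG 5760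
        c16000_7680_7840_5600_5760
        c16000_7680_7840_5760_5920))))
    (CellR2.splitG 6880
     (CellR2.splitG 6400
      (CellR2.splitG 6080
       c16000_7680_7840_5920_6080
       (CellR2.splitG 6240
        c16000_7680_7840_6080_6240
        (CellR2.splitA 7760
         (CellR2.splitG 6320
          c16000_7680_7760_6240_6320
          c16000_7680_7760_6320_6400)
         (CellR2.splitG 6320
          c16000_7760_7840_6240_6320
          c16000_7760_7840_6320_6400))))
      (CellR2.splitG 6560
       c16000_7680_7840_6400_6560
       (CellR2.splitG 6720
        c16000_7680_7840_6560_6720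
        c16000_7680_7840_6720_6880)))
     (CellR2.splitG 7200
      (CellR2.splitG 7040
       c16000_7680_7840_6880_7040
       c16000_7680_7840_7040_7200)
      (CellR2.splitG 7520
       c16000_7680_7840_7200_7520
       c16000_7680_7840_7520_8000)))))

theorem slab7840 : Cell2 16000 7840 8000 0 8000 :=
  (CellR2.splitG 4000
   (c16000_7200_8000_0_4000.sub (by decide) (by decide) (by decide) (by decide))
   (CellR2.splitG 5920
    (CellR2.splitG 5120
     c16000_7840_8000_4000_5120
     (CellR2.splitG 5440
      (CellR2.splitG 5280
       c16000_7840_8000_5120_5280
       c16000_7840_8000_5280_5440)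
      (CellR2.splitG 5600
       c16000_7840_8000_5440_5600
       (CellR2.splitG 5760
        c16000_7840_8000_5600_5760
        c16000_7840_8000_5760_5920))))
    (CellR2.splitG 6880
     (CellR2.splitG 6400
      (CellR2.splitG 6080
       c16000_7840_8000_5920_6080
       (CellR2.splitG 6240
        c16000_7840_8000_6080_6240
        c16000_7840_8000_6240_6400))
      (CellR2.splitG 6560
       c16000_7840_8000_6400_6560
       (CellR2.splitG 6720
        c16000_7840_8000_6560_6720
        c16000_7840_8000_6720_6880)))
     (CellR2.splitG 7520
      (CellR2.splitG 7200
       (CellR2.splitG 7040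
        c16000_7840_8000_6880_7040
        c16000_7840_8000_7040_7200)
       c16000_7840_8000_7200_7520)
      c16000_7840_8000_7520_8000))))

theorem slab8000 : Cell2 16000 8000 8160 0 8000 :=
  (CellR2.splitG 4000
   (c16000_8000_8480_0_4000.sub (by decide) (by decide) (by decide) (by decide))
   (CellR2.splitG 5920
    (CellR2.splitG 4960
     (CellR2.splitG 4640
      c16000_8000_8160_4000_4640
      (CellR2.splitG 4800
       c16000_8000_8160_4640_4800
       c16000_8000_8160_4800_4960))
     (CellR2.splitG 5440
      (CellR2.splitG 5120
       c16000_8000_8160_4960_5120
       (CellR2.splitG 5280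
        c16000_8000_8160_5120_5280
        c16000_8000_8160_5280_5440))
      (CellR2.splitG 5600
       c16000_8000_8160_5440_5600
       (CellR2.splitG 5760
        c16000_8000_8160_5600_5760
        c16000_8000_8160_5760_5920))))
    (CellR2.splitG 6880
     (CellR2.splitG 6400
      (CellR2.splitG 6080
       c16000_8000_8160_5920_6080
       (CellR2.splitG 6240
        c16000_8000_8160_6080_6240
        c16000_8000_8160_6240_6400))
      (CellR2.splitG 6560
       c16000_8000_8160_6400_6560
       (CellR2.splitG 6720
        c16000_8000_8160_6560_6720
        c16000_8000_8160_6720_6880)))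
     (CellR2.splitG 7360
      (CellR2.splitG 7040
       c16000_8000_8160_6880_7040
       (CellR2.splitG 7200
        c16000_8000_8160_7040_7200
        c16000_8000_8160_7200_7360))
      (CellR2.splitG 7520
       c16000_8000_8160_7360_7520
       c16000_8000_8160_7520_8000)))))

theorem slab8160 : Cell2 16000 8160 8320 0 8000 :=
  (CellR2.splitG 4000
   (c16000_8000_8480_0_4000.sub (by decide) (by decide) (by decide) (by decide))
   (CellR2.splitG 5920
    (CellR2.splitG 4960
     (CellR2.splitG 4640
      c16000_8160_8320_4000_4640
      c16000_8160_8320_4640_4960)
     (CellR2.splitG 5440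
      (CellR2.splitG 5120
       c16000_8160_8320_4960_5120
       (CellR2.splitG 5280
        c16000_8160_8320_5120_5280
        c16000_8160_8320_5280_5440))
      (CellR2.splitG 5600
       c16000_8160_8320_5440_5600
       (CellR2.splitG 5760
        c16000_8160_8320_5600_5760
        c16000_8160_8320_5760_5920))))
    (CellR2.splitG 6880
     (CellR2.splitG 6400
      (CellR2.splitG 6080
       c16000_8160_8320_5920_6080
       (CellR2.splitG 6240
        c16000_8160_8320_6080_6240
        c16000_8160_8320_6240_6400))
      (CellR2.splitG 6560
       c16000_8160_8320_6400_6560
       (CellR2.splitG 6720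
        c16000_8160_8320_6560_6720
        c16000_8160_8320_6720_6880)))
     (CellR2.splitG 7360
      (CellR2.splitG 7040
       c16000_8160_8320_6880_7040
       (CellR2.splitG 7200
        c16000_8160_8320_7040_7200
        c16000_8160_8320_7200_7360))
      (CellR2.splitG 7520
       c16000_8160_8320_7360_7520
       c16000_8160_8320_7520_8000)))))

theorem slab8320 : Cell2 16000 8320 8480 0 8000 :=
  (CellR2.splitG 4000
   (c16000_8000_8480_0_4000.sub (by decide) (by decide) (by decide) (by decide))
   (CellR2.splitG 5760
    (CellR2.splitG 4960
     (CellR2.splitG 4640
      c16000_8320_8480_4000_4640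
      c16000_8320_8480_4640_4960)
     (CellR2.splitG 5280
      (CellR2.splitG 5120
       c16000_8320_8480_4960_5120
       c16000_8320_8480_5120_5280)
      (CellR2.splitG 5440
       c16000_8320_8480_5280_5440
       (CellR2.splitG 5600
        c16000_8320_8480_5440_5600
        c16000_8320_8480_5600_5760))))
    (CellR2.splitG 6720
     (CellR2.splitG 6240
      (CellR2.splitG 5920
       c16000_8320_8480_5760_5920
       (CellR2.splitG 6080
        c16000_8320_8480_5920_6080
        c16000_8320_8480_6080_6240))
      (CellR2.splitG 6400
       c16000_8320_8480_6240_6400
       (CellR2.splitG 6560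
        c16000_8320_8480_6400_6560
        c16000_8320_8480_6560_6720)))
     (CellR2.splitG 7200
      (CellR2.splitG 6880
       c16000_8320_8480_6720_6880
       (CellR2.splitG 7040
        c16000_8320_8480_6880_7040
        c16000_8320_8480_7040_7200))
      (CellR2.splitG 7520
       c16000_8320_8480_7200_7520
       c16000_8320_8480_7520_8000)))))

theorem slab8480 : Cell2 16000 8480 8640 0 8000 :=
  (CellR2.splitG 4000
   (c16000_8480_8800_0_4000.sub (by decide) (by decide) (by decide) (by decide))
   (CellR2.splitG 5760
    (CellR2.splitG 5120
     c16000_8480_8640_4000_5120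
     (CellR2.splitG 5440
      (CellR2.splitG 5280
       c16000_8480_8640_5120_5280
       c16000_8480_8640_5280_5440)
      (CellR2.splitG 5600
       c16000_8480_8640_5440_5600
       c16000_8480_8640_5600_5760)))
    (CellR2.splitG 6560
     (CellR2.splitG 6080
      (CellR2.splitG 5920
       c16000_8480_8640_5760_5920
       c16000_8480_8640_5920_6080)
      (CellR2.splitG 6240
       c16000_8480_8640_6080_6240
       (CellR2.splitG 6400
        c16000_8480_8640_6240_6400
        c16000_8480_8640_6400_6560)))
     (CellR2.splitG 7040
      (CellR2.splitG 6720
       c16000_8480_8640_6560_6720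
       (CellR2.splitG 6880
        c16000_8480_8640_6720_6880
        c16000_8480_8640_6880_7040))
      (CellR2.splitG 7200
       c16000_8480_8640_7040_7200
       (CellR2.splitG 7360
        c16000_8480_8640_7200_7360
        (c16000_8480_8640_7360_7520.sub (by decide) (by decide) (by decide) (by decide))))))))

theorem slab8640 : Cell2 16000 8640 8800 0 8000 :=
  (CellR2.splitG 4000
   (c16000_8480_8800_0_4000.sub (by decide) (by decide) (by decide) (by decide))
   (CellR2.splitG 5600
    (CellR2.splitG 5120
     c16000_8640_8800_4000_5120
     (CellR2.splitG 5280
      c16000_8640_8800_5120_5280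
      (CellR2.splitG 5440
       c16000_8640_8800_5280_5440
       c16000_8640_8800_5440_5600)))
    (CellR2.splitG 6400
     (CellR2.splitG 5920
      (CellR2.splitG 5760
       c16000_8640_8800_5600_5760
       c16000_8640_8800_5760_5920)
      (CellR2.splitG 6080
       c16000_8640_8800_5920_6080
       (CellR2.splitG 6240
        c16000_8640_8800_6080_6240
        c16000_8640_8800_6240_6400)))
     (CellR2.splitG 6880
      (CellR2.splitG 6560
       c16000_8640_8800_6400_6560
       (CellR2.splitG 6720
        c16000_8640_8800_6560_6720
        c16000_8640_8800_6720_6880))
      (CellR2.splitG 7040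
       c16000_8640_8800_6880_7040
       (CellR2.splitG 7200
        c16000_8640_8800_7040_7200
        (c16000_8640_8800_7200_7360.sub (by decide) (by decide) (by decide) (by decide))))))))

theorem slab8800 : Cell2 16000 8800 8960 0 8000 :=
  (CellR2.splitG 3680
   (c16000_8800_9120_0_3680.sub (by decide) (by decide) (by decide) (by decide))
   (CellR2.splitG 5440
    (CellR2.splitG 4640
     c16000_8800_8960_3680_4640
     (CellR2.splitG 5120
      c16000_8800_8960_4640_5120
      (CellR2.splitG 5280
       c16000_8800_8960_5120_5280
       c16000_8800_8960_5280_5440)))
    (CellR2.splitG 6240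
     (CellR2.splitG 5760
      (CellR2.splitG 5600
       c16000_8800_8960_5440_5600
       c16000_8800_8960_5600_5760)
      (CellR2.splitG 5920
       c16000_8800_8960_5760_5920
       (CellR2.splitG 6080
        c16000_8800_8960_5920_6080
        c16000_8800_8960_6080_6240)))
     (CellR2.splitG 6720
      (CellR2.splitG 6400
       c16000_8800_8960_6240_6400
       (CellR2.splitG 6560
        c16000_8800_8960_6400_6560
        c16000_8800_8960_6560_6720))
      (CellR2.splitG 6880
       c16000_8800_8960_6720_6880
       (CellR2.splitG 7040
        c16000_8800_8960_6880_7040
        (c16000_8800_8960_7040_7200.sub (by decide) (by decide) (by decide) (by decide))))))))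

theorem slab8960 : Cell2 16000 8960 9120 0 8000 :=
  (CellR2.splitG 3680
   (c16000_8800_9120_0_3680.sub (by decide) (by decide) (by decide) (by decide))
   (CellR2.splitG 5440
    c16000_8960_9120_3680_5440
    (CellR2.splitG 6240
     (CellR2.splitG 5760
      (CellR2.splitG 5600
       c16000_8960_9120_5440_5600
       c16000_8960_9120_5600_5760)
      (CellR2.splitG 5920
       c16000_8960_9120_5760_5920
       (CellR2.splitG 6080
        c16000_8960_9120_5920_6080
        c16000_8960_9120_6080_6240)))
     (CellR2.splitG 6560
      (CellR2.splitG 6400
       c16000_8960_9120_6240_6400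
       c16000_8960_9120_6400_6560)
      (CellR2.splitG 6720
       c16000_8960_9120_6560_6720
       (CellR2.splitG 6880
        c16000_8960_9120_6720_6880
        (c16000_8960_9120_6880_7040.sub (by decide) (by decide) (by decide) (by decide))))))))

theorem slab9120 : Cell2 16000 9120 9280 0 8000 :=
  (CellR2.splitG 3680
   (c16000_9120_9600_0_3680.sub (by decide) (by decide) (by decide) (by decide))
   (CellR2.splitG 5440
    (c16000_9120_9440_3680_5440.sub (by decide) (by decide) (by decide) (by decide))
    (CellR2.splitG 5920
     (CellR2.splitG 5600
      c16000_9120_9280_5440_5600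
      (CellR2.splitG 5760
       c16000_9120_9280_5600_5760
       c16000_9120_9280_5760_5920))
     ((Cell2.of cK0).sub (by decide) (by decide) (by decide) (by decide)))))

theorem slab9280 : Cell2 16000 9280 9440 0 8000 :=
  (CellR2.splitG 3680
   (c16000_9120_9600_0_3680.sub (by decide) (by decide) (by decide) (by decide))
   (CellR2.splitG 5440
    (c16000_9120_9440_3680_5440.sub (by decide) (by decide) (by decide) (by decide))
    (CellR2.splitG 5920
     (CellR2.splitG 5760
      c16000_9280_9440_5440_5760
      c16000_9280_9440_5760_5920)
     ((Cell2.of cK0).sub (by decide) (by decide) (by decide) (by decide)))))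

theorem slab9440 : Cell2 16000 9440 9600 0 8000 :=
  (CellR2.splitG 3680
   (c16000_9120_9600_0_3680.sub (by decide) (by decide) (by decide) (by decide))
   (CellR2.splitG 5440
    c16000_9440_9600_3680_5440
    (CellR2.splitG 5920
     c16000_9440_9600_5440_5920
     ((Cell2.of cK0).sub (by decide) (by decide) (by decide) (by decide)))))

theorem whole : Cell2 16000 5520 9600 0 8000 :=
  (CellR2.splitA 5600 slab5520
  (CellR2.splitA 5760 slab5600
  (CellR2.splitA 5920 slab5760
  (CellR2.splitA 6080 slab5920
  (CellR2.splitA 6240 slab6080
  (CellR2.splitA 6400 slab6240
  (CellR2.splitA 6560 slab6400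
  (CellR2.splitA 6720 slab6560
  (CellR2.splitA 6880 slab6720
  (CellR2.splitA 7040 slab6880
  (CellR2.splitA 7200 slab7040
  (CellR2.splitA 7360 slab7200
  (CellR2.splitA 7520 slab7360
  (CellR2.splitA 7680 slab7520
  (CellR2.splitA 7840 slab7680
  (CellR2.splitA 8000 slab7840
  (CellR2.splitA 8160 slab8000
  (CellR2.splitA 8320 slab8160
  (CellR2.splitA 8480 slab8320
  (CellR2.splitA 8640 slab8480
  (CellR2.splitA 8800 slab8640
  (CellR2.splitA 8960 slab8800
  (CellR2.splitA 9120 slab8960
  (CellR2.splitA 9280 slab9120
  (CellR2.splitA 9440 slab9280
  slab9440)))))))))))))))))))))))))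

/-- **All parameters are treated.** -/
theorem cells_cover (α γ : ℝ) (h1 : 216 / 625 ≤ α) (h2 : α ≤ 3 / 5) (h3 : 0 ≤ γ) (h4 : γ ≤ α)
    (h5 : α + γ ≤ 1) : Dead MM2 α γ (R0 α γ) :=
  whole.dead (by push_cast; linarith) (by push_cast; linarith) (by push_cast; linarith)
    (by push_cast; linarith) h3 h4 h5 h2

end Pool.Agent.Helper5.B54
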