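import Pool.Agent.Helper5.B54v2.Cell2

/-!
# Parts of cells
-/

namespace Pool.Agent.Helper5.B54

open Pool.Agent.Helper65.B54

/-- a part of a cell; the upper end of `γ` is not restricted if the cell reaches the diagonal or the
line `α + γ = 1` -/
theorem CellR2.sub {prev : List Facet} {D a0 a1 g0 g1 a0' a1' g0' g1' : ℕ}
    (h : CellR2 prev D a0 a1 g0 g1) (e1 : a0 ≤ a0') (e2 : a1' ≤ a1) (e3 : g0 ≤ g0')
    (e4 : g1' ≤ g1 ∨ a1' ≤ g1 ∨ D ≤ a0' + g1) : CellR2 prev D a0' a1' g0' g1' := by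
  intro α γ h1 h2 h3 h4 h5 h6 h7 h8
  have f1 : (a0 : ℝ) ≤ a0' := by exact_mod_cast e1
  have f2 : (a1' : ℝ) ≤ a1 := by exact_mod_cast e2
  have f3 : (g0 : ℝ) ≤ g0' := by exact_mod_cast e3
  refine h α γ (f1.trans h1) (h2.trans f2) (f3.trans h3) ?_ h5 h6 h7 h8
  rcases e4 with e | e | e
  · have f4 : (g1' : ℝ) ≤ g1 := by exact_mod_cast e
    exact h4.trans f4
  · have f4 : (a1' : ℝ) ≤ g1 := by exact_mod_cast e
    have h10 : (D : ℝ) * γ ≤ D * α := mul_le_mul_of_nonneg_left h6 (Nat.cast_nonneg _)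
    linarith
  · have f4 : (D : ℝ) ≤ a0' + g1 := by exact_mod_cast e
    have h10 : (D : ℝ) * (α + γ) ≤ D * 1 := mul_le_mul_of_nonneg_left h7 (Nat.cast_nonneg _)
    linarith

theorem Cell2.sub {D a0 a1 g0 g1 a0' a1' g0' g1' : ℕ}
    (h : Cell2 D a0 a1 g0 g1) (e1 : a0 ≤ a0') (e2 : a1' ≤ a1) (e3 : g0 ≤ g0')
    (e4 : g1' ≤ g1 ∨ a1' ≤ g1 ∨ D ≤ a0' + g1) : Cell2 D a0' a1' g0' g1' :=
  CellR2.sub h e1 e2 e3 e4

end Pool.Agent.Helper5.B54
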