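import Pool.Agent.Helper5.B54.Data

/-!
# The second certificate format: codes in natural numbers
-/

namespace Pool.Agent.Helper5.B54

noncomputable section

def S0 : Nat := 288
def S1 : Nat := 9072
def S2 : Nat := 24624
def S3 : Nat := 27360
def S4 : Nat := 28800

def XS4 : Nat := Nat.pow XS 4
def XS5 : Nat := Nat.pow XS 5

/-! ### cuts -/

/-- the cut with a given code -/
def cutOf (i : Nat) : Cut :=
  match i with
  | 0 => .tot
  | 1 => .nc
  | 2 => .own
  | j + 3 => .fac j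

/-- a prepared cut: weights, biased right side (on both cells of a class), right side on the cells
in `Z`, bias -/
structure C3 where
  wA : Nat
  wC : Nat
  wD : Nat
  hA : Nat
  hC : Nat
  hD : Nat
  oA : Nat
  oC : Nat
  oD : Nat
  h : Nat

def Facet.hb (G : Facet) : Nat :=
  Nat.add (Nat.add (Int.toNat (Int.neg (Int.add G.m0 G.ma))) (Int.toNat (Int.neg (Int.add G.m0 G.mg))))
    (Int.toNat (Int.neg G.m0))

def Facet.c3 (G : Facet) : C3 :=
  ⟨G.wA, G.wC, G.wD, Int.toNat (Int.add (Int.add G.m0 G.ma) (Int.ofNat G.hb)),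
    Int.toNat (Int.add (Int.add G.m0 G.mg) (Int.ofNat G.hb)),
    Int.toNat (Int.add G.m0 (Int.ofNat G.hb)), 0, 0, 0, G.hb⟩

def cuts3 (prev : List Facet) (F : Facet) : List C3 :=
  ⟨1, 1, 1, 1, 0, 0, 0, 0, 0, 0⟩ :: ⟨0, 1, 1, 0, 1, 0, 0, 0, 0, 0⟩ ::
    ⟨F.wA, F.wC, F.wD, 0, 0, 0, F.wA, F.wC, F.wD, 0⟩ :: prev.map Facet.c3

def e01 (y : Nat) : Nat := Nat.add (Nat.shiftLeft y 288) (Nat.shiftLeft y 9072)
def e23 (y : Nat) : Nat := Nat.add (Nat.shiftLeft y 24624) (Nat.shiftLeft y 27360)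
def e45 (y : Nat) : Nat := Nat.add (Nat.shiftLeft y 28800) y

/-- product with the weights -/
def wT (c : C3) (y : Nat) : Nat :=
  Nat.add (Nat.add (Nat.mul c.wA (e01 y)) (Nat.mul c.wC (e23 y))) (Nat.mul c.wD (e45 y))
/-- product with the biased right side -/
def hT (c : C3) (y : Nat) : Nat :=
  Nat.add (Nat.add (Nat.add (Nat.mul c.hA (e01 y)) (Nat.mul c.hC (e23 y))) (Nat.mul c.hD (e45 y)))
    (Nat.add (Nat.add (Nat.mul c.oA (Nat.shiftLeft y 288)) (Nat.mul c.oC (Nat.shiftLeft y 24624)))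
      (Nat.mul c.oD (Nat.shiftLeft y 28800)))
/-- product with the bias -/
def bT (c : C3) (y : Nat) : Nat := Nat.mul c.h (Nat.add (Nat.add (e01 y) (e23 y)) (e45 y))

def getC3 (l : List C3) : Nat → C3 :=
  List.rec (motive := fun _ => Nat → C3) (fun _ => ⟨0, 0, 0, 0, 0, 0, 0, 0, 0, 0⟩)
    (fun a _ ih n => Nat.rec (motive := fun _ => C3) a (fun m _ => ih m) n) l

/-! ### dual vectors -/

/-- decoding of a quartic form: entries `gap + 1024 * value`, 40 bits each -/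
def decF (n : Nat) : Nat → Nat :=
  Nat.rec (motive := fun _ => Nat → Nat) (fun _ => 0)
    (fun _ ih x => Nat.shiftLeft (Nat.add (Nat.land (Nat.shiftRight x 10) 1073741823)
      (ih (Nat.shiftRight x 40))) (Nat.mul 144 (Nat.land x 1023))) n

/-- number of terms of the first form of a code -/
def yn (y : Nat) : Nat := Nat.land (Nat.shiftRight y 6) 255

/-- the first form of a code -/
def yv (y : Nat) : Nat := decF (yn y) (Nat.shiftRight y 14)

/-- the rest of a code -/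
def yr (y : Nat) : Nat := Nat.shiftRight y (Nat.add 14 (Nat.mul 40 (yn y)))

/-- sum over the `m` forms of a code -/
def yF (f : Nat → Nat → Nat) (m : Nat) : Nat → Nat :=
  Nat.rec (motive := fun _ => Nat → Nat) (fun _ => 0)
    (fun _ ih y => Nat.add (f (Nat.land y 63) (yv y)) (ih (yr y))) m

/-- the forms of a code are quartic -/
def yOk (m : Nat) : Nat → Bool :=
  Nat.rec (motive := fun _ => Nat → Bool) (fun _ => true)
    (fun _ ih y => and (Nat.beq (Nat.land (yv y) cQuart) (yv y)) (ih (yr y))) m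

/-- biased `mu` -/
def mf (x i : Nat) : Nat := Nat.land (Nat.shiftRight x (Nat.mul 32 i)) 4294967295

/-- number of forms, code of the forms -/
def ym (x : Nat) : Nat := Nat.land (Nat.shiftRight x 192) 31
def yc (x : Nat) : Nat := Nat.shiftRight x 197

def sumW2 (cs : List C3) (x : Nat) : Nat := yF (fun i y => wT (getC3 cs i) y) (ym x) (yc x)
def sumH2 (cs : List C3) (x : Nat) : Nat := yF (fun i y => hT (getC3 cs i) y) (ym x) (yc x)
def sumB2 (cs : List C3) (x : Nat) : Nat := yF (fun i y => bT (getC3 cs i) y) (ym x) (yc x)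

/-- product of `XS ^ 4` with a linear form -/
def mulX (f0 f1 f2 f3 f4 f5 : Nat) : Nat :=
  Nat.add (Nat.add (Nat.add (Nat.mul f0 (Nat.shiftLeft XS4 288)) (Nat.mul f1 (Nat.shiftLeft XS4 9072)))
    (Nat.add (Nat.mul f2 (Nat.shiftLeft XS4 24624)) (Nat.mul f3 (Nat.shiftLeft XS4 27360))))
    (Nat.add (Nat.mul f4 (Nat.shiftLeft XS4 28800)) (Nat.mul f5 XS4))

/-- packed `L - sum Y W` with offset -/
def V2n (cs : List C3) (x : Nat) : Nat :=
  Nat.sub (Nat.add (mulX (mf x 0) (mf x 1) (mf x 2) (mf x 3) (mf x 4) (mf x 5)) cOff)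
    (Nat.add (sumW2 cs x) (Nat.mul 2147483648 XS5))

/-- packed `625 (sum Y H + U)`: positive and negative part -/
def N2p (cs : List C3) (x : Nat) : Nat :=
  Nat.mul 625 (Nat.add (sumH2 cs x) (Nat.land (posPart 143 cOff (V2n cs x)) cAllowed))
def N2n (cs : List C3) (x : Nat) : Nat := Nat.mul 625 (sumB2 cs x)

/-- a difference of packed forms -/
structure PN where
  P : Nat
  N : Nat

def shl5 (a : Nat) : Nat :=
  Nat.add (Nat.add (Nat.add (Nat.add (Nat.shiftLeft a 288) (Nat.shiftLeft a 9072))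
    (Nat.shiftLeft a 24624)) (Nat.shiftLeft a 27360)) (Nat.shiftLeft a 28800)

def hp5 (p n : Nat) (R : PN) : PN :=
  ⟨Nat.add (Nat.add p R.P) (shl5 R.N), Nat.add (Nat.add n R.N) (shl5 R.P)⟩
def hp1 (p n : Nat) (R : PN) : PN :=
  ⟨Nat.add (Nat.add p (Nat.shiftLeft R.P 9072)) (Nat.shiftLeft R.N 288),
    Nat.add (Nat.add n (Nat.shiftLeft R.N 9072)) (Nat.shiftLeft R.P 288)⟩
def hp3 (p n : Nat) (R : PN) : PN :=
  ⟨Nat.add (Nat.add p (Nat.shiftLeft R.P 27360)) (Nat.shiftLeft R.N 24624),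
    Nat.add (Nat.add n (Nat.shiftLeft R.N 27360)) (Nat.shiftLeft R.P 24624)⟩

/-- substitution in a difference -/
def dconv (V : VarD) (h : Nat → Nat → PN → PN) (R : PN) : PN :=
  h (Nat.land R.P V.M0) (Nat.land R.N V.M0)
  (h (Nat.shiftRight (Nat.land R.P V.M1) V.S) (Nat.shiftRight (Nat.land R.N V.M1) V.S)
  (h (Nat.shiftRight (Nat.land R.P V.M2) (Nat.mul 2 V.S)) (Nat.shiftRight (Nat.land R.N V.M2) (Nat.mul 2 V.S))
  (h (Nat.shiftRight (Nat.land R.P V.M3) (Nat.mul 3 V.S)) (Nat.shiftRight (Nat.land R.N V.M3) (Nat.mul 3 V.S))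
  (h (Nat.shiftRight (Nat.land R.P V.M4) (Nat.mul 4 V.S)) (Nat.shiftRight (Nat.land R.N V.M4) (Nat.mul 4 V.S))
    ⟨Nat.shiftRight (Nat.land R.P V.M5) (Nat.mul 5 V.S), Nat.shiftRight (Nat.land R.N V.M5) (Nat.mul 5 V.S)⟩))))

/-- in terms of the parameters -/
def toPar2 (R : PN) : PN := dconv V3 hp3 (dconv V1 hp1 (dconv V5 hp5 R))

/-- sum of the absolute values of the coefficients -/
def norm2 (R : PN) : Nat :=
  Nat.add (Nat.mod (posPart 143 cOff (Nat.sub (Nat.add R.P cOff) R.N))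
      22300745198530623141535718272648361505980415)
    (Nat.mod (posPart 143 cOff (Nat.sub (Nat.add R.N cOff) R.P))
      22300745198530623141535718272648361505980415)

/-- `|f - g|` -/
def adN (f g : Nat) : Nat := Nat.add (Nat.sub f g) (Nat.sub g f)

/-- bias of the form `- 216 mu` -/
def muB (x : Nat) : Nat :=
  Nat.mul 216 (Nat.add (Nat.add (Nat.add (Nat.add (Nat.add (adN (mf x 0) (mf x 1))
    (adN (mf x 1) (mf x 5))) (adN (mf x 2) (mf x 3))) (adN (mf x 3) (mf x 5)))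
    (adN (mf x 4) (mf x 5))) (adN (mf x 5) 2147483648))

def muE (b f g : Nat) : Nat := Nat.sub (Nat.add b (Nat.mul 216 g)) (Nat.mul 216 f)

/-- packed form `- 216 mu` with bias -/
def muF (D2 x : Nat) : Nat :=
  Nat.add (Nat.add (Nat.add (Nat.add (Nat.add
    (Nat.mul (muE (muB x) (mf x 0) (mf x 1)) X0) (Nat.mul (muE (muB x) (mf x 1) (mf x 5)) X1))
    (Nat.mul (muE (muB x) (mf x 2) (mf x 3)) X2)) (Nat.mul (muE (muB x) (mf x 3) (mf x 5)) X3))
    (Nat.mul (muE (muB x) (mf x 4) (mf x 5)) X4)) (Nat.mul (muE (muB x) (mf x 5) 2147483648) D2)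

/-- prepared dual vector: packed biased form, biases -/
structure DP2 where
  X : Nat
  K : Nat
  b : Nat

def prepN2 (D2 x : Nat) (R : PN) : DP2 :=
  ⟨Nat.add (diag V5 D2 0 (Nat.sub (Nat.add R.P (Nat.mul (norm2 R) XS5)) R.N))
    (Nat.mul (Nat.pow D2 4) (muF D2 x)), norm2 R, muB x⟩

def prep2 (cs : List C3) (D2 x : Nat) : DP2 := prepN2 D2 x (toPar2 ⟨N2p cs x, N2n cs x⟩)

/-! ### constraints -/

/-- prepared constraint: biased coefficients, bias, packed part -/
structure C2 where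
  A0 : Nat
  A1 : Nat
  A2 : Nat
  A3 : Nat
  A4 : Nat
  A5 : Nat
  b : Nat
  B : Nat

/-- from the biased coefficients -/
def mkC2 (D2 A0 A1 A2 A3 A4 A5 b : Nat) : C2 :=
  ⟨A0, A1, A2, A3, A4, A5, b, Nat.add (Nat.add (Nat.add (Nat.mul A0 X0) (Nat.mul A2 X2))
    (Nat.mul A4 X4)) (Nat.mul A5 D2)⟩

def Facet.bs (G : Facet) : Nat :=
  Nat.add (Nat.add (Nat.add G.wA G.wC) (Nat.add G.wD G.m0.natAbs)) (Nat.add G.ma.natAbs G.mg.natAbs)

/-- biased coefficients of `τ - w . z` -/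
def Facet.c2 (D2 : Nat) (G : Facet) : C2 :=
  mkC2 D2 (Nat.sub G.bs G.wA) (Int.toNat (Int.add (Int.ofNat G.bs) G.ma)) (Nat.sub G.bs G.wC)
    (Int.toNat (Int.add (Int.ofNat G.bs) G.mg)) (Nat.sub G.bs G.wD)
    (Int.toNat (Int.add (Int.ofNat G.bs) G.m0)) G.bs

/-- biased coefficients of `w . z - τ` -/
def Facet.n2 (D2 : Nat) (G : Facet) : C2 :=
  mkC2 D2 (Nat.add G.bs G.wA) (Int.toNat (Int.sub (Int.ofNat G.bs) G.ma)) (Nat.add G.bs G.wC)
    (Int.toNat (Int.sub (Int.ofNat G.bs) G.mg)) (Nat.add G.bs G.wD)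
    (Int.toNat (Int.sub (Int.ofNat G.bs) G.m0)) G.bs

def cons2 (D2 : Nat) (prev : List Facet) (F : Facet) : List C2 :=
  F.n2 D2 :: mkC2 D2 0 2 0 1 0 1 1 :: mkC2 D2 1 1 0 2 0 1 1 ::
    mkC2 D2 1 0 1 0 0 2 1 :: mkC2 D2 1 2 1 0 1 1 1 ::
    mkC2 D2 1 0 1 0 1 2 1 :: mkC2 D2 5 0 5 5 5 8 5 :: prev.map (Facet.c2 D2)

def getC2 (l : List C2) : Nat → C2 :=
  List.rec (motive := fun _ => Nat → C2) (fun _ => ⟨0, 0, 0, 0, 0, 0, 0, 0⟩)
    (fun a _ ih n => Nat.rec (motive := fun _ => C2) a (fun m _ => ih m) n) l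

/-- sum over the `n` multipliers of a code: 6 bits index, 42 bits multiplier -/
def lamS (f : C2 → Nat) (cs : List C2) (n : Nat) : Nat → Nat :=
  Nat.rec (motive := fun _ => Nat → Nat) (fun _ => 0)
    (fun _ ih x => Nat.add (Nat.mul (Nat.land (Nat.shiftRight x 6) 4398046511103)
      (f (getC2 cs (Nat.land x 63)))) (ih (Nat.shiftRight x 48))) n

/-! ### leaves -/

/-- the region does not meet the box (`s = 1`), or only in a strict sense (`s = 0`) -/
def emptyT (s D : Nat) (cs : List C2) (n x l0 h0 l1 h1 l2 h2 l3 h3 l4 h4 : Nat) : Bool :=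
  Nat.ble
    (Nat.add (Nat.add (Nat.add (Nat.add (Nat.add (Nat.add s
      (Nat.mul (Nat.sub (lamS C2.A0 cs n x) (lamS C2.b cs n x)) h0))
      (Nat.mul (Nat.sub (lamS C2.A1 cs n x) (lamS C2.b cs n x)) h1))
      (Nat.mul (Nat.sub (lamS C2.A2 cs n x) (lamS C2.b cs n x)) h2))
      (Nat.mul (Nat.sub (lamS C2.A3 cs n x) (lamS C2.b cs n x)) h3))
      (Nat.mul (Nat.sub (lamS C2.A4 cs n x) (lamS C2.b cs n x)) h4))
      (Nat.mul (Nat.sub (lamS C2.A5 cs n x) (lamS C2.b cs n x)) D))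
    (Nat.add (Nat.add (Nat.add (Nat.add (Nat.add
      (Nat.mul (Nat.sub (lamS C2.b cs n x) (lamS C2.A0 cs n x)) l0)
      (Nat.mul (Nat.sub (lamS C2.b cs n x) (lamS C2.A1 cs n x)) l1))
      (Nat.mul (Nat.sub (lamS C2.b cs n x) (lamS C2.A2 cs n x)) l2))
      (Nat.mul (Nat.sub (lamS C2.b cs n x) (lamS C2.A3 cs n x)) l3))
      (Nat.mul (Nat.sub (lamS C2.b cs n x) (lamS C2.A4 cs n x)) l4))
      (Nat.mul (Nat.sub (lamS C2.b cs n x) (lamS C2.A5 cs n x)) D))

/-- packed `(l + h) + (h - l) v` -/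
def UU (l h X : Nat) : Nat := Nat.add (Nat.add l h) (Nat.mul (Nat.sub h l) X)

/-- substitution of `α` and `γ` -/
def diagA (X l1 h1 l3 h3 : Nat) : Nat :=
  diag V3 (Nat.add l3 h3) (Nat.sub h3 l3) (diag V1 (Nat.add l1 h1) (Nat.sub h1 l1) X)

/-- sum of all substituted variables -/
def LL (D2 U W l0 h0 l2 h2 l4 h4 : Nat) : Nat :=
  Nat.add (Nat.add (Nat.add (Nat.add (Nat.add D2 U) W) (UU l0 h0 X0)) (UU l2 h2 X2)) (UU l4 h4 X4)

/-- the final test on the packed Taylor coefficients with offset -/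
def final2 (Z : Nat) : Bool :=
  Nat.ble (Nat.add (Nat.add
    (Nat.mod (posPart 143 cOff Z) 22300745198530623141535718272648361505980415)
    (Nat.mod (Nat.land (posPart 143 cOff (Nat.sub (Nat.mul 2 cOff) Z)) cOdd)
      22300745198530623141535718272648361505980415)) 1)
    (Nat.land (posPart 143 cOff (Nat.sub (Nat.mul 2 cOff) Z))
      22300745198530623141535718272648361505980415)

/-- packed polynomial with offset -/
def leafZ (D24 : Nat) (P : DP2) (A F B L l0 h0 l2 h2 l4 h4 : Nat) : Nat :=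
  Nat.sub (Nat.add cOff
    (diag V4 (Nat.add l4 h4) (Nat.sub h4 l4)
    (diag V2 (Nat.add l2 h2) (Nat.sub h2 l2)
    (diag V0 (Nat.add l0 h0) (Nat.sub h0 l0) (Nat.add A (Nat.mul D24 F))))))
    (Nat.mul L (Nat.add (Nat.mul P.K (Nat.pow L 4)) (Nat.mul D24 B)))

def killT (D2 D24 : Nat) (cs : List C2) (P : DP2)
    (n x l0 h0 l1 h1 l2 h2 l3 h3 l4 h4 : Nat) : Bool :=
  and (Nat.ble (Nat.add P.b (lamS C2.b cs n x)) P.K)
    (final2 (leafZ D24 P (diagA P.X l1 h1 l3 h3)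
      (lamS (fun c => Nat.add (Nat.add c.B (Nat.mul c.A1 (UU l1 h1 X1)))
        (Nat.mul c.A3 (UU l3 h3 X3))) cs n x)
      (Nat.add P.b (lamS C2.b cs n x))
      (LL D2 (UU l1 h1 X1) (UU l3 h3 X3) l0 h0 l2 h2 l4 h4)
      l0 h0 l2 h2 l4 h4))

def getP2 (l : List DP2) : Nat → DP2 :=
  List.rec (motive := fun _ => Nat → DP2) (fun _ => ⟨0, 0, 1⟩)
    (fun a _ ih n => Nat.rec (motive := fun _ => DP2) a (fun m _ => ih m) n) l

/-- `f r` if `x = r + 1`, failure if `x = 0` -/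
def bindN (x : Nat) (f : Nat → Nat) : Nat := Nat.rec (motive := fun _ => Nat) 0 (fun r _ => f r) x

/-- `r` if the test is passed, failure otherwise -/
def okN (b : Bool) (r : Nat) : Nat := Bool.rec (motive := fun _ => Nat) 0 r b

/-- evaluation of the code of a tree: `0` for failure, otherwise the rest of the code plus one -/
def run (st : Bool) (D D2 D24 : Nat) (cs : List C2) (ps : List DP2) (fuel : Nat) :
    (c l0 h0 l1 h1 l2 h2 l3 h3 l4 h4 : Nat) → Nat :=
  Nat.rec (motive := fun _ => (c l0 h0 l1 h1 l2 h2 l3 h3 l4 h4 : Nat) → Nat)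
    (fun _ _ _ _ _ _ _ _ _ _ _ => 0)
    (fun _ ih c l0 h0 l1 h1 l2 h2 l3 h3 l4 h4 =>
      Nat.rec (motive := fun _ => Nat)
        (okN (Nat.ble (Nat.land (Nat.shiftRight c 3) 131071) h0)
          (bindN (ih (Nat.shiftRight c 20) l0 (Nat.land (Nat.shiftRight c 3) 131071) l1 h1 l2 h2 l3 h3 l4 h4)
            (fun r => ih r (Nat.land (Nat.shiftRight c 3) 131071) h0 l1 h1 l2 h2 l3 h3 l4 h4)))
      (fun k _ => Nat.rec (motive := fun _ => Nat)
        (okN (Nat.ble (Nat.land (Nat.shiftRight c 3) 131071) h1)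
          (bindN (ih (Nat.shiftRight c 20) l0 h0 l1 (Nat.land (Nat.shiftRight c 3) 131071) l2 h2 l3 h3 l4 h4)
            (fun r => ih r l0 h0 (Nat.land (Nat.shiftRight c 3) 131071) h1 l2 h2 l3 h3 l4 h4)))
      (fun k _ => Nat.rec (motive := fun _ => Nat)
        (okN (Nat.ble (Nat.land (Nat.shiftRight c 3) 131071) h2)
          (bindN (ih (Nat.shiftRight c 20) l0 h0 l1 h1 l2 (Nat.land (Nat.shiftRight c 3) 131071) l3 h3 l4 h4)
            (fun r => ih r l0 h0 l1 h1 (Nat.land (Nat.shiftRight c 3) 131071) h2 l3 h3 l4 h4)))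
      (fun k _ => Nat.rec (motive := fun _ => Nat)
        (okN (Nat.ble (Nat.land (Nat.shiftRight c 3) 131071) h3)
          (bindN (ih (Nat.shiftRight c 20) l0 h0 l1 h1 l2 h2 l3 (Nat.land (Nat.shiftRight c 3) 131071) l4 h4)
            (fun r => ih r l0 h0 l1 h1 l2 h2 (Nat.land (Nat.shiftRight c 3) 131071) h3 l4 h4)))
      (fun k _ => Nat.rec (motive := fun _ => Nat)
        (okN (Nat.ble (Nat.land (Nat.shiftRight c 3) 131071) h4)
          (bindN (ih (Nat.shiftRight c 20) l0 h0 l1 h1 l2 h2 l3 h3 l4 (Nat.land (Nat.shiftRight c 3) 131071))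
            (fun r => ih r l0 h0 l1 h1 l2 h2 l3 h3 (Nat.land (Nat.shiftRight c 3) 131071) h4)))
      (fun k _ => Nat.rec (motive := fun _ => Nat)
        (okN (emptyT 1 D cs (Nat.land (Nat.shiftRight c 3) 15) (Nat.shiftRight c 7)
            l0 h0 l1 h1 l2 h2 l3 h3 l4 h4)
          (Nat.add (Nat.shiftRight c (Nat.add 7 (Nat.mul 48 (Nat.land (Nat.shiftRight c 3) 15)))) 1))
      (fun k _ => Nat.rec (motive := fun _ => Nat)
        (okN (killT D2 D24 cs (getP2 ps (Nat.land (Nat.shiftRight c 7) 1023))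
            (Nat.land (Nat.shiftRight c 3) 15) (Nat.shiftRight c 17) l0 h0 l1 h1 l2 h2 l3 h3 l4 h4)
          (Nat.add (Nat.shiftRight c (Nat.add 17 (Nat.mul 48 (Nat.land (Nat.shiftRight c 3) 15)))) 1))
      (fun k _ =>
        (okN (and st (and (Nat.ble 1 (Nat.land (Nat.shiftRight c 3) 15))
            (and (Nat.beq (Nat.land (Nat.shiftRight c 7) 63) 0)
              (and (Nat.ble 1 (Nat.land (Nat.shiftRight c 13) 4398046511103))
                (emptyT 0 D cs (Nat.land (Nat.shiftRight c 3) 15) (Nat.shiftRight c 7)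
                  l0 h0 l1 h1 l2 h2 l3 h3 l4 h4)))))
          (Nat.add (Nat.shiftRight c (Nat.add 7 (Nat.mul 48 (Nat.land (Nat.shiftRight c 3) 15)))) 1)))
      k) k) k) k) k) k) (Nat.land c 7)) fuel

/-! ### steps -/

/-- concatenation of blocks of `8192` bits -/
def catN (l : List Nat) : Nat :=
  List.rec (motive := fun _ => Nat) 0 (fun a _ ih => Nat.add a (Nat.shiftLeft ih 8192)) l

def mapP2 (cs : List C3) (D2 : Nat) (l : List Nat) : List DP2 :=
  List.rec (motive := fun _ => List DP2) [] (fun a _ ih => prep2 cs D2 a :: ih) l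

/-- the codes of the dual vectors are fine -/
def codesOk (l : List Nat) : Bool :=
  List.rec (motive := fun _ => Bool) true (fun a _ ih => and (yOk (ym a) (yc a)) ih) l

/-- sizes: `R` bounds the sum of all variables -/
def psOk (R : Nat) (l : List DP2) : Bool :=
  List.rec (motive := fun _ => Bool) true
    (fun P _ ih => and (Nat.ble (Nat.mul (Nat.mul 6 P.K) (Nat.pow R 5))
      11150372599265311570767859136324180752990207) ih) l

def Facet.small (G : Facet) : Bool :=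
  and (Nat.ble G.wA 262144) (and (Nat.ble G.wC 262144) (and (Nat.ble G.wD 262144)
    (and (Nat.ble G.m0.natAbs 262144) (and (Nat.ble G.ma.natAbs 262144) (Nat.ble G.mg.natAbs 262144)))))

def facsOk (l : List Facet) : Bool :=
  List.rec (motive := fun _ => Bool) true (fun G _ ih => and G.small ih) l

/-- the check of a box -/
def chk2 (st : Bool) (D : Nat) (prev : List Facet) (F : Facet) (ds : List Nat)
    (code : List Nat) (l0 h0 l1 h1 l2 h2 l3 h3 l4 h4 : Nat) : Bool :=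
  and (and (Nat.ble 1 D) (Nat.ble D 65536))
  (and (and (facsOk prev) F.small)
  (and (codesOk ds)
  (and (psOk (Nat.add (Nat.add (Nat.add (Nat.mul 2 D) (Nat.mul 2 h0)) (Nat.mul 2 h1))
      (Nat.add (Nat.add (Nat.mul 2 h2) (Nat.mul 2 h3)) (Nat.add (Nat.mul 2 h4) 5)))
      (mapP2 (cuts3 prev F) (Nat.mul 2 D) ds))
    (Nat.ble 1 (run st D (Nat.mul 2 D) (Nat.pow (Nat.mul 2 D) 4) (cons2 (Nat.mul 2 D) prev F)
      (mapP2 (cuts3 prev F) (Nat.mul 2 D) ds) 200 (catN code) l0 h0 l1 h1 l2 h2 l3 h3 l4 h4)))))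

end

end Pool.Agent.Helper5.B54
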