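import Pool.Agent.Helper5.B54v2.Cons2

/-!
# Killed leaves, second format
-/

namespace Pool.Agent.Helper5.B54

open Finset MvPolynomial Pool.Agent.Helper65.B54

/-! ### strict final test -/

theorem final_test2 {O : ℕ} {T : MvPolynomial (Fin 6) ℤ} (hT : T.IsHomogeneous 5) (hO : IsOff O)
    (hc : ∀ m, |coeff m T| < 2 ^ aa) (hs : ∑ m ∈ Ix, (coeff m T).natAbs < 2 ^ bb - 1)
    {M : ℕ} (hM : IsOdd M)
    (h : posPart aa O (pk T + (O : ℤ)).toNat % (2 ^ bb - 1) +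
      Nat.land (posPart aa O (Nat.sub (Nat.mul 2 O) (pk T + (O : ℤ)).toNat)) M % (2 ^ bb - 1) + 1 ≤
      posPart aa O (Nat.sub (Nat.mul 2 O) (pk T + (O : ℤ)).toNat) % 2 ^ bb)
    {t : Fin 6 → ℝ} (ht : ∀ i, |t i| ≤ 1) (h5 : t 5 = 1) : aeval t T ≤ -1 := by
  have hneg : ∀ m, (-coeff m T).toNat < 2 ^ bb := by
    intro m
    have := abs_lt.mp (hc m)
    have h2 : (2 : ℤ) ^ bb = 2 * 2 ^ aa := by rw [bb_eq, pow_succ]; ring
    zify
    by_cases h0 : 0 ≤ -coeff m T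
    · rw [Int.toNat_of_nonneg h0]; linarith
    · rw [Int.toNat_of_nonpos (by linarith)]; positivity
  rw [Z_pos hT hO hc, Z_neg hT hO hc, hM] at h
  change _ + (numE Ix (fun m => (-coeff m T).toNat) &&& _) % (2 ^ bb - 1) + 1 ≤ _ at h
  rw [numE_and (subset_refl _) (filter_subset _ _) (fun m _ => hneg m),
    inter_eq_right.mpr (filter_subset _ _), numE_mod (subset_refl _), numE_mod (filter_subset _ _),
    numE_mod_two_pow (hneg _)] at h
  · rw [aeval_eq_sum T (support_of_hom hT)]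
    have h' : (∑ m ∈ Ix, ((coeff m T).toNat : ℝ)) + ∑ m ∈ Ix.filter OddE, ((-coeff m T).toNat : ℝ) + 1 ≤
        ((-coeff m0 T).toNat : ℝ) := by exact_mod_cast h
    have key : ∀ m ∈ Ix, (algebraMap ℤ ℝ (coeff m T)) * mon t m ≤
        ((coeff m T).toNat : ℝ) + (if OddE m then ((-coeff m T).toNat : ℝ) else 0) -
          (if m = m0 then ((-coeff m0 T).toNat : ℝ) else 0) := by
      intro m _
      have hx : (algebraMap ℤ ℝ (coeff m T)) = ((coeff m T).toNat : ℝ) - ((-coeff m T).toNat : ℝ) := by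
        have : coeff m T = ((coeff m T).toNat : ℤ) - ((-coeff m T).toNat : ℤ) := by omega
        rw [eq_intCast]
        exact_mod_cast this
      have hP : (0 : ℝ) ≤ ((coeff m T).toNat : ℝ) := Nat.cast_nonneg _
      have hN : (0 : ℝ) ≤ ((-coeff m T).toNat : ℝ) := Nat.cast_nonneg _
      rw [hx]
      have h1 := abs_le.mp (mon_abs_le ht m)
      by_cases hm0 : m = m0
      · have hodd : ¬ OddE m := by
          rw [hm0]; unfold OddE m0; simp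
        have hmon : mon t m = 1 := by
          rw [hm0]; unfold mon m0
          rw [Fin.prod_univ_six]; simp [h5]
        rw [hmon, if_neg hodd, if_pos hm0, ← hm0]
        linarith
      · rw [if_neg hm0]
        by_cases hodd : OddE m
        · rw [if_pos hodd]
          exact aux1 hP hN h1.1 h1.2
        · rw [if_neg hodd]
          exact aux2 hP hN (mon_even_nonneg h5 hodd) h1.2
    refine (sum_le_sum key).trans ?_
    rw [sum_sub_distrib, sum_add_distrib, ← sum_filter, sum_ite_eq', if_pos m0_mem]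
    linarith
  · refine lt_of_le_of_lt (sum_le_sum_of_subset (filter_subset _ _)) ?_
    refine lt_of_le_of_lt (sum_le_sum fun m _ => ?_) hs
    omega
  · refine lt_of_le_of_lt (sum_le_sum fun m _ => ?_) hs
    omega

/-! ### the combination of constraints as a form -/

/-- substituted variable -/
noncomputable def lx (i : Fin 6) (l h : ℕ) : MvPolynomial (Fin 6) ℕ :=
  lin i (Nat.add l h) (Nat.sub h l)

theorem aeval_lx (i : Fin 6) (l h : ℕ) (u : Fin 6 → ℝ) : aeval u (lx i l h) =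
    ((Nat.add l h : ℕ) : ℝ) * u 5 + ((Nat.sub h l : ℕ) : ℝ) * u i := by
  unfold lx lin
  simp

theorem pk_lx {i : Fin 6} {X : ℕ} (hX : X = 2 ^ (bb * fs i)) (l h : ℕ) : pk (lx i l h) = UU l h X := by
  unfold lx
  rw [pk_lin, ← hX]
  rfl

/-- a prepared constraint as a linear form -/
noncomputable def cP (D2 : ℕ) (b : Box) (c : C2) : MvPolynomial (Fin 6) ℕ :=
  C c.A0 * X 0 + C c.A2 * X 2 + C c.A4 * X 4 + C (c.A5 * D2) * X 5 + C c.A1 * lx 1 b.l1 b.h1 +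
    C c.A3 * lx 3 b.l3 b.h3

/-- the combination -/
noncomputable def FS (D2 : ℕ) (b : Box) (cs : List C2) : ℕ → ℕ → MvPolynomial (Fin 6) ℕ
  | 0, _ => 0
  | n + 1, x => C (lv x) * cP D2 b (getC2 cs (Nat.land x 63)) + FS D2 b cs n (Nat.shiftRight x 48)

theorem FS_succ (D2 : ℕ) (b : Box) (cs : List C2) (n x : ℕ) : FS D2 b cs (n + 1) x =
    C (lv x) * cP D2 b (getC2 cs (Nat.land x 63)) + FS D2 b cs n (Nat.shiftRight x 48) := rfl

theorem hom_lx (i : Fin 6) (l h : ℕ) : (lx i l h).IsHomogeneous 1 := lin_hom _ _ _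

theorem hom_cP (D2 : ℕ) (b : Box) (c : C2) : (cP D2 b c).IsHomogeneous 1 :=
  (((((hom_CXN _ _).add (hom_CXN _ _)).add (hom_CXN _ _)).add (hom_CXN _ _)).add
    ((hom_lx _ _ _).C_mul _)).add ((hom_lx _ _ _).C_mul _)

theorem hom_FS (D2 : ℕ) (b : Box) (cs : List C2) : ∀ n x, (FS D2 b cs n x).IsHomogeneous 1
  | 0, _ => isHomogeneous_zero _ _ _
  | n + 1, x => ((hom_cP _ _ _).C_mul _).add (hom_FS D2 b cs n _)

theorem pk_cP {D2 : ℕ} (b : Box) {c : C2} {a : V6} (hc : C2Ok D2 c a) : pk (cP D2 b c) =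
    Nat.add (Nat.add c.B (Nat.mul c.A1 (UU b.l1 b.h1 X1))) (Nat.mul c.A3 (UU b.l3 b.h3 X3)) := by
  unfold cP
  simp only [pk_add, pk_mul, pk_C]
  rw [pkX 0 X0_eq, pkX 2 X2_eq, pkX 4 X4_eq, pkX 5 X5_eq, pk_lx X1_eq, pk_lx X3_eq, mul_one, ← hc.hB]
  rfl

theorem pk_FS {D2 : ℕ} (b : Box) {cs : List C2} {ds : List V6}
    (hr : List.Forall₂ (C2Ok D2) cs ds) : ∀ n x, pk (FS D2 b cs n x) =
      lamS (fun c => Nat.add (Nat.add c.B (Nat.mul c.A1 (UU b.l1 b.h1 X1)))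
        (Nat.mul c.A3 (UU b.l3 b.h3 X3))) cs n x
  | 0, _ => by unfold FS pk lamS; simp
  | n + 1, x => by
    rw [FS_succ, lamS_succ, pk_add, pk_mul, pk_C, pk_FS b hr n, pk_cP b (getC2_rel hr _)]

/-- value of the combination -/
theorem aeval_FS (D2 : ℕ) (b : Box) (cs : List C2) (u : Fin 6 → ℝ) : ∀ n x,
    aeval u (FS D2 b cs n x) = ((lamS C2.A0 cs n x : ℕ) : ℝ) * u 0 +
      ((lamS C2.A2 cs n x : ℕ) : ℝ) * u 2 + ((lamS C2.A4 cs n x : ℕ) : ℝ) * u 4 +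
      ((lamS C2.A5 cs n x : ℕ) : ℝ) * (D2 * u 5) +
      ((lamS C2.A1 cs n x : ℕ) : ℝ) * aeval u (lx 1 b.l1 b.h1) +
      ((lamS C2.A3 cs n x : ℕ) : ℝ) * aeval u (lx 3 b.l3 b.h3)
  | 0, _ => by
    unfold FS lamS
    simp
  | n + 1, x => by
    have e : ∀ c : C2, aeval u (cP D2 b c) = (c.A0 : ℝ) * u 0 + (c.A2 : ℝ) * u 2 + (c.A4 : ℝ) * u 4 +
        (c.A5 : ℝ) * (D2 * u 5) + (c.A1 : ℝ) * aeval u (lx 1 b.l1 b.h1) +
        (c.A3 : ℝ) * aeval u (lx 3 b.l3 b.h3) := by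
      intro c
      unfold cP
      simp only [map_add, map_mul, aeval_X, eq_natCast, map_natCast]
      push_cast
      ring
    rw [FS_succ, map_add, map_mul, aeval_FS D2 b cs u n, e, aeval_C, eq_natCast]
    simp only [lamS_succ]
    push_cast
    ring

theorem lamS_le {f g : C2 → ℕ} {cs : List C2} (h : ∀ i, f (getC2 cs i) ≤ 2 * g (getC2 cs i)) :
    ∀ n x, lamS f cs n x ≤ 2 * lamS g cs n x
  | 0, _ => Nat.zero_le _
  | n + 1, x => by
    rw [lamS_succ, lamS_succ]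
    have h1 := lamS_le h n (Nat.shiftRight x 48)
    have h2 := Nat.mul_le_mul_left (lv x) (h (Nat.land x 63))
    have e : lv x * (2 * g (getC2 cs (Nat.land x 63))) = 2 * (lv x * g (getC2 cs (Nat.land x 63))) := by
      ring
    omega

/-- real evaluation of an evaluation in natural numbers -/
theorem eval_cast (g : MvPolynomial (Fin 6) ℕ) (w : Fin 6 → ℕ) :
    ((eval w g : ℕ) : ℝ) = aeval (fun k => ((w k : ℕ) : ℝ)) g := by
  rw [eval_eq_sum _ (subset_refl _), aeval_eq_sum _ (subset_refl _)]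
  push_cast
  refine sum_congr rfl fun m _ => ?_
  simp [mon]

/-! ### stages -/

theorem stage2 {V : VarD} {i : Fin 6} (hV : V.Ok i) (hi5 : i ≠ 5) {l h : ℕ} (hlh : l ≤ h)
    {w w' : Fin 6 → ℕ} (hw : ∀ j, 1 ≤ w j) (h5 : w' 5 = 1) (h1 : w' i = 1) (h2 : 2 * h ≤ w i)
    (h3 : ∀ j, j ≠ i → w' j ≤ w j) {g : MvPolynomial (Fin 6) ℕ} (hg : g.IsHomogeneous 5)
    (hbd : eval w g < 2 ^ bb) :
    diag V (Nat.add l h) (Nat.sub h l) (pk g) = pk (subst i (lx i l h) g) ∧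
      eval w' (subst i (lx i l h) g) ≤ eval w g := by
  constructor
  · exact diag_eq hV hg (fun m => lt_of_le_of_lt (coeff_le_eval g hw m) hbd) _ _
  · rw [eval_subst_nat i _ _ hg]
    apply eval_mono
    intro j
    have e : eval w' (lx i l h) = 2 * h := by
      unfold lx lin
      simp only [map_add, map_mul, eval_C, eval_X, h5, h1, mul_one]
      exact cr_le hlh
    by_cases hj : j = i
    · subst hj
      rw [Function.update_self, e]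
      exact h2
    · rw [Function.update_of_ne hj]
      exact h3 j hj

/-- `r(h)` with all upper ends -/
theorem sum_wt (D2 : ℕ) (b : Box) : (rho D2 b : ℝ) =
    D2 + 2 * b.h0 + 2 * b.h1 + 2 * b.h2 + 2 * b.h3 + (2 * b.h4 + 5) := by
  have : rho D2 b = D2 + 2 * b.h0 + 2 * b.h1 + 2 * b.h2 + 2 * b.h3 + (2 * b.h4 + 5) := rfl
  rw [this]; push_cast; ring

theorem LL_eq (D2 : ℕ) (b : Box) :
    LL D2 (UU b.l1 b.h1 X1) (UU b.l3 b.h3 X3) b.l0 b.h0 b.l2 b.h2 b.l4 b.h4 = lsum D2 b := by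
  have e1 : LL D2 (UU b.l1 b.h1 X1) (UU b.l3 b.h3 X3) b.l0 b.h0 b.l2 b.h2 b.l4 b.h4 =
      D2 + (Nat.add b.l1 b.h1 + Nat.sub b.h1 b.l1 * X1) + (Nat.add b.l3 b.h3 + Nat.sub b.h3 b.l3 * X3) +
      (Nat.add b.l0 b.h0 + Nat.sub b.h0 b.l0 * X0) + (Nat.add b.l2 b.h2 + Nat.sub b.h2 b.l2 * X2) +
      (Nat.add b.l4 b.h4 + Nat.sub b.h4 b.l4 * X4) := rfl
  have e2 : lsum D2 b = Nat.sub b.h0 b.l0 * X0 + Nat.sub b.h1 b.l1 * X1 + Nat.sub b.h2 b.l2 * X2 +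
      Nat.sub b.h3 b.l3 * X3 + Nat.sub b.h4 b.l4 * X4 +
      (Nat.add b.l0 b.h0 + Nat.add b.l1 b.h1 + Nat.add b.l2 b.h2 + Nat.add b.l3 b.h3 +
        Nat.add b.l4 b.h4 + D2) := rfl
  rw [e1, e2]
  ring

/-- **A killed leaf.** -/
theorem killT_sound {D2 : ℕ} {cs : List C2} {ds : List V6} (hr : List.Forall₂ (C2Ok D2) cs ds)
    {P : DP2} {p : MvPolynomial (Fin 6) ℤ} {m : V6} (hS : SemB D2 P p m) {n x : ℕ} {b : Box}
    (hD : 0 < D2) {R : ℕ} (hR : rho D2 b ≤ R) (hsize : 6 * P.K * R ^ 5 ≤ 2 ^ aa - 1)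
    (h : killT D2 (Nat.pow D2 4) cs P n x b.l0 b.h0 b.l1 b.h1 b.l2 b.h2 b.l3 b.h3 b.l4 b.h4 = true)
    {v : Fin 6 → ℝ} (h5 : v 5 = 1) (hb : b.Mem D2 v) (hcs : ∀ c ∈ ds, 0 ≤ c.val v) :
    1 ≤ (D2 : ℝ) ^ 5 * (216 * m.val v - aeval v p) := by
  obtain ⟨hl0, hl1, hl2, hl3, hl4⟩ := hb.le
  have hDR : (0 : ℝ) < D2 := by exact_mod_cast hD
  unfold killT at h
  rw [Bool.and_eq_true, Nat.ble_eq, LL_eq] at h
  obtain ⟨hbias, hfin⟩ := h
  have hr2 := getC2_rel hr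
  obtain ⟨s0, s1, s2, s3, s4, s5⟩ := lam6 hr n x
  set a := cmb ds n x with ha
  set Bl := lamS C2.b cs n x with hBl
  have hbias' : P.b + Bl ≤ P.K := hbias
  obtain ⟨g, hg, hgX, hgv⟩ := hS.g
  set t : Fin 6 → ℝ := tv D2 b v with ht
  have ht5 : t 5 = 1 := rfl
  have hrho := sum_wt D2 b
  set ρ := rho D2 b with hρ
  have hD2ρ : D2 ≤ ρ := by
    have : ρ = D2 + 2 * b.h0 + 2 * b.h1 + 2 * b.h2 + 2 * b.h3 + (2 * b.h4 + 5) := rfl
    omega
  have hKρ : 6 * P.K * ρ ^ 5 ≤ 2 ^ aa - 1 :=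
    le_trans (Nat.mul_le_mul_left _ (Nat.pow_le_pow_left hR 5)) hsize
  have hDρ : D2 ^ 4 * ρ ≤ ρ ^ 5 := by
    have := Nat.mul_le_mul_right ρ (Nat.pow_le_pow_left hD2ρ 4)
    calc D2 ^ 4 * ρ ≤ ρ ^ 4 * ρ := this
      _ = ρ ^ 5 := by ring
  -- weights
  set w0 : Fin 6 → ℕ := ![2 * b.h0 + 1, 2 * b.h1 + 1, 2 * b.h2 + 1, 2 * b.h3 + 1, 2 * b.h4 + 1, 1]
    with hw0
  set w1 : Fin 6 → ℕ := ![2 * b.h0 + 1, 1, 2 * b.h2 + 1, 2 * b.h3 + 1, 2 * b.h4 + 1, 1] with hw1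
  set w2 : Fin 6 → ℕ := ![2 * b.h0 + 1, 1, 2 * b.h2 + 1, 1, 2 * b.h4 + 1, 1] with hw2
  set w3 : Fin 6 → ℕ := ![1, 1, 2 * b.h2 + 1, 1, 2 * b.h4 + 1, 1] with hw3
  set w4 : Fin 6 → ℕ := ![1, 1, 1, 1, 2 * b.h4 + 1, 1] with hw4
  set w5 : Fin 6 → ℕ := fun _ => 1 with hw5
  have p0 : ∀ j, 1 ≤ w0 j := by intro j; fin_cases j <;> simp [hw0]
  have p1 : ∀ j, 1 ≤ w1 j := by intro j; fin_cases j <;> simp [hw1]
  have p2 : ∀ j, 1 ≤ w2 j := by intro j; fin_cases j <;> simp [hw2]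
  have p3 : ∀ j, 1 ≤ w3 j := by intro j; fin_cases j <;> simp [hw3]
  have p4 : ∀ j, 1 ≤ w4 j := by intro j; fin_cases j <;> simp [hw4]
  -- the evaluation of `g` at the weights
  have hg0 : eval w0 g ≤ 2 * P.K * ρ ^ 5 + 2 * P.b * (D2 ^ 4 * ρ) := by
    have h1 := eval_cast g w0
    rw [hgv _ (by simp [hw0])] at h1
    set w : Fin 6 → ℝ := Function.update (fun k => ((w0 k : ℕ) : ℝ)) 5 (D2 : ℝ) with hw
    have e5 : w 5 = D2 := by rw [hw, Function.update_self]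
    have e : ∀ k : Fin 6, k ≠ 5 → w k = ((w0 k : ℕ) : ℝ) := fun k hk => by
      rw [hw, Function.update_of_ne hk]
    have hwn : ∀ k, 0 ≤ w k := by
      intro k
      by_cases hk : k = 5
      · subst hk; rw [e5]; positivity
      · rw [e k hk]; exact Nat.cast_nonneg _
    have hws : ∑ k, w k = ρ := by
      rw [Fin.sum_univ_six, e 0 (by decide), e 1 (by decide), e 2 (by decide), e 3 (by decide),
        e 4 (by decide), e5, hrho]
      simp [hw0]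
      ring
    have hwk : ∀ k, w k ≤ ρ := fun k => by
      rw [← hws]; exact single_le_sum (f := w) (fun i _ => hwn i) (mem_univ k)
    have h2 := aeval_le hS.hom hS.norm hwn
    rw [hws] at h1 h2
    have hρ0 : (0 : ℝ) ≤ ρ := Nat.cast_nonneg _
    have hmu : -(216 * m.val w) ≤ P.b * ρ := by
      have k : ∀ (z : ℤ) (y : ℝ), 0 ≤ y → y ≤ ρ → -((z : ℝ) * y) ≤ (z.natAbs : ℝ) * ρ := by
        intro z y h1 h2
        have e1 : ((z.natAbs : ℕ) : ℝ) = |(z : ℝ)| := by rw [Nat.cast_natAbs]; push_cast; rfl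
        rw [e1]
        have e2 : -((z : ℝ) * y) ≤ |(z : ℝ)| * y := by
          have := neg_abs_le (z : ℝ)
          nlinarith
        exact e2.trans (mul_le_mul_of_nonneg_left h2 (abs_nonneg _))
      have k0 := k m.a0 (w 0) (hwn 0) (hwk 0)
      have k1 := k m.a1 (w 1) (hwn 1) (hwk 1)
      have k2 := k m.a2 (w 2) (hwn 2) (hwk 2)
      have k3 := k m.a3 (w 3) (hwn 3) (hwk 3)
      have k4 := k m.a4 (w 4) (hwn 4) (hwk 4)
      have k5 := k m.a5 (w 5) (hwn 5) (hwk 5)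
      have kb : (216 : ℝ) * (m.a0.natAbs + m.a1.natAbs + m.a2.natAbs + m.a3.natAbs + m.a4.natAbs +
        m.a5.natAbs) ≤ P.b := by exact_mod_cast hS.mu
      have kc := mul_le_mul_of_nonneg_right kb hρ0
      unfold V6.val
      nlinarith [k0, k1, k2, k3, k4, k5, kc]
    have hD4 : (0 : ℝ) ≤ (D2 : ℝ) ^ 4 := by positivity
    have h3 : ((eval w0 g : ℕ) : ℝ) ≤ ((2 * P.K * ρ ^ 5 + 2 * P.b * (D2 ^ 4 * ρ) : ℕ) : ℝ) := by
      rw [h1]
      push_cast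
      have := mul_le_mul_of_nonneg_left hmu hD4
      nlinarith [h2, this]
    exact_mod_cast h3
  -- bound of the combination
  have hF2 : eval w2 (FS D2 b cs n x) ≤ 2 * Bl * ρ := by
    have h1 := eval_cast (FS D2 b cs n x) w2
    rw [aeval_FS] at h1
    have L0 := lamS_le (fun i => (hr2 i).u0) n x
    have L1 := lamS_le (fun i => (hr2 i).u1) n x
    have L2 := lamS_le (fun i => (hr2 i).u2) n x
    have L3 := lamS_le (fun i => (hr2 i).u3) n x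
    have L4 := lamS_le (fun i => (hr2 i).u4) n x
    have L5 := lamS_le (fun i => (hr2 i).u5) n x
    have e1 : aeval (fun k => ((w2 k : ℕ) : ℝ)) (lx 1 b.l1 b.h1) = 2 * (b.h1 : ℝ) := by
      rw [aeval_lx]
      have : ((Nat.add b.l1 b.h1 : ℕ) : ℝ) + ((Nat.sub b.h1 b.l1 : ℕ) : ℝ) = 2 * (b.h1 : ℝ) := by
        exact_mod_cast cr_le hl1
      simp only [hw2]
      simpa using this
    have e3 : aeval (fun k => ((w2 k : ℕ) : ℝ)) (lx 3 b.l3 b.h3) = 2 * (b.h3 : ℝ) := by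
      rw [aeval_lx]
      have : ((Nat.add b.l3 b.h3 : ℕ) : ℝ) + ((Nat.sub b.h3 b.l3 : ℕ) : ℝ) = 2 * (b.h3 : ℝ) := by
        exact_mod_cast cr_le hl3
      simp only [hw2]
      simpa using this
    rw [e1, e3] at h1
    have q0 : w2 0 = 2 * b.h0 + 1 := rfl
    have q2 : w2 2 = 2 * b.h2 + 1 := rfl
    have q4 : w2 4 = 2 * b.h4 + 1 := rfl
    have q5 : w2 5 = 1 := rfl
    rw [q0, q2, q4, q5] at h1
    have h2 : eval w2 (FS D2 b cs n x) = lamS C2.A0 cs n x * (2 * b.h0 + 1) +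
        lamS C2.A2 cs n x * (2 * b.h2 + 1) + lamS C2.A4 cs n x * (2 * b.h4 + 1) +
        lamS C2.A5 cs n x * (D2 * 1) + lamS C2.A1 cs n x * (2 * b.h1) +
        lamS C2.A3 cs n x * (2 * b.h3) := by
      have : ((eval w2 (FS D2 b cs n x) : ℕ) : ℝ) = ((lamS C2.A0 cs n x * (2 * b.h0 + 1) +
        lamS C2.A2 cs n x * (2 * b.h2 + 1) + lamS C2.A4 cs n x * (2 * b.h4 + 1) +
        lamS C2.A5 cs n x * (D2 * 1) + lamS C2.A1 cs n x * (2 * b.h1) +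
        lamS C2.A3 cs n x * (2 * b.h3) : ℕ) : ℝ) := by
        rw [h1]; push_cast; ring
      exact_mod_cast this
    rw [h2]
    have hρ' : ρ = D2 + 2 * b.h0 + 2 * b.h1 + 2 * b.h2 + 2 * b.h3 + (2 * b.h4 + 5) := rfl
    have m0 := Nat.mul_le_mul_right (2 * b.h0 + 1) L0
    have m1 := Nat.mul_le_mul_right (2 * b.h1) L1
    have m2 := Nat.mul_le_mul_right (2 * b.h2 + 1) L2
    have m3 := Nat.mul_le_mul_right (2 * b.h3) L3
    have m4 := Nat.mul_le_mul_right (2 * b.h4 + 1) L4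
    have m5 := Nat.mul_le_mul_right (D2 * 1) L5
    calc _ ≤ 2 * Bl * (2 * b.h0 + 1) + 2 * Bl * (2 * b.h2 + 1) + 2 * Bl * (2 * b.h4 + 1) +
          2 * Bl * (D2 * 1) + 2 * Bl * (2 * b.h1) + 2 * Bl * (2 * b.h3) := by
          rw [hBl]; omega
      _ = 2 * Bl * (D2 + 2 * b.h0 + 2 * b.h1 + 2 * b.h2 + 2 * b.h3 + (2 * b.h4 + 3)) := by ring
      _ ≤ 2 * Bl * ρ := by
        apply Nat.mul_le_mul_left
        rw [hρ']; omega
  have haa : (2 : ℕ) ^ aa - 1 < 2 ^ bb :=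
    lt_of_le_of_lt (Nat.sub_le _ _) (Nat.pow_lt_pow_right (by norm_num) (by decide))
  -- the total bound
  have htot : 2 * P.K * ρ ^ 5 + 2 * P.b * (D2 ^ 4 * ρ) + D2 ^ 4 * (2 * Bl * ρ) ≤ 4 * P.K * ρ ^ 5 := by
    have h1 : 2 * P.b * (D2 ^ 4 * ρ) + D2 ^ 4 * (2 * Bl * ρ) = 2 * (P.b + Bl) * (D2 ^ 4 * ρ) := by ring
    have h2 : 2 * (P.b + Bl) * (D2 ^ 4 * ρ) ≤ 2 * P.K * ρ ^ 5 :=
      Nat.mul_le_mul (Nat.mul_le_mul_left 2 hbias') hDρ
    have h3 : 2 * P.K * ρ ^ 5 + 2 * P.K * ρ ^ 5 = 4 * P.K * ρ ^ 5 := by ring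
    omega
  have h4K : 4 * P.K * ρ ^ 5 ≤ 6 * P.K * ρ ^ 5 :=
    Nat.mul_le_mul_right _ (Nat.mul_le_mul_right _ (by norm_num))
  have hlt0 : eval w0 g < 2 ^ bb := by omega
  -- the stages
  obtain ⟨z1, t1⟩ := stage2 V1_ok (by decide) hl1 (w := w0) (w' := w1) p0 rfl rfl
    (by simp [hw0]) (by intro j hj; fin_cases j <;> simp [hw0, hw1] at hj ⊢) hg hlt0
  set g1 := subst 1 (lx 1 b.l1 b.h1) g with hg1
  have hh1 : g1.IsHomogeneous 5 := hom_subst 1 (hom_lx _ _ _) _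
  obtain ⟨z3, t3⟩ := stage2 V3_ok (by decide) hl3 (w := w1) (w' := w2) p1 rfl rfl
    (by simp [hw1]) (by intro j hj; fin_cases j <;> simp [hw1, hw2] at hj ⊢) hh1
    (lt_of_le_of_lt t1 hlt0)
  set g2 := subst 3 (lx 3 b.l3 b.h3) g1 with hg2
  have hh2 : g2.IsHomogeneous 5 := hom_subst 3 (hom_lx _ _ _) _
  set g3 := g2 + C (D2 ^ 4) * (FS D2 b cs n x * X 5 ^ 4) with hg3
  have hhF : (C (D2 ^ 4) * (FS D2 b cs n x * X 5 ^ 4) : MvPolynomial (Fin 6) ℕ).IsHomogeneous 5 :=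
    ((hom_FS D2 b cs n x).mul ((hom_XN 5).pow 4)).C_mul (D2 ^ 4)
  have hh3 : g3.IsHomogeneous 5 := hh2.add hhF
  have hg3bd : eval w2 g3 ≤ 4 * P.K * ρ ^ 5 := by
    rw [hg3, map_add, map_mul (eval w2), map_mul (eval w2), map_pow (eval w2), eval_X, eval_C]
    have q5 : w2 5 = 1 := rfl
    rw [q5, one_pow, mul_one]
    have := Nat.mul_le_mul_left (D2 ^ 4) hF2
    omega
  obtain ⟨z0, t0⟩ := stage2 V0_ok (by decide) hl0 (w := w2) (w' := w3) p2 rfl rfl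
    (by simp [hw2]) (by intro j hj; fin_cases j <;> simp [hw2, hw3] at hj ⊢) hh3
    (by omega)
  set g4 := subst 0 (lx 0 b.l0 b.h0) g3 with hg4
  have hh4 : g4.IsHomogeneous 5 := hom_subst 0 (hom_lx _ _ _) _
  obtain ⟨z2, t2⟩ := stage2 V2_ok (by decide) hl2 (w := w3) (w' := w4) p3 rfl rfl
    (by simp [hw3]) (by intro j hj; fin_cases j <;> simp [hw3, hw4] at hj ⊢) hh4
    (by omega)
  set g5 := subst 2 (lx 2 b.l2 b.h2) g4 with hg5
  have hh5 : g5.IsHomogeneous 5 := hom_subst 2 (hom_lx _ _ _) _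
  obtain ⟨z4, t4⟩ := stage2 V4_ok (by decide) hl4 (w := w4) (w' := w5) p4 rfl rfl
    (by simp [hw4]) (by intro j hj; fin_cases j <;> simp [hw4, hw5] at hj ⊢) hh5
    (by omega)
  set g6 := subst 4 (lx 4 b.l4 b.h4) g5 with hg6
  have hh6 : g6.IsHomogeneous 5 := hom_subst 4 (hom_lx _ _ _) _
  have hX6 : diag V4 (Nat.add b.l4 b.h4) (Nat.sub b.h4 b.l4) (diag V2 (Nat.add b.l2 b.h2)
      (Nat.sub b.h2 b.l2) (diag V0 (Nat.add b.l0 b.h0) (Nat.sub b.h0 b.l0)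
      (Nat.add (diagA P.X b.l1 b.h1 b.l3 b.h3) (Nat.mul (Nat.pow D2 4)
      (lamS (fun c => Nat.add (Nat.add c.B (Nat.mul c.A1 (UU b.l1 b.h1 X1)))
        (Nat.mul c.A3 (UU b.l3 b.h3 X3))) cs n x))))) = pk g6 := by
    have e1 : Nat.add (diagA P.X b.l1 b.h1 b.l3 b.h3) (Nat.mul (Nat.pow D2 4)
      (lamS (fun c => Nat.add (Nat.add c.B (Nat.mul c.A1 (UU b.l1 b.h1 X1)))
        (Nat.mul c.A3 (UU b.l3 b.h3 X3))) cs n x)) = pk g3 := by
      rw [hg3, pk_add, pk_mul, pk_mul, pk_pow, pk_C, pkX 5 X5_eq, one_pow, mul_one, pk_FS b hr]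
      unfold diagA
      rw [← hgX, z1, z3]
      rfl
    rw [e1, z0, z2, z4]
  have hg6one : eval (fun _ => 1) g6 ≤ 4 * P.K * ρ ^ 5 := t4.trans (t2.trans (t0.trans hg3bd))
  -- the polynomial to be tested
  set T : MvPolynomial (Fin 6) ℤ := cst g6 - sumP D2 b * (C (P.K : ℤ) * sumP D2 b ^ 4 +
    C ((D2 ^ 4 * (P.b + Bl) : ℕ) : ℤ) * X 5 ^ 4) with hT
  have hsp4 : (sumP D2 b ^ 4).IsHomogeneous 4 := by
    have := (hom_sumP D2 b).pow 4
    simpa using this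
  have hx4 : (X 5 ^ 4 : MvPolynomial (Fin 6) ℤ).IsHomogeneous 4 := by
    have := (hom_X 5).pow 4
    simpa using this
  have hThom : T.IsHomogeneous 5 :=
    (hom_cst hh6).sub ((hom_sumP D2 b).mul ((hsp4.C_mul _).add (hx4.C_mul _)))
  have hsb := bd_sumP D2 hl0 hl1 hl2 hl3 hl4
  have hTbd : Bd T (2 ^ aa - 1) := by
    refine ((bd_cst g6 hg6one).sub (hsb.mul (((Bd.C (S := P.K) (P.K : ℤ) (by simp)).mul
      (hsb.pow 4)).add ((Bd.C (S := D2 ^ 4 * (P.b + Bl))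
        (((D2 ^ 4 * (P.b + Bl) : ℕ) : ℤ)) (by rw [abs_of_nonneg (Int.natCast_nonneg _)])).mul
        ((Bd.X 5).pow 4))))).mono ?_
    have e1 : rho D2 b * (P.K * rho D2 b ^ 4 + D2 ^ 4 * (P.b + Bl) * 1 ^ 4) =
        P.K * ρ ^ 5 + (P.b + Bl) * (D2 ^ 4 * ρ) := by rw [hρ]; ring
    have e2 : (P.b + Bl) * (D2 ^ 4 * ρ) ≤ P.K * ρ ^ 5 := Nat.mul_le_mul hbias' hDρ
    have e3 : 4 * P.K * ρ ^ 5 + (P.K * ρ ^ 5 + P.K * ρ ^ 5) = 6 * P.K * ρ ^ 5 := by ring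
    rw [e1]
    omega
  have hTc : ∀ m, |coeff m T| < 2 ^ aa := lt_aa hTbd (by
    have : 0 < 2 ^ aa := by positivity
    omega)
  have hTs : ∑ m ∈ Ix, (coeff m T).natAbs < 2 ^ bb - 1 := by
    refine lt_of_le_of_lt (sum_natAbs_lt Ix (hTbd.sum_le Ix)) ?_
    have h1 : (2 : ℕ) ^ bb = 2 * 2 ^ aa := by rw [bb_eq, pow_succ]; ring
    have h2 : 1 < 2 ^ aa := Nat.one_lt_two_pow (by decide)
    omega
  have hZ : leafZ (Nat.pow D2 4) P (diagA P.X b.l1 b.h1 b.l3 b.h3)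
      (lamS (fun c => Nat.add (Nat.add c.B (Nat.mul c.A1 (UU b.l1 b.h1 X1)))
        (Nat.mul c.A3 (UU b.l3 b.h3 X3))) cs n x) (Nat.add P.b Bl) (lsum D2 b)
      b.l0 b.h0 b.l2 b.h2 b.l4 b.h4 = (pk T + ((cOff : ℕ) : ℤ)).toNat := by
    unfold leafZ
    rw [hX6]
    symm
    apply toNat_sub2
    rw [hT, pk_sub', pk_mul, pk_add, pk_mul, pk_mul, pk_C, pk_C, pk_pow, pk_pow, pk_cst, pk_sumP,
      ← XI_eq X5_eq]
    change _ = ((cOff + pk g6 : ℕ) : ℤ) - ((lsum D2 b * (P.K * lsum D2 b ^ 4 +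
      D2 ^ 4 * (P.b + Bl)) : ℕ) : ℤ)
    push_cast
    ring
  have hfin' : posPart aa cOff (pk T + (cOff : ℤ)).toNat % (2 ^ bb - 1) +
      Nat.land (posPart aa cOff (Nat.sub (Nat.mul 2 cOff) (pk T + (cOff : ℤ)).toNat)) cOdd %
        (2 ^ bb - 1) + 1 ≤
      posPart aa cOff (Nat.sub (Nat.mul 2 cOff) (pk T + (cOff : ℤ)).toNat) % 2 ^ bb := by
    rw [hZ] at hfin
    unfold final2 at hfin
    rw [Nat.ble_eq, bbm, land_mask] at hfin
    exact hfin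
  have htle : ∀ i, |t i| ≤ 1 := by
    intro i
    fin_cases i
    · exact tc_abs hb.l0 hb.h0
    · exact tc_abs hb.l1 hb.h1
    · exact tc_abs hb.l2 hb.h2
    · exact tc_abs hb.l3 hb.h3
    · exact tc_abs hb.l4 hb.h4
    · simp [ht, tv]
  have hle := final_test2 hThom off_ok hTc hTs cOdd_eq hfin' htle ht5
  -- the value of `T`
  have e0 := tc_eq hb.l0 hb.h0
  have e1 := tc_eq hb.l1 hb.h1
  have e2 := tc_eq hb.l2 hb.h2
  have e3 := tc_eq hb.l3 hb.h3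
  have e4 := tc_eq hb.l4 hb.h4
  have q0 : t 0 = tc b.l0 b.h0 (D2 * v 0) := rfl
  have q1 : t 1 = tc b.l1 b.h1 (D2 * v 1) := rfl
  have q2 : t 2 = tc b.l2 b.h2 (D2 * v 2) := rfl
  have q3 : t 3 = tc b.l3 b.h3 (D2 * v 3) := rfl
  have q4 : t 4 = tc b.l4 b.h4 (D2 * v 4) := rfl
  set u4 : Fin 6 → ℝ := Function.update t 4 (D2 * v 4) with hu4
  set u2 : Fin 6 → ℝ := Function.update u4 2 (D2 * v 2) with hu2
  set u0 : Fin 6 → ℝ := Function.update u2 0 (D2 * v 0) with hu0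
  set u3 : Fin 6 → ℝ := Function.update u0 3 (D2 * v 3) with hu3
  set u1 : Fin 6 → ℝ := Function.update u3 1 (D2 * v 1) with hu1
  have a4 : aeval t g6 = aeval u4 g5 := by
    rw [hg6, aeval_subst 4 _ _ hh5, aeval_lx, ht5, mul_one, q4, e4]
  have a2 : aeval u4 g5 = aeval u2 g4 := by
    have z5 : u4 5 = 1 := ht5
    have z : u4 2 = tc b.l2 b.h2 (D2 * v 2) := q2
    rw [hg5, aeval_subst 2 _ _ hh4, aeval_lx, z5, mul_one, z, e2]
  have a0 : aeval u2 g4 = aeval u0 g3 := by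
    have z5 : u2 5 = 1 := ht5
    have z : u2 0 = tc b.l0 b.h0 (D2 * v 0) := q0
    rw [hg4, aeval_subst 0 _ _ hh3, aeval_lx, z5, mul_one, z, e0]
  have a3 : aeval u0 g2 = aeval u3 g1 := by
    have z5 : u0 5 = 1 := ht5
    have z : u0 3 = tc b.l3 b.h3 (D2 * v 3) := q3
    rw [hg2, aeval_subst 3 _ _ hh1, aeval_lx, z5, mul_one, z, e3]
  have a1 : aeval u3 g1 = aeval u1 g := by
    have z5 : u3 5 = 1 := ht5
    have z : u3 1 = tc b.l1 b.h1 (D2 * v 1) := q1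
    rw [hg1, aeval_subst 1 _ _ hg, aeval_lx, z5, mul_one, z, e1]
  have hvec : Function.update u1 5 (D2 : ℝ) = fun k => (D2 : ℝ) * v k := by
    funext k
    fin_cases k
    · rfl
    · rfl
    · rfl
    · rfl
    · rfl
    · change (D2 : ℝ) = D2 * v 5
      rw [h5, mul_one]
  have hFv : aeval u0 (FS D2 b cs n x) = D2 * a.val v +
      Bl * (D2 * v 0 + D2 * v 1 + D2 * v 2 + D2 * v 3 + D2 * v 4 + D2 * v 5) := by
    rw [aeval_FS, aeval_lx, aeval_lx]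
    have z5 : u0 5 = 1 := ht5
    have y1 : u0 1 = tc b.l1 b.h1 (D2 * v 1) := q1
    have y3 : u0 3 = tc b.l3 b.h3 (D2 * v 3) := q3
    have y0 : u0 0 = D2 * v 0 := rfl
    have y2 : u0 2 = D2 * v 2 := rfl
    have y4 : u0 4 = D2 * v 4 := rfl
    rw [z5, y1, y3, y0, y2, y4, mul_one, mul_one, mul_one, e1, e3]
    have r0 : ((lamS C2.A0 cs n x : ℕ) : ℝ) = a.a0 + Bl := by exact_mod_cast s0
    have r1 : ((lamS C2.A1 cs n x : ℕ) : ℝ) = a.a1 + Bl := by exact_mod_cast s1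
    have r2 : ((lamS C2.A2 cs n x : ℕ) : ℝ) = a.a2 + Bl := by exact_mod_cast s2
    have r3 : ((lamS C2.A3 cs n x : ℕ) : ℝ) = a.a3 + Bl := by exact_mod_cast s3
    have r4 : ((lamS C2.A4 cs n x : ℕ) : ℝ) = a.a4 + Bl := by exact_mod_cast s4
    have r5 : ((lamS C2.A5 cs n x : ℕ) : ℝ) = a.a5 + Bl := by exact_mod_cast s5
    rw [r0, r1, r2, r3, r4, r5]
    unfold V6.val
    rw [h5]
    ring
  have hg3v : aeval u0 g3 = aeval u0 g2 + (D2 : ℝ) ^ 4 * aeval u0 (FS D2 b cs n x) := by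
    have z5 : u0 5 = 1 := ht5
    rw [hg3, map_add (aeval u0), map_mul (aeval u0), map_mul (aeval u0), map_pow (aeval u0),
      aeval_X, z5, one_pow, mul_one, aeval_C, eq_natCast]
    push_cast
    ring
  have hmv : m.val (fun k => (D2 : ℝ) * v k) = D2 * m.val v := by
    unfold V6.val
    ring
  have hg6v : aeval t (cst g6) = (D2 : ℝ) ^ 5 * aeval v p +
      P.K * (D2 * v 0 + D2 * v 1 + D2 * v 2 + D2 * v 3 + D2 * v 4 + D2 * v 5) ^ 5 +
      (D2 : ℝ) ^ 4 * (P.b * (D2 * v 0 + D2 * v 1 + D2 * v 2 + D2 * v 3 + D2 * v 4 + D2 * v 5) -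
        216 * (D2 * m.val v)) + (D2 : ℝ) ^ 4 * (D2 * a.val v +
      Bl * (D2 * v 0 + D2 * v 1 + D2 * v 2 + D2 * v 3 + D2 * v 4 + D2 * v 5)) := by
    have z5 : u1 5 = 1 := ht5
    rw [aeval_cst, a4, a2, a0, hg3v, a3, a1, hgv u1 z5, hvec, aeval_smul hS.hom, Fin.sum_univ_six,
      hFv, hmv]
  have hsumv : aeval t (sumP D2 b) = D2 * v 0 + D2 * v 1 + D2 * v 2 + D2 * v 3 + D2 * v 4 + D2 * v 5 := by
    unfold sumP
    simp only [map_add, map_mul, aeval_X, q0, q1, q2, q3, q4, ht5]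
    simp only [eq_intCast, map_natCast, Int.cast_natCast, mul_one, MvPolynomial.algHom_C]
    rw [h5]
    push_cast
    linarith [e0, e1, e2, e3, e4]
  have hTv : aeval t T = (D2 : ℝ) ^ 5 * (aeval v p - 216 * m.val v + a.val v) := by
    have hC : ∀ z : ℤ, aeval t (C z : MvPolynomial (Fin 6) ℤ) = (z : ℝ) := by
      intro z; rw [aeval_C, eq_intCast]
    rw [hT, map_sub, map_mul, map_add, map_mul, map_mul, map_pow, map_pow, hC, hC, hg6v, hsumv,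
      aeval_X, ht5]
    push_cast
    ring
  rw [hTv] at hle
  have h7 := cmb_val hcs n x
  rw [← ha] at h7
  have h8 := mul_nonneg (pow_nonneg hDR.le 5) h7
  have h9 : (D2 : ℝ) ^ 5 * (aeval v p - 216 * m.val v + a.val v) =
      -((D2 : ℝ) ^ 5 * (216 * m.val v - aeval v p)) + (D2 : ℝ) ^ 5 * a.val v := by ring
  rw [h9] at hle
  linarith

end Pool.Agent.Helper5.B54
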