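import Pool.Agent.Helper5.B54v2.Rec2

/-!
# Meaning of a prepared dual vector, second format
-/

namespace Pool.Agent.Helper5.B54

open Finset MvPolynomial Pool.Agent.Helper65.B54

theorem toNat_sub2 {z : ℤ} {a b : ℕ} (h : z = (a : ℤ) - (b : ℤ)) : z.toNat = Nat.sub a b := by
  rw [h]
  exact Int.toNat_sub a b

theorem mulX_eq (f0 f1 f2 f3 f4 f5 : ℕ) : mulX f0 f1 f2 f3 f4 f5 =
    Nat.pow XS 4 * (f0 * X0 + f1 * X1 + f2 * X2 + f3 * X3 + f4 * X4 + f5) := by
  unfold mulX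
  rw [X0_shl, X1_shl, X2_shl, X3_shl, X4_shl]
  change f0 * (XS4 * X0) + f1 * (XS4 * X1) + (f2 * (XS4 * X2) + f3 * (XS4 * X3)) +
    (f4 * (XS4 * X4) + f5 * XS4) = XS4 * _
  ring

theorem XS5_eq : XS5 = Nat.pow XS 4 * XS := by
  unfold XS5
  change XS ^ 5 = XS ^ 4 * XS
  ring

variable {prev : List Facet} {F : Facet}

theorem V2n_eq (prev : List Facet) (F : Facet) (x : ℕ) :
    V2n (cuts3 prev F) x = dualV prev F (dualOf x) := by
  unfold dualV V2n
  symm
  apply toNat_sub2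
  have e1 : sumW2 (cuts3 prev F) x = sumW prev F (dualOf x).ys := sumW2_eq prev F _ _
  rw [e1]
  have e2 : packI (dualOf x).mu = ((mf x 0 * X0 + mf x 1 * X1 + mf x 2 * X2 + mf x 3 * X3 +
      mf x 4 * X4 + mf x 5 : ℕ) : ℤ) - 2147483648 * (XS : ℤ) := by
    rw [packI_exp, XS_exp]
    unfold dualOf
    simp only
    push_cast
    ring
  generalize sumW prev F (dualOf x).ys = w
  change (Nat.pow XS 4 : ℤ) * packI (dualOf x).mu - (w : ℤ) + (cOff : ℤ) = ((mulX _ _ _ _ _ _ + cOff : ℕ) : ℤ)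
    - ((w + 2147483648 * XS5 : ℕ) : ℤ)
  rw [e2, mulX_eq, XS5_eq]
  push_cast
  ring

theorem N2_eq (prev : List Facet) (F : Facet) (x : ℕ) :
    ((N2p (cuts3 prev F) x : ℕ) : ℤ) - ((N2n (cuts3 prev F) x : ℕ) : ℤ) =
      dualN prev F (dualOf x) := by
  unfold N2p N2n dualN
  rw [V2n_eq]
  generalize (Nat.land (posPart 143 cOff (dualV prev F (dualOf x))) cAllowed) = u
  have e1 : ((sumH2 (cuts3 prev F) x : ℕ) : ℤ) = sumH prev F (dualOf x).ys +
      ((sumB2 (cuts3 prev F) x : ℕ) : ℤ) := sumH2_eq prev F _ _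
  change ((625 * (sumH2 (cuts3 prev F) x + u) : ℕ) : ℤ) - ((625 * sumB2 (cuts3 prev F) x : ℕ) : ℤ) =
    625 * (sumH prev F (dualOf x).ys + (u : ℤ))
  push_cast
  rw [e1]
  ring

/-! ### the forms behind the two parts -/

/-- `sum Y H` with biased `H` -/
noncomputable def fH (cs : List C3) : ℕ → ℕ → MvPolynomial (Fin 6) ℕ
  | 0, _ => 0
  | m + 1, y => quart (yv y) * (getC3 cs (Nat.land y 63)).HN.poly + fH cs m (yr y)

/-- `sum Y h (sum X)` -/
noncomputable def fB (cs : List C3) : ℕ → ℕ → MvPolynomial (Fin 6) ℕ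
  | 0, _ => 0
  | m + 1, y => quart (yv y) * (C (getC3 cs (Nat.land y 63)).h * ∑ k, X k) + fB cs m (yr y)

theorem fH_succ (cs : List C3) (m y : ℕ) : fH cs (m + 1) y =
    quart (yv y) * (getC3 cs (Nat.land y 63)).HN.poly + fH cs m (yr y) := rfl
theorem fB_succ (cs : List C3) (m y : ℕ) : fB cs (m + 1) y =
    quart (yv y) * (C (getC3 cs (Nat.land y 63)).h * ∑ k, X k) + fB cs m (yr y) := rfl

theorem hom_sumXN : (∑ k, X k : MvPolynomial (Fin 6) ℕ).IsHomogeneous 1 :=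
  IsHomogeneous.sum _ _ _ fun _ _ => isHomogeneous_X _ _

theorem hom_fH (cs : List C3) : ∀ m y, (fH cs m y).IsHomogeneous 5
  | 0, _ => isHomogeneous_zero _ _ _
  | m + 1, y => ((quart_hom _).mul (hom_lin _)).add (hom_fH cs m _)

theorem hom_fB (cs : List C3) : ∀ m y, (fB cs m y).IsHomogeneous 5
  | 0, _ => isHomogeneous_zero _ _ _
  | m + 1, y => ((quart_hom _).mul (hom_sumXN.C_mul _)).add (hom_fB cs m _)

theorem pk_fH (cs : List C3) : ∀ m y, yOk m y = true →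
    yF (fun i y => hT (getC3 cs i) y) m y = pk (fH cs m y)
  | 0, _, _ => by simp [fH, pk, yF]
  | m + 1, y, h => by
    rw [yOk_succ, Bool.and_eq_true, Nat.beq_eq] at h
    rw [yF_succ, pk_fH cs m _ h.2, fH_succ, pk_add, pk_mul, pk_quart h.1, ← packN_eq, hT_pack]

theorem pk_fB (cs : List C3) : ∀ m y, yOk m y = true →
    yF (fun i y => bT (getC3 cs i) y) m y = pk (fB cs m y)
  | 0, _, _ => by simp [fB, pk, yF]
  | m + 1, y, h => by
    rw [yOk_succ, Bool.and_eq_true, Nat.beq_eq] at h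
    rw [yF_succ, pk_fB cs m _ h.2, fB_succ, pk_add, pk_mul, pk_mul, pk_C, pk_quart h.1, ← XS_eq, bT_eq]

theorem cst_sumX : cst (∑ k, X k) = ∑ k, X k := by
  rw [cst_sum]; exact sum_congr rfl fun k _ => cst_X k

theorem cst_HN (prev : List Facet) (F : Facet) (i : ℕ) :
    cst (getC3 (cuts3 prev F) i).HN.poly = (cutH prev F (cutOf i)).poly +
      C ((getC3 (cuts3 prev F) i).h : ℤ) * ∑ k, X k := by
  rw [cst_N6]
  unfold V6.poly
  rw [mul_sum, ← sum_add_distrib]
  refine sum_congr rfl fun k _ => ?_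
  rw [cut3H, C_add]
  ring

theorem cst_zero : cst 0 = 0 := by unfold cst; simp

theorem cst_fH (prev : List Facet) (F : Facet) : ∀ m y,
    cst (fH (cuts3 prev F) m y) - cst (fB (cuts3 prev F) m y) = polyH prev F (ysOf m y)
  | 0, _ => by
    unfold fH fB ysOf polyH
    rw [cst_zero, sub_zero]
  | m + 1, y => by
    have ih := cst_fH prev F m (yr y)
    rw [fH_succ, fB_succ]
    unfold ysOf polyH
    rw [cst_add, cst_add, cst_mul, cst_mul, cst_mul, cst_C, cst_sumX, cst_HN, ← ih, ← yv_eq]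
    ring

theorem fn_le {v : N6} {S : ℕ} (h : ∀ k, v.fn k ≤ S) :
    eval (fun _ => (1 : ℕ)) v.poly ≤ 6 * S := by
  unfold N6.poly
  rw [map_sum]
  calc ∑ k, eval (fun _ => 1) (C (v.fn k) * X k) ≤ ∑ _k : Fin 6, S := by
        refine sum_le_sum fun k _ => ?_
        rw [map_mul, eval_C, eval_X, mul_one]
        exact h k
    _ = 6 * S := by simp

theorem quart_one (N : ℕ) : eval (fun _ => 1) (quart N) ≤ 126 * 2 ^ 40 := by
  rw [eval_eq_sum (quart N) (support_of_hom (quart_hom N))]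
  calc ∑ m ∈ IxN 4, coeff m (quart N) * mon (fun _ => 1) m ≤ ∑ m ∈ IxN 4, 2 ^ 40 := by
        refine sum_le_sum fun m _ => ?_
        rw [coeff_quart]
        have : mon (fun _ : Fin 6 => (1 : ℕ)) m = 1 := by simp [mon]
        rw [this, mul_one]
        have h2 : N / 2 ^ (bb * pos m) % 2 ^ 40 ≤ 2 ^ 40 := (Nat.mod_lt _ (by positivity)).le
        split_ifs <;> omega
    _ = 126 * 2 ^ 40 := by rw [sum_const, card_IxN4, smul_eq_mul]

theorem cuts_le {prev : List Facet} {F : Facet} (hp : facsOk prev = true) (hF : F.small = true)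
    (i : ℕ) : (∀ k, (getC3 (cuts3 prev F) i).HN.fn k ≤ 4194304) ∧
      (getC3 (cuts3 prev F) i).h ≤ 4194304 := by
  match i with
  | 0 => exact ⟨fun k => by fin_cases k <;> exact Nat.le_of_ble_eq_true rfl,
      Nat.le_of_ble_eq_true rfl⟩
  | 1 => exact ⟨fun k => by fin_cases k <;> exact Nat.le_of_ble_eq_true rfl,
      Nat.le_of_ble_eq_true rfl⟩
  | 2 =>
    obtain ⟨h1, h2, h3, -, -, -⟩ := small_spec hF
    refine ⟨fun k => ?_, Nat.zero_le _⟩
    fin_cases k
    · show 0 + F.wA ≤ _; omega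
    · show 0 ≤ _; omega
    · show 0 + F.wC ≤ _; omega
    · show 0 ≤ _; omega
    · show 0 + F.wD ≤ _; omega
    · show 0 ≤ _; omega
  | j + 3 =>
    have h1 : getC3 (cuts3 prev F) (j + 3) = getC3 (prev.map Facet.c3) j := rfl
    rw [h1, getC3_map]
    have hG := getD_small hp j
    generalize prev.getD j zeroF = G at hG
    obtain ⟨s1, s2, s3, s4, s5, s6⟩ := small_spec hG
    have hh : G.hb = (-(G.m0 + G.ma)).toNat + (-(G.m0 + G.mg)).toNat + (-G.m0).toNat := rfl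
    have hb : G.hb ≤ 1310720 := by omega
    refine ⟨fun k => ?_, by show G.hb ≤ _; omega⟩
    fin_cases k
    · show ((G.m0 + G.ma + (G.hb : ℤ)).toNat + 0 : ℕ) ≤ _; omega
    · show ((G.m0 + G.ma + (G.hb : ℤ)).toNat : ℕ) ≤ _; omega
    · show ((G.m0 + G.mg + (G.hb : ℤ)).toNat + 0 : ℕ) ≤ _; omega
    · show ((G.m0 + G.mg + (G.hb : ℤ)).toNat : ℕ) ≤ _; omega
    · show ((G.m0 + (G.hb : ℤ)).toNat + 0 : ℕ) ≤ _; omega
    · show ((G.m0 + (G.hb : ℤ)).toNat : ℕ) ≤ _; omega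

theorem one_fH {prev : List Facet} {F : Facet} (hp : facsOk prev = true) (hF : F.small = true) :
    ∀ m y, eval (fun _ => 1) (fH (cuts3 prev F) m y) ≤ m * (126 * 2 ^ 40 * (6 * 4194304))
  | 0, _ => by unfold fH; simp
  | m + 1, y => by
    have ih := one_fH hp hF m (yr y)
    rw [fH_succ, map_add, map_mul]
    have := Nat.mul_le_mul (quart_one (yv y)) (fn_le (cuts_le hp hF (Nat.land y 63)).1)
    rw [Nat.succ_mul]
    omega

theorem one_fB {prev : List Facet} {F : Facet} (hp : facsOk prev = true) (hF : F.small = true) :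
    ∀ m y, eval (fun _ => 1) (fB (cuts3 prev F) m y) ≤ m * (126 * 2 ^ 40 * (6 * 4194304))
  | 0, _ => by unfold fB; simp
  | m + 1, y => by
    have ih := one_fB hp hF m (yr y)
    rw [fB_succ, map_add, map_mul]
    have h1 : eval (fun _ => (1 : ℕ)) (C (getC3 (cuts3 prev F) (Nat.land y 63)).h * ∑ k, X k :
        MvPolynomial (Fin 6) ℕ) ≤ 6 * 4194304 := by
      rw [map_mul, eval_C, map_sum]
      simp only [eval_X, sum_const, card_univ, Fintype.card_fin, smul_eq_mul, mul_one]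
      have := (cuts_le hp hF (Nat.land y 63)).2
      omega
    have := Nat.mul_le_mul (quart_one (yv y)) h1
    rw [Nat.succ_mul]
    omega

/-! ### substitution in a difference -/

theorem cst_part (i : Fin 6) (j : ℕ) (p : MvPolynomial (Fin 6) ℕ) :
    cst (part 5 i j p) = part 5 i j (cst p) := by
  unfold part
  rw [cst_sum]
  refine sum_congr rfl fun m _ => ?_
  rw [coeff_cst]
  unfold cst
  rw [map_monomial]
  simp

theorem part_sub (i : Fin 6) (j : ℕ) (p q : MvPolynomial (Fin 6) ℤ) :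
    part 5 i j (p - q) = part 5 i j p - part 5 i j q := by
  unfold part
  rw [← sum_sub_distrib]
  refine sum_congr rfl fun m _ => ?_
  rw [coeff_sub, map_sub]

theorem part_one (i : Fin 6) (j : ℕ) (p : MvPolynomial (Fin 6) ℕ) :
    eval (fun _ => 1) (part 5 i j p) ≤ eval (fun _ => 1) p := by
  unfold part
  rw [map_sum]
  refine le_trans ?_ (sum_coeff_le p ((IxN 5).filter (fun m => m i = j)))
  refine sum_le_sum fun m _ => ?_
  rw [eval_monomial']
  simp [mon]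

theorem lt_of_one {p : MvPolynomial (Fin 6) ℕ} {S : ℕ} (h : eval (fun _ => 1) p ≤ S)
    (hS : S < 2 ^ bb) (m : E) : coeff m p < 2 ^ bb :=
  lt_of_le_of_lt ((coeff_le_eval p (fun _ => le_refl 1) m).trans h) hS

/-- a pair of forms of degree `n` behind a pair of numbers -/
structure PNSem (n S : ℕ) (R : PN) (p q : MvPolynomial (Fin 6) ℕ) : Prop where
  hp : p.IsHomogeneous n
  hq : q.IsHomogeneous n
  ep : pk p = R.P
  eq : pk q = R.N
  le : eval (fun _ => 1) p + eval (fun _ => 1) q ≤ S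

/-- a Horner step -/
def IsStep (h : ℕ → ℕ → PN → PN) (lp ln : MvPolynomial (Fin 6) ℕ) : Prop :=
  ∀ p n R, (h p n R).P = p + pk lp * R.P + pk ln * R.N ∧
    (h p n R).N = n + pk lp * R.N + pk ln * R.P

theorem horPN {h : ℕ → ℕ → PN → PN} {lp ln : MvPolynomial (Fin 6) ℕ} (hh : IsStep h lp ln)
    (h1 : lp.IsHomogeneous 1) (h2 : ln.IsHomogeneous 1) {L : ℕ}
    (hL : eval (fun _ => 1) lp + eval (fun _ => 1) ln ≤ L) {n S T : ℕ} {R : PN}
    {a b p q : MvPolynomial (Fin 6) ℕ} (hR : PNSem n S R a b) (hp : p.IsHomogeneous (n + 1))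
    (hq : q.IsHomogeneous (n + 1)) (hT : eval (fun _ => 1) p + eval (fun _ => 1) q ≤ T) :
    PNSem (n + 1) (T + L * S) (h (pk p) (pk q) R) (p + lp * a + ln * b) (q + lp * b + ln * a) := by
  obtain ⟨ha, hb, ea, eb, hle⟩ := hR
  have c1 : 1 + n = n + 1 := by ring
  refine ⟨?_, ?_, ?_, ?_, ?_⟩
  · exact (hp.add (c1 ▸ h1.mul ha)).add (c1 ▸ h2.mul hb)
  · exact (hq.add (c1 ▸ h1.mul hb)).add (c1 ▸ h2.mul ha)
  · rw [(hh _ _ _).1, pk_add, pk_add, pk_mul, pk_mul, ea, eb]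
  · rw [(hh _ _ _).2, pk_add, pk_add, pk_mul, pk_mul, ea, eb]
  · simp only [map_add, map_mul]
    have e : (eval (fun _ => 1) lp + eval (fun _ => 1) ln) *
        (eval (fun _ => 1) a + eval (fun _ => 1) b) ≤ L * S := Nat.mul_le_mul hL hle
    nlinarith [e]

theorem dconv_sem {V : VarD} {i : Fin 6} (hV : V.Ok i) {h : ℕ → ℕ → PN → PN}
    {lp ln : MvPolynomial (Fin 6) ℕ} (hh : IsStep h lp ln)
    (h1 : lp.IsHomogeneous 1) (h2 : ln.IsHomogeneous 1) {L : ℕ}
    (hL : eval (fun _ => 1) lp + eval (fun _ => 1) ln ≤ L) {S : ℕ} {R : PN}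
    {p q : MvPolynomial (Fin 6) ℕ} (hR : PNSem 5 S R p q) (hS : S < 2 ^ bb) :
    ∃ p' q', PNSem 5 (S + L * (S + L * (S + L * (S + L * (S + L * S))))) (dconv V h R) p' q' ∧
      cst p' - cst q' = subst i (cst lp - cst ln) (cst p - cst q) := by
  obtain ⟨hp, hq, ep, eq, hle⟩ := hR
  have hcp : ∀ m, coeff m p < 2 ^ bb :=
    lt_of_one (le_trans (Nat.le_add_right _ _) hle) hS
  have hcq : ∀ m, coeff m q < 2 ^ bb :=
    lt_of_one (le_trans (Nat.le_add_left _ _) hle) hS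
  obtain ⟨hVS, m0', m1', m2', m3', m4', m5'⟩ := hV
  have t0 : bb * (fs i * 0) = 0 := by ring
  have t1 : bb * (fs i * 1) = V.S := by rw [hVS]; ring
  have t2 : bb * (fs i * 2) = Nat.mul 2 V.S := by rw [hVS]; change _ = 2 * (bb * fs i); ring
  have t3 : bb * (fs i * 3) = Nat.mul 3 V.S := by rw [hVS]; change _ = 3 * (bb * fs i); ring
  have t4 : bb * (fs i * 4) = Nat.mul 4 V.S := by rw [hVS]; change _ = 4 * (bb * fs i); ring
  have t5 : bb * (fs i * 5) = Nat.mul 5 V.S := by rw [hVS]; change _ = 5 * (bb * fs i); ring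
  have sp : ∀ {g : MvPolynomial (Fin 6) ℕ}, g.IsHomogeneous 5 → (∀ m, coeff m g < 2 ^ bb) →
      Nat.land (pk g) V.M0 = pk (part 5 i 0 g) ∧
      Nat.shiftRight (Nat.land (pk g) V.M1) V.S = pk (part 5 i 1 g) ∧
      Nat.shiftRight (Nat.land (pk g) V.M2) (Nat.mul 2 V.S) = pk (part 5 i 2 g) ∧
      Nat.shiftRight (Nat.land (pk g) V.M3) (Nat.mul 3 V.S) = pk (part 5 i 3 g) ∧
      Nat.shiftRight (Nat.land (pk g) V.M4) (Nat.mul 4 V.S) = pk (part 5 i 4 g) ∧
      Nat.shiftRight (Nat.land (pk g) V.M5) (Nat.mul 5 V.S) = pk (part 5 i 5 g) := by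
    intro g hg hc
    have e0 := split_nat hg hc m0'
    have e1 := split_nat hg hc m1'
    have e2 := split_nat hg hc m2'
    have e3 := split_nat hg hc m3'
    have e4 := split_nat hg hc m4'
    have e5 := split_nat hg hc m5'
    rw [t0] at e0
    rw [t1] at e1
    rw [t2] at e2
    rw [t3] at e3
    rw [t4] at e4
    rw [t5] at e5
    exact ⟨e0, e1, e2, e3, e4, e5⟩
  obtain ⟨p0, p1, p2, p3, p4, p5⟩ := sp hp hcp
  obtain ⟨q0, q1, q2, q3, q4, q5⟩ := sp hq hcq
  have hpq : ∀ j, eval (fun _ => 1) (part 5 i j p) + eval (fun _ => 1) (part 5 i j q) ≤ S :=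
    fun j => le_trans (Nat.add_le_add (part_one i j p) (part_one i j q)) hle
  have s5 : PNSem 0 S ⟨pk (part 5 i 5 p), pk (part 5 i 5 q)⟩ (part 5 i 5 p) (part 5 i 5 q) :=
    ⟨hom_part (le_refl 5) i p, hom_part (le_refl 5) i q, rfl, rfl, hpq 5⟩
  have s4 := horPN hh h1 h2 hL s5 (hom_part (by norm_num : 4 ≤ 5) i p)
    (hom_part (by norm_num : 4 ≤ 5) i q) (hpq 4)
  have s3 := horPN hh h1 h2 hL s4 (hom_part (by norm_num : 3 ≤ 5) i p)
    (hom_part (by norm_num : 3 ≤ 5) i q) (hpq 3)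
  have s2 := horPN hh h1 h2 hL s3 (hom_part (by norm_num : 2 ≤ 5) i p)
    (hom_part (by norm_num : 2 ≤ 5) i q) (hpq 2)
  have s1 := horPN hh h1 h2 hL s2 (hom_part (by norm_num : 1 ≤ 5) i p)
    (hom_part (by norm_num : 1 ≤ 5) i q) (hpq 1)
  have s0 := horPN hh h1 h2 hL s1 (hom_part (by norm_num : 0 ≤ 5) i p)
    (hom_part (by norm_num : 0 ≤ 5) i q) (hpq 0)
  have e : dconv V h R = h (pk (part 5 i 0 p)) (pk (part 5 i 0 q))
      (h (pk (part 5 i 1 p)) (pk (part 5 i 1 q)) (h (pk (part 5 i 2 p)) (pk (part 5 i 2 q))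
      (h (pk (part 5 i 3 p)) (pk (part 5 i 3 q)) (h (pk (part 5 i 4 p)) (pk (part 5 i 4 q))
      ⟨pk (part 5 i 5 p), pk (part 5 i 5 q)⟩)))) := by
    unfold dconv
    rw [← ep, ← eq, p0, p1, p2, p3, p4, p5, q0, q1, q2, q3, q4, q5]
  rw [← e] at s0
  refine ⟨_, _, s0, ?_⟩
  unfold subst
  simp only [sum_range_succ, sum_range_zero, part_sub, ← cst_part, cst_add, cst_mul]
  ring

/-! ### the three substitutions -/

noncomputable def lp5 : MvPolynomial (Fin 6) ℕ := X 5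
noncomputable def ln5 : MvPolynomial (Fin 6) ℕ := X 0 + X 1 + X 2 + X 3 + X 4
noncomputable def lp1 : MvPolynomial (Fin 6) ℕ := X 1
noncomputable def ln1 : MvPolynomial (Fin 6) ℕ := X 0
noncomputable def lp3 : MvPolynomial (Fin 6) ℕ := X 3
noncomputable def ln3 : MvPolynomial (Fin 6) ℕ := X 2

theorem pkX (i : Fin 6) {n : ℕ} (h : n = 2 ^ (bb * fs i)) :
    pk (X i : MvPolynomial (Fin 6) ℕ) = n := by rw [pk_X, h]

theorem pstep5 : IsStep hp5 lp5 ln5 := by
  intro p n R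
  unfold lp5 ln5
  simp only [pk_add]
  rw [pkX 5 X5_eq, pkX 0 X0_eq, pkX 1 X1_eq, pkX 2 X2_eq, pkX 3 X3_eq, pkX 4 X4_eq]
  unfold hp5 shl5
  simp only [X0_shl, X1_shl, X2_shl, X3_shl, X4_shl]
  constructor
  · change p + R.P + (R.N * X0 + R.N * X1 + R.N * X2 + R.N * X3 + R.N * X4) = _
    ring
  · change n + R.N + (R.P * X0 + R.P * X1 + R.P * X2 + R.P * X3 + R.P * X4) = _
    ring

theorem pstep1 : IsStep hp1 lp1 ln1 := by
  intro p n R
  unfold lp1 ln1
  rw [pkX 0 X0_eq, pkX 1 X1_eq]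
  unfold hp1
  simp only [X0_shl, X1_shl]
  constructor
  · change p + R.P * X1 + R.N * X0 = _
    ring
  · change n + R.N * X1 + R.P * X0 = _
    ring

theorem pstep3 : IsStep hp3 lp3 ln3 := by
  intro p n R
  unfold lp3 ln3
  rw [pkX 2 X2_eq, pkX 3 X3_eq]
  unfold hp3
  simp only [X2_shl, X3_shl]
  constructor
  · change p + R.P * X3 + R.N * X2 = _
    ring
  · change n + R.N * X3 + R.P * X2 = _
    ring

theorem hom_XN (i : Fin 6) : (X i : MvPolynomial (Fin 6) ℕ).IsHomogeneous 1 := isHomogeneous_X _ _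

theorem toPar2_sem {R : PN} {p q : MvPolynomial (Fin 6) ℕ} (hR : PNSem 5 (2 ^ 90) R p q) :
    ∃ p' q', PNSem 5 (2 ^ 116) (toPar2 R) p' q' ∧ cst p' - cst q' = par (cst p - cst q) := by
  obtain ⟨p1, q1, hs1, e1⟩ := dconv_sem V5_ok pstep5 (lp := lp5) (ln := ln5) (L := 6) (hom_XN 5)
    (((((hom_XN 0).add (hom_XN 1)).add (hom_XN 2)).add (hom_XN 3)).add (hom_XN 4))
    (by unfold lp5 ln5; simp) hR (by norm_num [bb])
  obtain ⟨p2, q2, hs2, e2⟩ := dconv_sem V1_ok pstep1 (lp := lp1) (ln := ln1) (L := 2) (hom_XN 1) (hom_XN 0)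
    (by unfold lp1 ln1; simp) hs1 (by norm_num [bb])
  obtain ⟨p3, q3, hs3, e3⟩ := dconv_sem V3_ok pstep3 (lp := lp3) (ln := ln3) (L := 2) (hom_XN 3) (hom_XN 2)
    (by unfold lp3 ln3; simp) hs2 (by norm_num [bb])
  refine ⟨p3, q3, ?_, ?_⟩
  · obtain ⟨a, b, c, d, e⟩ := hs3
    exact ⟨a, b, c, d, e.trans (by norm_num)⟩
  · rw [e3, e2, e1]
    unfold par
    have a5 : cst lp5 - cst ln5 = L5 := by
      unfold lp5 ln5 L5
      simp only [cst_add, cst_X]
    have a1 : cst lp1 - cst ln1 = L1 := by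
      unfold lp1 ln1 L1
      simp only [cst_X]
    have a3 : cst lp3 - cst ln3 = L3 := by
      unfold lp3 ln3 L3
      simp only [cst_X]
    rw [a5, a1, a3]

/-- the two parts of a dual vector -/
theorem parts_sem {x : ℕ} (hp : facsOk prev = true) (hF : F.small = true)
    (hx : yOk (ym x) (yc x) = true) :
    ∃ p q, PNSem 5 (2 ^ 90) ⟨N2p (cuts3 prev F) x, N2n (cuts3 prev F) x⟩ p q ∧
      cst p - cst q = polyP prev F (dualOf x) := by
  have hok := dualOk_of (prev := prev) (F := F) hp hF hx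
  refine ⟨C 625 * (fH (cuts3 prev F) (ym x) (yc x) + polyU prev F (dualOf x)),
    C 625 * fB (cuts3 prev F) (ym x) (yc x), ⟨?_, ?_, ?_, ?_, ?_⟩, ?_⟩
  · exact ((hom_fH _ _ _).add (hom_polyU _)).C_mul _
  · exact (hom_fB _ _ _).C_mul _
  · -- the packed values
    have hN := N2_eq prev F x
    rw [dualN_eq hok] at hN
    have e1 : ((pk (C 625 * fB (cuts3 prev F) (ym x) (yc x) : MvPolynomial (Fin 6) ℕ) : ℕ) : ℤ) =
        ((N2n (cuts3 prev F) x : ℕ) : ℤ) := by
      rw [pk_mul, pk_C]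
      unfold N2n sumB2
      rw [← pk_fB _ _ _ hx]
      rfl
    have e2 : polyP prev F (dualOf x) = cst (C 625 * (fH (cuts3 prev F) (ym x) (yc x) +
        polyU prev F (dualOf x))) - cst (C 625 * fB (cuts3 prev F) (ym x) (yc x)) := by
      unfold polyP
      have : (dualOf x).ys = ysOf (ym x) (yc x) := rfl
      rw [this, ← cst_fH, cst_mul, cst_mul, cst_add, cst_C]
      push_cast
      ring
    rw [e2, pk_sub', pk_cst, pk_cst, e1] at hN
    have hN' : ((N2p (cuts3 prev F) x : ℕ) : ℤ) = ((pk (C 625 * (fH (cuts3 prev F) (ym x) (yc x) +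
        polyU prev F (dualOf x))) : ℕ) : ℤ) := by linarith
    exact_mod_cast hN'.symm
  · rw [pk_mul, pk_C]
    show 625 * _ = N2n (cuts3 prev F) x
    unfold N2n sumB2
    rw [← pk_fB _ _ _ hx]
    rfl
  · simp only [map_mul, map_add, eval_C]
    have h1 := one_fH hp hF (ym x) (yc x)
    have h2 := one_fB hp hF (ym x) (yc x)
    have h3 := ym_lt x
    have h4 : eval (fun _ => (1 : ℕ)) (polyU prev F (dualOf x)) ≤ 2 ^ 76 := by
      have hb := bd_polyD hok
      have h1 := hb.sum_le Ix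
      rw [eval_eq_sum (polyU prev F (dualOf x)) (support_of_hom (hom_polyU _))]
      zify
      refine le_trans (sum_le_sum fun m _ => ?_) (by exact_mod_cast h1)
      have : mon (fun _ : Fin 6 => (1 : ℕ)) m = 1 := by simp [mon]
      rw [this]
      rw [coeff_polyU]
      have h3 := le_abs_self (coeff m (polyD prev F (dualOf x)))
      have h4 := abs_nonneg (coeff m (polyD prev F (dualOf x)))
      split_ifs
      · push_cast
        rw [mul_one]
        omega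
      · simpa using h4
    have h5 : (ym x) * (126 * 2 ^ 40 * (6 * 4194304)) ≤ 32 * (126 * 2 ^ 40 * (6 * 4194304)) :=
      Nat.mul_le_mul_right _ h3.le
    have h6 : 32 * (126 * 2 ^ 40 * (6 * 4194304)) ≤ 2 ^ 77 := by norm_num
    have h7 : (625 : ℕ) * (2 ^ 77 + 2 ^ 76) + 625 * 2 ^ 77 ≤ 2 ^ 90 := by norm_num
    nlinarith
  · unfold polyP
    have : (dualOf x).ys = ysOf (ym x) (yc x) := rfl
    rw [this, ← cst_fH, cst_mul, cst_mul, cst_add, cst_C]
    push_cast
    ring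

end Pool.Agent.Helper5.B54
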