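import Pool.Agent.Helper5.B54v2.Data2
import Pool.Agent.Helper5.B54.Sound6

/-!
# Decoding of the dual vectors
-/

namespace Pool.Agent.Helper5.B54

open Finset MvPolynomial Pool.Agent.Helper65.B54

theorem land_mask (x k : ℕ) : Nat.land x (2 ^ k - 1) = x % 2 ^ k := Nat.and_two_pow_sub_one_eq_mod x k

theorem land_30 (x : ℕ) : Nat.land x 1073741823 = Nat.mod x 1073741824 := land_mask x 30
theorem land_10 (x : ℕ) : Nat.land x 1023 = Nat.mod x 1024 := land_mask x 10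
theorem land_32 (x : ℕ) : Nat.land x 4294967295 = Nat.mod x 4294967296 := land_mask x 32
theorem land_5 (x : ℕ) : Nat.land x 31 = Nat.mod x 32 := land_mask x 5

theorem decF_eq : ∀ (n x : ℕ), decF n x = decY n x
  | 0, _ => rfl
  | n + 1, x => by
    have h1 : decF (n + 1) x = Nat.shiftLeft (Nat.add (Nat.land (Nat.shiftRight x 10) 1073741823)
      (decF n (Nat.shiftRight x 40))) (Nat.mul 144 (Nat.land x 1023)) := rfl
    rw [h1, decF_eq n, land_30, land_10]
    rfl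

/-- the list of forms of a code -/
def ysOf : ℕ → ℕ → List (Cut × ℕ × ℕ)
  | 0, _ => []
  | m + 1, y => (cutOf (Nat.land y 63), yn y, Nat.shiftRight y 14) :: ysOf m (yr y)

theorem length_ysOf : ∀ (m y : ℕ), (ysOf m y).length = m
  | 0, _ => rfl
  | m + 1, y => by
    unfold ysOf
    rw [List.length_cons, length_ysOf m]

/-- the dual vector of a code -/
def dualOf (x : ℕ) : Dual :=
  ⟨⟨(mf x 0 : ℤ) - 2147483648, (mf x 1 : ℤ) - 2147483648, (mf x 2 : ℤ) - 2147483648,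
    (mf x 3 : ℤ) - 2147483648, (mf x 4 : ℤ) - 2147483648, (mf x 5 : ℤ) - 2147483648⟩,
    ysOf (ym x) (yc x)⟩

theorem mf_lt (x i : ℕ) : mf x i < 4294967296 := by
  unfold mf
  rw [land_32]
  exact Nat.mod_lt _ (by norm_num)

theorem ym_lt (x : ℕ) : ym x < 32 := by
  unfold ym
  rw [land_5]
  exact Nat.mod_lt _ (by norm_num)

theorem yF_succ (f : ℕ → ℕ → ℕ) (m y : ℕ) :
    yF f (m + 1) y = f (Nat.land y 63) (yv y) + yF f m (yr y) := rfl

theorem yOk_succ (m y : ℕ) :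
    yOk (m + 1) y = and (Nat.beq (Nat.land (yv y) cQuart) (yv y)) (yOk m (yr y)) := rfl

theorem yv_eq (y : ℕ) : yv y = decY (yn y) (Nat.shiftRight y 14) := decF_eq _ _

theorem yOk_eq : ∀ (m y : ℕ), yOk m y = okY (ysOf m y)
  | 0, _ => rfl
  | m + 1, y => by
    rw [yOk_succ, yOk_eq m, yv_eq]
    rfl

/-! ### cuts -/

theorem getC3_map : ∀ (l : List Facet) (j : ℕ),
    getC3 (l.map Facet.c3) j = (l.getD j zeroF).c3
  | [], j => by
    rw [List.getD_nil]
    rfl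
  | G :: l, 0 => rfl
  | G :: l, j + 1 => by
    have h1 : getC3 ((G :: l).map Facet.c3) (j + 1) = getC3 (l.map Facet.c3) j := rfl
    rw [h1, getC3_map l j, List.getD_cons_succ]

theorem X0_shl (y : ℕ) : Nat.shiftLeft y 288 = y * X0 := by
  change y <<< 288 = y * 1 <<< 288
  rw [Nat.shiftLeft_eq, Nat.shiftLeft_eq, one_mul]
theorem X1_shl (y : ℕ) : Nat.shiftLeft y 9072 = y * X1 := by
  change y <<< 9072 = y * 1 <<< 9072
  rw [Nat.shiftLeft_eq, Nat.shiftLeft_eq, one_mul]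
theorem X2_shl (y : ℕ) : Nat.shiftLeft y 24624 = y * X2 := by
  change y <<< 24624 = y * 1 <<< 24624
  rw [Nat.shiftLeft_eq, Nat.shiftLeft_eq, one_mul]
theorem X3_shl (y : ℕ) : Nat.shiftLeft y 27360 = y * X3 := by
  change y <<< 27360 = y * 1 <<< 27360
  rw [Nat.shiftLeft_eq, Nat.shiftLeft_eq, one_mul]
theorem X4_shl (y : ℕ) : Nat.shiftLeft y 28800 = y * X4 := by
  change y <<< 28800 = y * 1 <<< 28800
  rw [Nat.shiftLeft_eq, Nat.shiftLeft_eq, one_mul]

theorem e01_eq (y : ℕ) : e01 y = y * X0 + y * X1 := by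
  unfold e01; rw [X0_shl, X1_shl]; rfl
theorem e23_eq (y : ℕ) : e23 y = y * X2 + y * X3 := by
  unfold e23; rw [X2_shl, X3_shl]; rfl
theorem e45_eq (y : ℕ) : e45 y = y * X4 + y := by
  unfold e45; rw [X4_shl]; rfl

theorem wT_eq (c : C3) (y : ℕ) :
    wT c y = y * (c.wA * (X0 + X1) + c.wC * (X2 + X3) + c.wD * (X4 + 1)) := by
  unfold wT
  rw [e01_eq, e23_eq, e45_eq]
  change c.wA * _ + c.wC * _ + c.wD * _ = _
  ring

theorem hT_eq (c : C3) (y : ℕ) :
    hT c y = y * (c.hA * (X0 + X1) + c.hC * (X2 + X3) + c.hD * (X4 + 1) +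
      (c.oA * X0 + c.oC * X2 + c.oD * X4)) := by
  unfold hT
  rw [e01_eq, e23_eq, e45_eq, X0_shl, X2_shl, X4_shl]
  change c.hA * _ + c.hC * _ + c.hD * _ + (c.oA * _ + c.oC * _ + c.oD * _) = _
  ring

theorem XS_exp : XS = X0 + X1 + X2 + X3 + X4 + 1 := rfl

theorem bT_eq (c : C3) (y : ℕ) : bT c y = y * (c.h * XS) := by
  unfold bT
  rw [e01_eq, e23_eq, e45_eq, XS_exp]
  change c.h * (_ + _ + _) = _
  ring

/-- the weights of a prepared cut -/
def C3.WN (c : C3) : N6 := ⟨c.wA, c.wA, c.wC, c.wC, c.wD, c.wD⟩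
/-- the biased right side -/
def C3.HN (c : C3) : N6 := ⟨c.hA + c.oA, c.hA, c.hC + c.oC, c.hC, c.hD + c.oD, c.hD⟩

theorem packN_exp (v : N6) :
    packN v = v.a0 * X0 + v.a1 * X1 + v.a2 * X2 + v.a3 * X3 + v.a4 * X4 + v.a5 := rfl
theorem packI_exp (v : V6) : packI v = v.a0 * (X0 : ℤ) + v.a1 * (X1 : ℤ) + v.a2 * (X2 : ℤ) +
    v.a3 * (X3 : ℤ) + v.a4 * (X4 : ℤ) + v.a5 := rfl

theorem wT_pack (c : C3) (y : ℕ) : wT c y = y * packN c.WN := by
  rw [wT_eq, packN_exp]
  unfold C3.WN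
  ring

theorem hT_pack (c : C3) (y : ℕ) : hT c y = y * packN c.HN := by
  rw [hT_eq, packN_exp]
  unfold C3.HN
  ring

/-- meaning of a prepared cut: weights -/
theorem cut3W (prev : List Facet) (F : Facet) (i : ℕ) :
    (getC3 (cuts3 prev F) i).WN = cutW prev F (cutOf i) := by
  match i with
  | 0 => rfl
  | 1 => rfl
  | 2 => rfl
  | j + 3 =>
    have h1 : getC3 (cuts3 prev F) (j + 3) = getC3 (prev.map Facet.c3) j := rfl
    rw [h1, getC3_map]
    rfl

/-- meaning of a prepared cut: right side -/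
theorem cut3H (prev : List Facet) (F : Facet) (i : ℕ) (k : Fin 6) :
    (((getC3 (cuts3 prev F) i).HN.fn k : ℕ) : ℤ) = (cutH prev F (cutOf i)).fn k +
      ((getC3 (cuts3 prev F) i).h : ℤ) := by
  match i with
  | 0 => fin_cases k <;> rfl
  | 1 => fin_cases k <;> rfl
  | 2 =>
    show (((⟨0 + F.wA, 0, 0 + F.wC, 0, 0 + F.wD, 0⟩ : N6).fn k : ℕ) : ℤ) = F.HO.fn k + ((0 : ℕ) : ℤ)
    unfold Facet.HO N6.fn V6.fn
    fin_cases k
    · show ((0 + F.wA : ℕ) : ℤ) = (F.wA : ℤ) + ((0 : ℕ) : ℤ); push_cast; ring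
    · rfl
    · show ((0 + F.wC : ℕ) : ℤ) = (F.wC : ℤ) + ((0 : ℕ) : ℤ); push_cast; ring
    · rfl
    · show ((0 + F.wD : ℕ) : ℤ) = (F.wD : ℤ) + ((0 : ℕ) : ℤ); push_cast; ring
    · rfl
  | j + 3 =>
    have h1 : getC3 (cuts3 prev F) (j + 3) = getC3 (prev.map Facet.c3) j := rfl
    have e1 : cutH prev F (cutOf (j + 3)) = (prev.getD j zeroF).H := rfl
    rw [h1, getC3_map, e1]
    generalize prev.getD j zeroF = G
    have hh : (G.hb : ℤ) = ((-(G.m0 + G.ma)).toNat : ℤ) + ((-(G.m0 + G.mg)).toNat : ℤ) +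
        ((-G.m0).toNat : ℤ) := by
      have : G.hb = (-(G.m0 + G.ma)).toNat + (-(G.m0 + G.mg)).toNat + (-G.m0).toNat := rfl
      rw [this]; push_cast; ring
    have a1 : (((G.m0 + G.ma + (G.hb : ℤ)).toNat : ℕ) : ℤ) = G.m0 + G.ma + G.hb := by
      rw [Int.toNat_of_nonneg]
      omega
    have a2 : (((G.m0 + G.mg + (G.hb : ℤ)).toNat : ℕ) : ℤ) = G.m0 + G.mg + G.hb := by
      rw [Int.toNat_of_nonneg]
      omega
    have a3 : (((G.m0 + (G.hb : ℤ)).toNat : ℕ) : ℤ) = G.m0 + G.hb := by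
      rw [Int.toNat_of_nonneg]
      omega
    fin_cases k
    · show (((G.m0 + G.ma + (G.hb : ℤ)).toNat + 0 : ℕ) : ℤ) = (G.m0 + G.ma) + (G.hb : ℤ)
      rw [Nat.add_zero, a1]
    · show (((G.m0 + G.ma + (G.hb : ℤ)).toNat : ℕ) : ℤ) = (G.m0 + G.ma) + (G.hb : ℤ)
      rw [a1]
    · show (((G.m0 + G.mg + (G.hb : ℤ)).toNat + 0 : ℕ) : ℤ) = (G.m0 + G.mg) + (G.hb : ℤ)
      rw [Nat.add_zero, a2]
    · show (((G.m0 + G.mg + (G.hb : ℤ)).toNat : ℕ) : ℤ) = (G.m0 + G.mg) + (G.hb : ℤ)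
      rw [a2]
    · show (((G.m0 + (G.hb : ℤ)).toNat + 0 : ℕ) : ℤ) = G.m0 + (G.hb : ℤ)
      rw [Nat.add_zero, a3]
    · show (((G.m0 + (G.hb : ℤ)).toNat : ℕ) : ℤ) = G.m0 + (G.hb : ℤ)
      rw [a3]

theorem cut3HP (prev : List Facet) (F : Facet) (i : ℕ) :
    ((packN (getC3 (cuts3 prev F) i).HN : ℕ) : ℤ) = packI (cutH prev F (cutOf i)) +
      (((getC3 (cuts3 prev F) i).h * XS : ℕ) : ℤ) := by
  have h := cut3H prev F i
  generalize (getC3 (cuts3 prev F) i) = c at h ⊢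
  generalize cutH prev F (cutOf i) = a at h ⊢
  have h0 : (c.HN.a0 : ℤ) = a.a0 + c.h := h 0
  have h1 : (c.HN.a1 : ℤ) = a.a1 + c.h := h 1
  have h2 : (c.HN.a2 : ℤ) = a.a2 + c.h := h 2
  have h3 : (c.HN.a3 : ℤ) = a.a3 + c.h := h 3
  have h4 : (c.HN.a4 : ℤ) = a.a4 + c.h := h 4
  have h5 : (c.HN.a5 : ℤ) = a.a5 + c.h := h 5
  rw [packN_exp, packI_exp, XS_exp]
  push_cast
  rw [h0, h1, h2, h3, h4, h5]
  ring

theorem sumW2_eq (prev : List Facet) (F : Facet) : ∀ (m y : ℕ),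
    yF (fun i y => wT (getC3 (cuts3 prev F) i) y) m y = sumW prev F (ysOf m y)
  | 0, _ => rfl
  | m + 1, y => by
    rw [yF_succ, sumW2_eq prev F m, wT_pack, cut3W, yv_eq]
    rfl

theorem sumH2_eq (prev : List Facet) (F : Facet) : ∀ (m y : ℕ),
    ((yF (fun i y => hT (getC3 (cuts3 prev F) i) y) m y : ℕ) : ℤ) =
      sumH prev F (ysOf m y) + ((yF (fun i y => bT (getC3 (cuts3 prev F) i) y) m y : ℕ) : ℤ)
  | 0, _ => rfl
  | m + 1, y => by
    rw [yF_succ, yF_succ]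
    push_cast
    rw [sumH2_eq prev F m, hT_pack, bT_eq, Nat.cast_mul, cut3HP, yv_eq]
    have e : sumH prev F (ysOf (m + 1) y) = ((decY (yn y) (Nat.shiftRight y 14) : ℕ) : ℤ) *
      packI (cutH prev F (cutOf (Nat.land y 63))) + sumH prev F (ysOf m (yr y)) := rfl
    rw [e]
    push_cast
    ring

/-! ### sizes -/

theorem facsOk_spec : ∀ {l : List Facet}, facsOk l = true → ∀ G ∈ l, G.small = true
  | [], _, G, hG => by simp at hG
  | H :: l, h, G, hG => by
    have h1 : facsOk (H :: l) = and H.small (facsOk l) := rfl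
    rw [h1, Bool.and_eq_true] at h
    rcases List.mem_cons.mp hG with rfl | hG
    · exact h.1
    · exact facsOk_spec h.2 G hG

theorem small_spec {G : Facet} (h : G.small = true) : G.wA ≤ 262144 ∧ G.wC ≤ 262144 ∧
    G.wD ≤ 262144 ∧ G.m0.natAbs ≤ 262144 ∧ G.ma.natAbs ≤ 262144 ∧ G.mg.natAbs ≤ 262144 := by
  unfold Facet.small at h
  simp only [Bool.and_eq_true, Nat.ble_eq] at h
  exact h

theorem zeroF_small : zeroF.small = true := by decide

theorem getD_small {l : List Facet} (h : facsOk l = true) (j : ℕ) : (l.getD j zeroF).small = true := by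
  by_cases hj : j < l.length
  · rw [List.getD_eq_getElem _ _ hj]
    exact facsOk_spec h _ (List.getElem_mem hj)
  · rw [List.getD_eq_default _ _ (by omega)]
    exact zeroF_small

theorem okC_of {prev : List Facet} {F : Facet} (hp : facsOk prev = true) (hF : F.small = true) :
    ∀ (ys : List (Cut × ℕ × ℕ)), (∀ t ∈ ys, ∀ k, t.1 ≠ Cut.box k) → okC prev F ys = true
  | [], _ => rfl
  | (c, n, x) :: l, hb => by
    have ih := okC_of hp hF l fun t ht => hb t (List.mem_cons_of_mem _ ht)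
    have hc := hb (c, n, x) List.mem_cons_self
    unfold okC
    rw [Bool.and_eq_true, Bool.and_eq_true]
    have sW : ∀ G : Facet, G.small = true → smallN 1048576 G.W = true := by
      intro G hG
      obtain ⟨h1, h2, h3, h4, h5, h6⟩ := small_spec hG
      unfold smallN Facet.W
      simp only [Bool.and_eq_true, Nat.ble_eq]
      omega
    have sH : ∀ G : Facet, G.small = true → smallV 1048576 G.H = true := by
      intro G hG
      obtain ⟨h1, h2, h3, h4, h5, h6⟩ := small_spec hG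
      unfold smallV Facet.H
      simp only [Bool.and_eq_true, Nat.ble_eq]
      have e1 : (Int.add G.m0 G.ma).natAbs ≤ 1048576 := by
        change (G.m0 + G.ma).natAbs ≤ _
        omega
      have e2 : (Int.add G.m0 G.mg).natAbs ≤ 1048576 := by
        change (G.m0 + G.mg).natAbs ≤ _
        omega
      exact ⟨e1, e1, e2, e2, by omega, by omega⟩
    have sHO : ∀ G : Facet, G.small = true → smallV 1048576 G.HO = true := by
      intro G hG
      obtain ⟨h1, h2, h3, h4, h5, h6⟩ := small_spec hG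
      unfold smallV Facet.HO
      simp only [Bool.and_eq_true, Nat.ble_eq]
      refine ⟨?_, by simp, ?_, by simp, ?_, by simp⟩
      · change ((G.wA : ℤ)).natAbs ≤ _; omega
      · change ((G.wC : ℤ)).natAbs ≤ _; omega
      · change ((G.wD : ℤ)).natAbs ≤ _; omega
    cases c with
    | tot => exact ⟨rfl, rfl, ih⟩
    | nc => exact ⟨rfl, rfl, ih⟩
    | box k => exact absurd rfl (hc k)
    | fac j => exact ⟨sW _ (getD_small hp j), sH _ (getD_small hp j), ih⟩
    | own => exact ⟨sW _ hF, sHO _ hF, ih⟩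

theorem ysOf_nobox : ∀ (m y : ℕ), ∀ t ∈ ysOf m y, ∀ k, t.1 ≠ Cut.box k
  | 0, _, t, ht, k => by simp [ysOf] at ht
  | m + 1, y, t, ht, k => by
    unfold ysOf at ht
    rcases List.mem_cons.mp ht with rfl | ht
    · simp only
      unfold cutOf
      split <;> simp
    · exact ysOf_nobox m _ t ht k

theorem dualOk_of {prev : List Facet} {F : Facet} (hp : facsOk prev = true) (hF : F.small = true)
    {x : ℕ} (hx : yOk (ym x) (yc x) = true) : dualOk prev F (dualOf x) = true := by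
  unfold dualOk
  rw [Bool.and_eq_true, Bool.and_eq_true, Bool.and_eq_true]
  refine ⟨?_, ?_, ?_, ?_⟩
  · rw [Nat.ble_eq]
    unfold dualOf
    simp only
    rw [length_ysOf]
    exact (ym_lt x).le
  · unfold dualOf smallV
    simp only [Bool.and_eq_true, Nat.ble_eq]
    have h0 := mf_lt x 0
    have h1 := mf_lt x 1
    have h2 := mf_lt x 2
    have h3 := mf_lt x 3
    have h4 := mf_lt x 4
    have h5 := mf_lt x 5
    omega
  · exact okC_of hp hF _ (ysOf_nobox _ _)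
  · rw [← hx, yOk_eq]
    rfl

end Pool.Agent.Helper5.B54
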