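import Pool.Agent.Helper5.B54v2.Leaf2

/-!
# Evaluation of a code
-/

namespace Pool.Agent.Helper5.B54

open Finset MvPolynomial Pool.Agent.Helper65.B54

variable {prev : List Facet} {F : Facet}

/-- the eight branches -/
def br (e0 e1 e2 e3 e4 e5 e6 e7 t : Nat) : Nat :=
  Nat.rec (motive := fun _ => Nat) e0
    (fun k _ => Nat.rec (motive := fun _ => Nat) e1
    (fun k _ => Nat.rec (motive := fun _ => Nat) e2
    (fun k _ => Nat.rec (motive := fun _ => Nat) e3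
    (fun k _ => Nat.rec (motive := fun _ => Nat) e4
    (fun k _ => Nat.rec (motive := fun _ => Nat) e5
    (fun k _ => Nat.rec (motive := fun _ => Nat) e6
    (fun _ _ => e7) k) k) k) k) k) k) t

theorem br_cases (e0 e1 e2 e3 e4 e5 e6 e7 t : Nat) :
    br e0 e1 e2 e3 e4 e5 e6 e7 t = e0 ∨ br e0 e1 e2 e3 e4 e5 e6 e7 t = e1 ∨
    br e0 e1 e2 e3 e4 e5 e6 e7 t = e2 ∨ br e0 e1 e2 e3 e4 e5 e6 e7 t = e3 ∨
    br e0 e1 e2 e3 e4 e5 e6 e7 t = e4 ∨ br e0 e1 e2 e3 e4 e5 e6 e7 t = e5 ∨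
    br e0 e1 e2 e3 e4 e5 e6 e7 t = e6 ∨ br e0 e1 e2 e3 e4 e5 e6 e7 t = e7 := by
  rcases t with _ | t
  · exact Or.inl rfl
  rcases t with _ | t
  · exact Or.inr (Or.inl rfl)
  rcases t with _ | t
  · exact Or.inr (Or.inr (Or.inl rfl))
  rcases t with _ | t
  · exact Or.inr (Or.inr (Or.inr (Or.inl rfl)))
  rcases t with _ | t
  · exact Or.inr (Or.inr (Or.inr (Or.inr (Or.inl rfl))))
  rcases t with _ | t
  · exact Or.inr (Or.inr (Or.inr (Or.inr (Or.inr (Or.inl rfl)))))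
  rcases t with _ | t
  · exact Or.inr (Or.inr (Or.inr (Or.inr (Or.inr (Or.inr (Or.inl rfl))))))
  · exact Or.inr (Or.inr (Or.inr (Or.inr (Or.inr (Or.inr (Or.inr rfl))))))

/-- position of a split -/
def pp (c : ℕ) : ℕ := Nat.land (Nat.shiftRight c 3) 131071

/-- number of multipliers -/
def nn (c : ℕ) : ℕ := Nat.land (Nat.shiftRight c 3) 15

/-- the code after a split -/
def cc (c : ℕ) : ℕ := Nat.shiftRight c 20

theorem run_zero (st : Bool) (D D2 D24 : ℕ) (cs : List C2) (ps : List DP2)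
    (c l0 h0 l1 h1 l2 h2 l3 h3 l4 h4 : ℕ) :
    run st D D2 D24 cs ps 0 c l0 h0 l1 h1 l2 h2 l3 h3 l4 h4 = 0 := rfl

theorem run_succ (st : Bool) (D D2 D24 : ℕ) (cs : List C2) (ps : List DP2) (fuel : ℕ)
    (c l0 h0 l1 h1 l2 h2 l3 h3 l4 h4 : ℕ) :
    run st D D2 D24 cs ps (fuel + 1) c l0 h0 l1 h1 l2 h2 l3 h3 l4 h4 =
    br
      (okN (Nat.ble (pp c) h0)
          (bindN (run st D D2 D24 cs ps fuel (cc c) l0 (pp c) l1 h1 l2 h2 l3 h3 l4 h4)
            (fun r => run st D D2 D24 cs ps fuel r (pp c) h0 l1 h1 l2 h2 l3 h3 l4 h4)))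
      (okN (Nat.ble (pp c) h1)
          (bindN (run st D D2 D24 cs ps fuel (cc c) l0 h0 l1 (pp c) l2 h2 l3 h3 l4 h4)
            (fun r => run st D D2 D24 cs ps fuel r l0 h0 (pp c) h1 l2 h2 l3 h3 l4 h4)))
      (okN (Nat.ble (pp c) h2)
          (bindN (run st D D2 D24 cs ps fuel (cc c) l0 h0 l1 h1 l2 (pp c) l3 h3 l4 h4)
            (fun r => run st D D2 D24 cs ps fuel r l0 h0 l1 h1 (pp c) h2 l3 h3 l4 h4)))
      (okN (Nat.ble (pp c) h3)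
          (bindN (run st D D2 D24 cs ps fuel (cc c) l0 h0 l1 h1 l2 h2 l3 (pp c) l4 h4)
            (fun r => run st D D2 D24 cs ps fuel r l0 h0 l1 h1 l2 h2 (pp c) h3 l4 h4)))
      (okN (Nat.ble (pp c) h4)
          (bindN (run st D D2 D24 cs ps fuel (cc c) l0 h0 l1 h1 l2 h2 l3 h3 l4 (pp c))
            (fun r => run st D D2 D24 cs ps fuel r l0 h0 l1 h1 l2 h2 l3 h3 (pp c) h4)))
      (okN (emptyT 1 D cs (nn c) (Nat.shiftRight c 7)
            l0 h0 l1 h1 l2 h2 l3 h3 l4 h4)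
          (Nat.add (Nat.shiftRight c (Nat.add 7 (Nat.mul 48 (nn c)))) 1))
      (okN (killT D2 D24 cs (getP2 ps (Nat.land (Nat.shiftRight c 7) 1023))
            (nn c) (Nat.shiftRight c 17) l0 h0 l1 h1 l2 h2 l3 h3 l4 h4)
          (Nat.add (Nat.shiftRight c (Nat.add 17 (Nat.mul 48 (nn c)))) 1))
      (okN (and st (and (Nat.ble 1 (nn c))
            (and (Nat.beq (Nat.land (Nat.shiftRight c 7) 63) 0)
              (and (Nat.ble 1 (Nat.land (Nat.shiftRight c 13) 4398046511103))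
                (emptyT 0 D cs (nn c) (Nat.shiftRight c 7)
                  l0 h0 l1 h1 l2 h2 l3 h3 l4 h4)))))
          (Nat.add (Nat.shiftRight c (Nat.add 7 (Nat.mul 48 (nn c)))) 1))
      (Nat.land c 7) := rfl

theorem okN_pos {b : Bool} {r : ℕ} (h : 1 ≤ okN b r) : b = true ∧ 1 ≤ r := by
  cases b with
  | false => exact absurd (show 1 ≤ 0 from h) (by decide)
  | true => exact ⟨rfl, h⟩

theorem bindN_pos {x : ℕ} {f : ℕ → ℕ} (h : 1 ≤ bindN x f) : 1 ≤ x ∧ ∃ r, 1 ≤ f r ∧ x = r + 1 := by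
  cases x with
  | zero => exact absurd (show 1 ≤ 0 from h) (by decide)
  | succ r => exact ⟨Nat.succ_le_succ (Nat.zero_le _), r, h, rfl⟩

theorem getP2_mem : ∀ (ps : List DP2) (n : ℕ), getP2 ps n ∈ ps ∨ getP2 ps n = ⟨0, 0, 1⟩
  | [], _ => Or.inr rfl
  | a :: l, 0 => Or.inl List.mem_cons_self
  | a :: l, n + 1 => by
    have e : getP2 (a :: l) (n + 1) = getP2 l n := rfl
    rw [e]
    rcases getP2_mem l n with h | h
    · exact Or.inl (List.mem_cons_of_mem _ h)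
    · exact Or.inr h

/-- the upper ends are smaller -/
structure Sub (b H : Box) : Prop where
  h0 : b.h0 ≤ H.h0
  h1 : b.h1 ≤ H.h1
  h2 : b.h2 ≤ H.h2
  h3 : b.h3 ≤ H.h3
  h4 : b.h4 ≤ H.h4

theorem killT_ne {D2 D24 : ℕ} {cs : List C2} {n x : ℕ} {l0 h0 l1 h1 l2 h2 l3 h3 l4 h4 : ℕ}
    (h : killT D2 D24 cs ⟨0, 0, 1⟩ n x l0 h0 l1 h1 l2 h2 l3 h3 l4 h4 = true) : False := by
  unfold killT at h
  rw [Bool.and_eq_true, Nat.ble_eq] at h
  have h1 : 1 + lamS C2.b cs n x ≤ 0 := h.1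
  omega

/-- **A checked code.** -/
theorem run_sound {st : Bool} {D : ℕ} {cs : List C2} {ds : List V6} {ps : List DP2}
    {Q : DP2 → Prop} {v : Fin 6 → ℝ} (h5 : v 5 = 1)
    (hr : List.Forall₂ (C2Ok (2 * D)) cs ds) (hcs : ∀ c ∈ ds, 0 ≤ c.val v)
    (hst : st = true → 0 < (ds.getD 0 zeroV).val v) (hD : 0 < D) {H : Box} {D24 : ℕ}
    (hleaf : ∀ P n x (b : Box), P ∈ ps → Sub b H →
      killT (2 * D) D24 cs P n x b.l0 b.h0 b.l1 b.h1 b.l2 b.h2 b.l3 b.h3 b.l4 b.h4 = true →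
      b.Mem (2 * D) v → Q P) :
    ∀ (fuel c : ℕ) (b : Box), Sub b H →
      1 ≤ run st D (2 * D) D24 cs ps fuel c b.l0 b.h0 b.l1 b.h1 b.l2 b.h2 b.l3 b.h3 b.l4 b.h4 →
      b.Mem (2 * D) v → ∃ P ∈ ps, Q P
  | 0, c, b, _, h, _ => by
    rw [run_zero] at h
    exact absurd h (by decide)
  | fuel + 1, c, b, hs, h, hb => by
    have ih := run_sound h5 hr hcs hst hD hleaf fuel
    have hDR : (0 : ℝ) < D := by exact_mod_cast hD
    rw [run_succ] at h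
    rcases br_cases _ _ _ _ _ _ _ _ _ with e | e | e | e | e | e | e | e
    · rw [e] at h
      obtain ⟨h1, h2⟩ := okN_pos h
      rw [Nat.ble_eq] at h1
      obtain ⟨h3, r, h4, -⟩ := bindN_pos h2
      rcases le_total (((2 * D : ℕ) : ℝ) * v 0) (2 * ((pp c : ℕ) : ℝ)) with hp | hp
      · exact ih (cc c) ⟨b.l0, pp c, b.l1, b.h1, b.l2, b.h2, b.l3, b.h3, b.l4, b.h4⟩
          ⟨h1.trans hs.h0, hs.h1, hs.h2, hs.h3, hs.h4⟩ h3
          ⟨hb.l0, hp, hb.l1, hb.h1, hb.l2, hb.h2, hb.l3, hb.h3, hb.l4, hb.h4⟩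
      · exact ih r ⟨pp c, b.h0, b.l1, b.h1, b.l2, b.h2, b.l3, b.h3, b.l4, b.h4⟩
          ⟨hs.h0, hs.h1, hs.h2, hs.h3, hs.h4⟩ h4
          ⟨hp, hb.h0, hb.l1, hb.h1, hb.l2, hb.h2, hb.l3, hb.h3, hb.l4, hb.h4⟩
    · rw [e] at h
      obtain ⟨h1, h2⟩ := okN_pos h
      rw [Nat.ble_eq] at h1
      obtain ⟨h3, r, h4, -⟩ := bindN_pos h2
      rcases le_total (((2 * D : ℕ) : ℝ) * v 1) (2 * ((pp c : ℕ) : ℝ)) with hp | hp
      · exact ih (cc c) ⟨b.l0, b.h0, b.l1, pp c, b.l2, b.h2, b.l3, b.h3, b.l4, b.h4⟩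
          ⟨hs.h0, h1.trans hs.h1, hs.h2, hs.h3, hs.h4⟩ h3
          ⟨hb.l0, hb.h0, hb.l1, hp, hb.l2, hb.h2, hb.l3, hb.h3, hb.l4, hb.h4⟩
      · exact ih r ⟨b.l0, b.h0, pp c, b.h1, b.l2, b.h2, b.l3, b.h3, b.l4, b.h4⟩
          ⟨hs.h0, hs.h1, hs.h2, hs.h3, hs.h4⟩ h4
          ⟨hb.l0, hb.h0, hp, hb.h1, hb.l2, hb.h2, hb.l3, hb.h3, hb.l4, hb.h4⟩
    · rw [e] at h
      obtain ⟨h1, h2⟩ := okN_pos h
      rw [Nat.ble_eq] at h1
      obtain ⟨h3, r, h4, -⟩ := bindN_pos h2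
      rcases le_total (((2 * D : ℕ) : ℝ) * v 2) (2 * ((pp c : ℕ) : ℝ)) with hp | hp
      · exact ih (cc c) ⟨b.l0, b.h0, b.l1, b.h1, b.l2, pp c, b.l3, b.h3, b.l4, b.h4⟩
          ⟨hs.h0, hs.h1, h1.trans hs.h2, hs.h3, hs.h4⟩ h3
          ⟨hb.l0, hb.h0, hb.l1, hb.h1, hb.l2, hp, hb.l3, hb.h3, hb.l4, hb.h4⟩
      · exact ih r ⟨b.l0, b.h0, b.l1, b.h1, pp c, b.h2, b.l3, b.h3, b.l4, b.h4⟩
          ⟨hs.h0, hs.h1, hs.h2, hs.h3, hs.h4⟩ h4
          ⟨hb.l0, hb.h0, hb.l1, hb.h1, hp, hb.h2, hb.l3, hb.h3, hb.l4, hb.h4⟩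
    · rw [e] at h
      obtain ⟨h1, h2⟩ := okN_pos h
      rw [Nat.ble_eq] at h1
      obtain ⟨h3, r, h4, -⟩ := bindN_pos h2
      rcases le_total (((2 * D : ℕ) : ℝ) * v 3) (2 * ((pp c : ℕ) : ℝ)) with hp | hp
      · exact ih (cc c) ⟨b.l0, b.h0, b.l1, b.h1, b.l2, b.h2, b.l3, pp c, b.l4, b.h4⟩
          ⟨hs.h0, hs.h1, hs.h2, h1.trans hs.h3, hs.h4⟩ h3
          ⟨hb.l0, hb.h0, hb.l1, hb.h1, hb.l2, hb.h2, hb.l3, hp, hb.l4, hb.h4⟩
      · exact ih r ⟨b.l0, b.h0, b.l1, b.h1, b.l2, b.h2, pp c, b.h3, b.l4, b.h4⟩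
          ⟨hs.h0, hs.h1, hs.h2, hs.h3, hs.h4⟩ h4
          ⟨hb.l0, hb.h0, hb.l1, hb.h1, hb.l2, hb.h2, hp, hb.h3, hb.l4, hb.h4⟩
    · rw [e] at h
      obtain ⟨h1, h2⟩ := okN_pos h
      rw [Nat.ble_eq] at h1
      obtain ⟨h3, r, h4, -⟩ := bindN_pos h2
      rcases le_total (((2 * D : ℕ) : ℝ) * v 4) (2 * ((pp c : ℕ) : ℝ)) with hp | hp
      · exact ih (cc c) ⟨b.l0, b.h0, b.l1, b.h1, b.l2, b.h2, b.l3, b.h3, b.l4, pp c⟩
          ⟨hs.h0, hs.h1, hs.h2, hs.h3, h1.trans hs.h4⟩ h3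
          ⟨hb.l0, hb.h0, hb.l1, hb.h1, hb.l2, hb.h2, hb.l3, hb.h3, hb.l4, hp⟩
      · exact ih r ⟨b.l0, b.h0, b.l1, b.h1, b.l2, b.h2, b.l3, b.h3, pp c, b.h4⟩
          ⟨hs.h0, hs.h1, hs.h2, hs.h3, hs.h4⟩ h4
          ⟨hb.l0, hb.h0, hb.l1, hb.h1, hb.l2, hb.h2, hb.l3, hb.h3, hp, hb.h4⟩
    · rw [e] at h
      obtain ⟨h1, -⟩ := okN_pos h
      have h2 := emptyT_le hr h1 h5 hb
      have h3 := cmb_val hcs (nn c) (Nat.shiftRight c 7)
      have h4 := mul_nonneg hDR.le h3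
      push_cast at h2
      linarith
    · rw [e] at h
      obtain ⟨h1, -⟩ := okN_pos h
      rcases getP2_mem ps (Nat.land (Nat.shiftRight c 7) 1023) with hm | hm
      · exact ⟨_, hm, hleaf _ _ _ b hm hs h1 hb⟩
      · rw [hm] at h1
        exact (killT_ne h1).elim
    · rw [e] at h
      obtain ⟨h1, -⟩ := okN_pos h
      rw [Bool.and_eq_true, Bool.and_eq_true, Bool.and_eq_true, Bool.and_eq_true, Nat.ble_eq,
        Nat.ble_eq, Nat.beq_eq] at h1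
      obtain ⟨h2, h3, h4, h6, h7⟩ := h1
      have h8 := emptyT_le hr h7 h5 hb
      have e2 : Nat.shiftRight (Nat.shiftRight c 7) 6 = Nat.shiftRight c 13 := by
        change (c >>> 7) >>> 6 = c >>> 13
        rw [← Nat.shiftRight_add]
      have h9 := cmb_pos hcs (hst h2) (n := nn c) (x := Nat.shiftRight c 7) h3 h4 (by
        unfold lv
        rw [e2]
        exact h6)
      have h10 := mul_pos hDR h9
      push_cast at h8
      linarith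

/-! ### the lists -/

theorem mem_mapP2 {cs : List C3} {D2 : ℕ} : ∀ {l : List ℕ} {P : DP2}, P ∈ mapP2 cs D2 l →
    ∃ x ∈ l, P = prep2 cs D2 x
  | [], P, h => by
    have : P ∈ ([] : List DP2) := h
    simp at this
  | a :: l, P, h => by
    have h' : P ∈ prep2 cs D2 a :: mapP2 cs D2 l := h
    rcases List.mem_cons.mp h' with h1 | h1
    · exact ⟨a, List.mem_cons_self, h1⟩
    · obtain ⟨x, hx, e⟩ := mem_mapP2 h1
      exact ⟨x, List.mem_cons_of_mem _ hx, e⟩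

theorem codesOk_spec : ∀ {l : List ℕ}, codesOk l = true → ∀ x ∈ l, yOk (ym x) (yc x) = true
  | [], _, x, h => by simp at h
  | a :: l, hc, x, h => by
    have h' : and (yOk (ym a) (yc a)) (codesOk l) = true := hc
    rw [Bool.and_eq_true] at h'
    rcases List.mem_cons.mp h with h1 | h1
    · rw [h1]; exact h'.1
    · exact codesOk_spec h'.2 x h1

theorem psOk_spec {R : ℕ} : ∀ {l : List DP2}, psOk R l = true → ∀ P ∈ l,
    6 * P.K * R ^ 5 ≤ 2 ^ aa - 1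
  | [], _, P, h => by simp at h
  | a :: l, hc, P, h => by
    have h' : and (Nat.ble (Nat.mul (Nat.mul 6 a.K) (Nat.pow R 5))
      11150372599265311570767859136324180752990207) (psOk R l) = true := hc
    rw [Bool.and_eq_true, Nat.ble_eq] at h'
    rcases List.mem_cons.mp h with h1 | h1
    · rw [h1]
      refine le_trans h'.1 ?_
      norm_num [aa]
    · exact psOk_spec h'.2 P h1

/-- the root of a check -/
theorem chk2_run {st : Bool} {D : ℕ} {xs code : List ℕ} {b : Box}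
    (h : chk2 st D prev F xs code b.l0 b.h0 b.l1 b.h1 b.l2 b.h2 b.l3 b.h3 b.l4 b.h4 = true)
    {v : Fin 6 → ℝ} (h5 : v 5 = 1) (hcs : ∀ c ∈ cons prev F, 0 ≤ c.val v)
    (hst : st = true → 0 < F.ncon.val v) (hb : b.Mem (2 * D) v) :
    0 < D ∧ D ≤ 65536 ∧ ∃ x ∈ xs, dualOk prev F (dualOf x) = true ∧
      1 ≤ ((2 * D : ℕ) : ℝ) ^ 5 * (216 * (muPar (dualOf x).mu).val v -
        aeval v (par (polyP prev F (dualOf x)))) := by
  unfold chk2 at h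
  rw [Bool.and_eq_true, Bool.and_eq_true, Bool.and_eq_true, Bool.and_eq_true, Bool.and_eq_true,
    Bool.and_eq_true, Nat.ble_eq, Nat.ble_eq, Nat.ble_eq] at h
  obtain ⟨⟨hD1, hD2⟩, ⟨hp, hF⟩, hco, hps, hrun⟩ := h
  refine ⟨hD1, hD2, ?_⟩
  have hr := cons2_rel (2 * D) prev F
  obtain ⟨P, hP, x, hx, -, hq1, hq2⟩ := run_sound (st := st) (D := D) (ds := cons prev F)
    (Q := fun P => ∃ x ∈ xs, P = prep2 (cuts3 prev F) (2 * D) x ∧
      dualOk prev F (dualOf x) = true ∧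
      1 ≤ ((2 * D : ℕ) : ℝ) ^ 5 * (216 * (muPar (dualOf x).mu).val v -
        aeval v (par (polyP prev F (dualOf x))))) h5 hr hcs
    (fun hh => hst hh) hD1 (H := b) (D24 := Nat.pow (2 * D) 4)
    (by
      intro P n x b' hP hs hk hb'
      obtain ⟨y, hy, e⟩ := mem_mapP2 hP
      have e' : P = prep2 (cuts3 prev F) (2 * D) y := e
      have hok := dualOk_of (prev := prev) (F := F) hp hF (codesOk_spec hco y hy)
      have hsem := prep2_sem (prev := prev) (F := F) (2 * D) hp hF (codesOk_spec hco y hy)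
      rw [← e'] at hsem
      refine ⟨y, hy, e, hok, ?_⟩
      refine killT_sound hr hsem (by omega) (R := 2 * D + 2 * b.h0 + 2 * b.h1 +
        (2 * b.h2 + 2 * b.h3 + (2 * b.h4 + 5))) ?_ (psOk_spec hps P hP) hk h5 hb' hcs
      have e2 : rho (2 * D) b' = 2 * D + 2 * b'.h0 + 2 * b'.h1 + 2 * b'.h2 + 2 * b'.h3 +
        (2 * b'.h4 + 5) := rfl
      rw [e2]
      have := hs.h0
      have := hs.h1
      have := hs.h2
      have := hs.h3
      have := hs.h4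
      omega)
    200 (catN code) b ⟨le_refl _, le_refl _, le_refl _, le_refl _, le_refl _⟩ hrun hb
  exact ⟨x, hx, hq1, hq2⟩

end Pool.Agent.Helper5.B54
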