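import Pool.Agent.Helper5.B54v2.Prep2

/-!
# Meaning of a prepared dual vector, second format (continued)
-/

namespace Pool.Agent.Helper5.B54

open Finset MvPolynomial Pool.Agent.Helper65.B54

variable {prev : List Facet} {F : Facet}

/-- `K` and the forms of a pair -/
theorem norm2_eq {R : PN} {p q : MvPolynomial (Fin 6) ℕ} {S : ℕ} (hR : PNSem 5 S R p q)
    (hb : Bd (cst p - cst q) (2 ^ 113)) : norm2 R = normP (pk (cst p - cst q)) := by
  obtain ⟨hp, hq, ep, eq, -⟩ := hR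
  have hh : (cst p - cst q).IsHomogeneous 5 := (hom_cst hp).sub (hom_cst hq)
  have hc := lt_aa hb (by norm_num [aa])
  have e0 : pk (cst p - cst q) = (R.P : ℤ) - (R.N : ℤ) := by
    rw [pk_sub', pk_cst, pk_cst, ep, eq]
  have e1 : Nat.sub (Nat.add R.P cOff) R.N = (pk (cst p - cst q) + (cOff : ℤ)).toNat := by
    symm
    apply toNat_sub2
    rw [e0]
    change _ = ((R.P + cOff : ℕ) : ℤ) - _
    push_cast
    ring
  have e2 : Nat.sub (Nat.add R.N cOff) R.P = (pk (-(cst p - cst q)) + (cOff : ℤ)).toNat := by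
    symm
    apply toNat_sub2
    have : pk (-(cst p - cst q)) = -pk (cst p - cst q) := by unfold pk; exact map_neg _ _
    rw [this, e0]
    change _ = ((R.N + cOff : ℕ) : ℤ) - _
    push_cast
    ring
  have hn : (-(cst p - cst q)).IsHomogeneous 5 := hh.neg
  have hcn : ∀ m, |coeff m (-(cst p - cst q))| < 2 ^ aa := fun m => by
    rw [coeff_neg, abs_neg]; exact hc m
  have z1 := Z_pos hh off_ok hc
  have z2 := Z_pos hn off_ok hcn
  have z3 := Z_neg hh off_ok hc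
  unfold norm2 normP
  rw [e1, e2]
  change posPart 143 cOff _ % _ + posPart 143 cOff _ % _ = posPart 143 cOff (pk (cst p - cst q) +
    (cOff : ℤ)).toNat % _ + posPart 143 cOff (Nat.sub (Nat.mul 2 cOff) (pk (cst p - cst q) +
    (cOff : ℤ)).toNat) % _
  have a1 : (143 : ℕ) = aa := rfl
  rw [a1, z1, z2, z3]
  simp only [coeff_neg]

theorem prepN2_X {R : PN} {p q : MvPolynomial (Fin 6) ℕ} {S : ℕ} (hR : PNSem 5 S R p q)
    (hb : Bd (cst p - cst q) (2 ^ 113)) (D2 x : ℕ) (mu : V6) :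
    (prepN2 D2 x R).X = (prepN D2 (pk (cst p - cst q)) mu).X + D2 ^ 4 * muF D2 x ∧
      (prepN2 D2 x R).K = (prepN D2 (pk (cst p - cst q)) mu).K := by
  have hn := norm2_eq hR hb
  obtain ⟨hp, hq, ep, eq, -⟩ := hR
  have e0 : pk (cst p - cst q) = (R.P : ℤ) - (R.N : ℤ) := by
    rw [pk_sub', pk_cst, pk_cst, ep, eq]
  refine ⟨?_, hn⟩
  unfold prepN2 prepN
  simp only
  rw [hn]
  generalize hK : normP (pk (cst p - cst q)) = K
  have e1 : Nat.sub (Nat.add R.P (Nat.mul K XS5)) R.N =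
      Int.toNat (Int.add (pk (cst p - cst q)) (Int.ofNat (Nat.mul K (Nat.pow XS 5)))) := by
    symm
    apply toNat_sub2
    rw [e0]
    change (R.P : ℤ) - R.N + ((K * Nat.pow XS 5 : ℕ) : ℤ) = ((R.P + K * XS5 : ℕ) : ℤ) - R.N
    have : XS5 = Nat.pow XS 5 := rfl
    rw [this]
    push_cast
    ring
  rw [e1]
  rfl

/-! ### the form `- 216 mu` -/

theorem adN_eq (f g : ℕ) : adN f g = ((f : ℤ) - g).natAbs := by
  unfold adN
  change (f - g) + (g - f) = _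
  omega

/-- `mu` in the parameters -/
def muV (x : ℕ) : V6 := muPar (dualOf x).mu

theorem muV_eq (x : ℕ) : muV x = ⟨(mf x 0 : ℤ) - mf x 1, (mf x 1 : ℤ) - mf x 5,
    (mf x 2 : ℤ) - mf x 3, (mf x 3 : ℤ) - mf x 5, (mf x 4 : ℤ) - mf x 5,
    (mf x 5 : ℤ) - 2147483648⟩ := by
  unfold muV muPar dualOf
  simp only
  have e : ∀ a b c : ℤ, Int.sub (a - c) (b - c) = a - b := fun a b c => by
    change (a - c) - (b - c) = _
    ring
  simp only [e]

theorem muB_eq (x : ℕ) : muB x = 216 * ((muV x).a0.natAbs + (muV x).a1.natAbs + (muV x).a2.natAbs +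
    (muV x).a3.natAbs + (muV x).a4.natAbs + (muV x).a5.natAbs) := by
  rw [muV_eq]
  unfold muB
  simp only [adN_eq]
  rfl

theorem muE_eq {b f g : ℕ} {m : ℤ} (hm : m = (f : ℤ) - g) (hb : 216 * m.natAbs ≤ b) :
    ((muE b f g : ℕ) : ℤ) = b - 216 * m := by
  unfold muE
  change (((b + 216 * g - 216 * f : ℕ)) : ℤ) = _
  omega

/-- meaning of a prepared dual vector -/
structure SemB (D2 : ℕ) (P : DP2) (p : MvPolynomial (Fin 6) ℤ) (m : V6) : Prop where
  hom : p.IsHomogeneous 5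
  norm : ∑ m ∈ Ix, (coeff m p).natAbs ≤ P.K
  mu : 216 * (m.a0.natAbs + m.a1.natAbs + m.a2.natAbs + m.a3.natAbs + m.a4.natAbs +
    m.a5.natAbs) ≤ P.b
  g : ∃ g : MvPolynomial (Fin 6) ℕ, g.IsHomogeneous 5 ∧ pk g = P.X ∧
    ∀ v : Fin 6 → ℝ, v 5 = 1 → aeval v g = aeval (Function.update v 5 (D2 : ℝ)) p +
      P.K * (∑ k, Function.update v 5 (D2 : ℝ) k) ^ 5 + (D2 : ℝ) ^ 4 *
        (P.b * (∑ k, Function.update v 5 (D2 : ℝ) k) - 216 * m.val (Function.update v 5 (D2 : ℝ)))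

/-- the linear form of `muF` -/
noncomputable def muQ (D2 x : ℕ) : MvPolynomial (Fin 6) ℕ :=
  C (muE (muB x) (mf x 0) (mf x 1)) * X 0 + C (muE (muB x) (mf x 1) (mf x 5)) * X 1 +
  C (muE (muB x) (mf x 2) (mf x 3)) * X 2 + C (muE (muB x) (mf x 3) (mf x 5)) * X 3 +
  C (muE (muB x) (mf x 4) (mf x 5)) * X 4 + C (muE (muB x) (mf x 5) 2147483648 * D2) * X 5

theorem hom_CXN (c : ℕ) (i : Fin 6) : (C c * X i : MvPolynomial (Fin 6) ℕ).IsHomogeneous 1 :=
  isHomogeneous_C_mul_X _ _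

theorem hom_muQ (D2 x : ℕ) : (muQ D2 x).IsHomogeneous 1 :=
  (((((hom_CXN _ _).add (hom_CXN _ _)).add (hom_CXN _ _)).add (hom_CXN _ _)).add (hom_CXN _ _)).add
    (hom_CXN _ _)

theorem pk_muQ (D2 x : ℕ) : pk (muQ D2 x) = muF D2 x := by
  unfold muQ
  simp only [pk_add, pk_mul, pk_C]
  rw [pkX 0 X0_eq, pkX 1 X1_eq, pkX 2 X2_eq, pkX 3 X3_eq, pkX 4 X4_eq, pkX 5 X5_eq, mul_one]
  rfl

theorem aeval_muQ (D2 x : ℕ) {v : Fin 6 → ℝ} (h5 : v 5 = 1) : aeval v (muQ D2 x) =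
    (muB x : ℝ) * (∑ k, Function.update v 5 (D2 : ℝ) k) -
      216 * (muV x).val (Function.update v 5 (D2 : ℝ)) := by
  have hB := muB_eq x
  have hV := muV_eq x
  have k0 : ((muE (muB x) (mf x 0) (mf x 1) : ℕ) : ℤ) = muB x - 216 * (muV x).a0 :=
    muE_eq (by rw [hV]) (by omega)
  have k1 : ((muE (muB x) (mf x 1) (mf x 5) : ℕ) : ℤ) = muB x - 216 * (muV x).a1 :=
    muE_eq (by rw [hV]) (by omega)
  have k2 : ((muE (muB x) (mf x 2) (mf x 3) : ℕ) : ℤ) = muB x - 216 * (muV x).a2 :=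
    muE_eq (by rw [hV]) (by omega)
  have k3 : ((muE (muB x) (mf x 3) (mf x 5) : ℕ) : ℤ) = muB x - 216 * (muV x).a3 :=
    muE_eq (by rw [hV]) (by omega)
  have k4 : ((muE (muB x) (mf x 4) (mf x 5) : ℕ) : ℤ) = muB x - 216 * (muV x).a4 :=
    muE_eq (by rw [hV]) (by omega)
  have k5 : ((muE (muB x) (mf x 5) 2147483648 : ℕ) : ℤ) = muB x - 216 * (muV x).a5 :=
    muE_eq (by rw [hV]; rfl) (by omega)
  have r0 : ((muE (muB x) (mf x 0) (mf x 1) : ℕ) : ℝ) = muB x - 216 * (muV x).a0 := by exact_mod_cast k0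
  have r1 : ((muE (muB x) (mf x 1) (mf x 5) : ℕ) : ℝ) = muB x - 216 * (muV x).a1 := by exact_mod_cast k1
  have r2 : ((muE (muB x) (mf x 2) (mf x 3) : ℕ) : ℝ) = muB x - 216 * (muV x).a2 := by exact_mod_cast k2
  have r3 : ((muE (muB x) (mf x 3) (mf x 5) : ℕ) : ℝ) = muB x - 216 * (muV x).a3 := by exact_mod_cast k3
  have r4 : ((muE (muB x) (mf x 4) (mf x 5) : ℕ) : ℝ) = muB x - 216 * (muV x).a4 := by exact_mod_cast k4
  have r5 : ((muE (muB x) (mf x 5) 2147483648 : ℕ) : ℝ) = muB x - 216 * (muV x).a5 := by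
    exact_mod_cast k5
  have e : aeval v (muQ D2 x) = ((muE (muB x) (mf x 0) (mf x 1) : ℕ) : ℝ) * v 0 +
      ((muE (muB x) (mf x 1) (mf x 5) : ℕ) : ℝ) * v 1 + ((muE (muB x) (mf x 2) (mf x 3) : ℕ) : ℝ) * v 2 +
      ((muE (muB x) (mf x 3) (mf x 5) : ℕ) : ℝ) * v 3 + ((muE (muB x) (mf x 4) (mf x 5) : ℕ) : ℝ) * v 4 +
      ((muE (muB x) (mf x 5) 2147483648 * D2 : ℕ) : ℝ) * v 5 := by
    unfold muQ
    simp only [map_add, map_mul, aeval_X, eq_natCast, map_natCast]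
    push_cast
    ring
  rw [e, h5, Nat.cast_mul, r0, r1, r2, r3, r4, r5, Fin.sum_univ_six]
  unfold V6.val
  have u : ∀ k : Fin 6, k ≠ 5 → Function.update v 5 (D2 : ℝ) k = v k := fun k hk =>
    Function.update_of_ne hk _ _
  rw [u 0 (by decide), u 1 (by decide), u 2 (by decide), u 3 (by decide), u 4 (by decide),
    Function.update_self]
  ring

/-- **Meaning of a prepared dual vector.** -/
theorem prep2_sem (D2 : ℕ) {x : ℕ} (hp : facsOk prev = true) (hF : F.small = true)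
    (hx : yOk (ym x) (yc x) = true) :
    SemB D2 (prep2 (cuts3 prev F) D2 x) (par (polyP prev F (dualOf x))) (muV x) := by
  have hok := dualOk_of (prev := prev) (F := F) hp hF hx
  obtain ⟨p, q, hpq, e1⟩ := parts_sem (prev := prev) (F := F) hp hF hx
  obtain ⟨p', q', hpq', e2⟩ := toPar2_sem hpq
  rw [e1] at e2
  have hbd : Bd (cst p' - cst q') (2 ^ 113) := by rw [e2]; exact bd_par (bd_polyP hok)
  obtain ⟨hX, hK⟩ := prepN2_X hpq' hbd D2 x (dualOf x).mu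
  rw [e2] at hX hK
  obtain ⟨h1, h2, g, hg, hgX, hgv⟩ := prepN_sem D2 (hom_par (polyP prev F (dualOf x)))
    (bd_par (bd_polyP hok)) (dualOf x).mu
  have hb : (prep2 (cuts3 prev F) D2 x).b = muB x := rfl
  refine ⟨h1, ?_, ?_, g + C (D2 ^ 4) * (muQ D2 x * X 5 ^ 4), ?_, ?_, ?_⟩
  · exact h2.trans (le_of_eq hK.symm)
  · rw [hb, muB_eq]
  · refine hg.add ?_
    have := ((hom_muQ D2 x).mul ((hom_XN 5).pow 4)).C_mul (D2 ^ 4)
    exact this
  · rw [pk_add, pk_mul, pk_mul, pk_pow, pk_C, pk_muQ, pkX 5 X5_eq, one_pow, mul_one, hgX]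
    exact hX.symm
  · intro v h5
    have e3 := hgv v
    rw [h5, mul_one] at e3
    have e4 : (prep2 (cuts3 prev F) D2 x).K =
        (prepN D2 (pk (par (polyP prev F (dualOf x)))) (dualOf x).mu).K := hK
    have e5 : aeval v (C (D2 ^ 4) * (muQ D2 x * X 5 ^ 4)) = (D2 : ℝ) ^ 4 * aeval v (muQ D2 x) := by
      rw [map_mul (aeval v), map_mul (aeval v), map_pow (aeval v), aeval_X, h5, one_pow, mul_one,
        aeval_C, eq_natCast]
      push_cast
      ring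
    rw [map_add, e3, e5, aeval_muQ D2 x h5, e4, hb]

end Pool.Agent.Helper5.B54
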